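import Pool.Agent.helper37.SY.Defs

/-!
SY-07 (Cre) (proof: helper51).  The relation between the angles in the class with a twofold rotation.

PROOF.  Let `x = cosv t'`, `t' = t + τ • n`; then `x 1 = x 4`, `x 2 = x 3`.  Put
`d1 = (1 - x 0) * (1 - x 5) - (x 1 + x 2)^2`, `d2 = (1 + x 0) * (1 + x 5) - (x 1 - x 2)^2`.  Identities
(`ring` after substituting `x 4 = x 1`, `x 3 = x 2`): `gd x = d1 * d2`,
`(1 + x 0) * d1 = mi x 0 - cf x 0`, `(1 - x 0) * d2 = mi x 0 + cf x 0`,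
`cf x 1 + cf x 2 = (x 1 + x 2) * d2`.
At `τ = 0`: `mi x 0 > 0`, `cf x 0 > 0`, `x 0 < 1`, so `d2 > 0`, and `x 1 + x 2 > 0`.  By continuity both hold
for `τ` near `0`, so there `d1 = 0`, and `x 1 + x 2 = √((1 - x 0) (1 - x 5)) = 2 sin (t0/2) sin (t5/2)`
(the angles are in `(0, π)` near `0`; `1 - cos t = 2 sin² (t/2)`), which is
`cos ((t0 - t5)/2) - cos ((t0 + t5)/2)`.  So the analytic function of `τ` in the claim vanishes near `0`, hence
everywhere (`AnalyticOnNhd.eq_of_eventuallyEq` or the identity theorem).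
-/

namespace Pool.Agent.helper37.SY

open Real Pool.Agent.helper37.NP Pool.Agent.helper37.NL Pool.Agent.Helper93.Tet

private theorem Cre_gd {x : V6} (h4 : x 4 = x 1) (h3 : x 3 = x 2) :
    gd x = ((1 - x 0) * (1 - x 5) - (x 1 + x 2) ^ 2) * ((1 + x 0) * (1 + x 5) - (x 1 - x 2) ^ 2) := by
  unfold gd
  rw [h4, h3]
  ring

private theorem Cre_mi {x : V6} (h4 : x 4 = x 1) (h3 : x 3 = x 2) :
    (1 - x 0) * ((1 + x 0) * (1 + x 5) - (x 1 - x 2) ^ 2) = mi x 0 + cf x 0 := by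
  have e1 : mi x 0 = 1 - x 0 ^ 2 - x 1 ^ 2 - x 2 ^ 2 - 2 * x 0 * x 1 * x 2 := rfl
  have e2 : cf x 0 = x 5 * (1 - x 0 ^ 2) + x 4 * x 2 + x 3 * x 1 + x 0 * (x 4 * x 1 + x 3 * x 2) := rfl
  rw [e1, e2, h4, h3]
  ring

private theorem Cre_cf {x : V6} (h4 : x 4 = x 1) (h3 : x 3 = x 2) :
    cf x 1 + cf x 2 = (x 1 + x 2) * ((1 + x 0) * (1 + x 5) - (x 1 - x 2) ^ 2) := by
  have e1 : cf x 1 = x 4 * (1 - x 1 ^ 2) + x 5 * x 2 + x 3 * x 0 + x 1 * (x 5 * x 0 + x 3 * x 2) := rfl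
  have e2 : cf x 2 = x 3 * (1 - x 2 ^ 2) + x 5 * x 1 + x 4 * x 0 + x 2 * (x 5 * x 0 + x 4 * x 1) := rfl
  rw [e1, e2, h4, h3]
  ring

theorem c2_rel {t n : V6} (ht : t ∈ PP) (ht' : t ∈ Sy rot) (hn : n ∈ Sy rot)
    (hg : ∀ τ : ℝ, gd (cosv (t + τ • n)) = 0) (τ : ℝ) :
    cos ((t 0 - t 5) / 2 + (n 0 - n 5) / 2 * τ) - cos ((t 0 + t 5) / 2 + (n 0 + n 5) / 2 * τ)
      - cos (t 1 + n 1 * τ) - cos (t 2 + n 2 * τ) = 0 := by
  obtain ⟨hang, hmi, hcf⟩ := ht
  have ht4 : t 4 = t 1 := ht' 1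
  have ht3 : t 3 = t 2 := ht' 2
  have hn4 : n 4 = n 1 := hn 1
  have hn3 : n 3 = n 2 := hn 2
  have hx4 : ∀ τ : ℝ, cosv (t + τ • n) 4 = cosv (t + τ • n) 1 := by
    intro τ
    show cos (t 4 + τ * n 4) = cos (t 1 + τ * n 1)
    rw [ht4, hn4]
  have hx3 : ∀ τ : ℝ, cosv (t + τ • n) 3 = cosv (t + τ • n) 2 := by
    intro τ
    show cos (t 3 + τ * n 3) = cos (t 2 + τ * n 2)
    rw [ht3, hn3]
  have hval : ∀ (τ : ℝ) (i : Fin 6), cosv (t + τ • n) i = cos (t i + τ * n i) := fun _ _ => rfl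
  have h00 : cosv (t + (0 : ℝ) • n) = cosv t := by rw [zero_smul, add_zero]
  -- positivity at `0`
  have hc0 : cos (t 0) < 1 := by
    have h1 : cos (t 0) < cos 0 := cos_lt_cos_of_nonneg_of_le_pi le_rfl (hang 0).2.le (hang 0).1
    rwa [cos_zero] at h1
  have hd2 : 0 < (1 + cos (t 0)) * (1 + cos (t 5)) - (cos (t 1) - cos (t 2)) ^ 2 := by
    have h1 := Cre_mi (x := cosv t) (by have := hx4 0; rwa [h00] at this)
      (by have := hx3 0; rwa [h00] at this)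
    have h2 : 0 < mi (cosv t) 0 + cf (cosv t) 0 := add_pos (hmi 0) (hcf 0)
    rw [← h1] at h2
    have h3 : 0 < 1 - cosv t 0 := by
      show 0 < 1 - cos (t 0)
      linarith
    exact (pos_iff_pos_of_mul_pos h2).1 h3
  have hs : 0 < cos (t 1) + cos (t 2) := by
    have h1 := Cre_cf (x := cosv t) (by have := hx4 0; rwa [h00] at this)
      (by have := hx3 0; rwa [h00] at this)
    have h2 : 0 < cf (cosv t) 1 + cf (cosv t) 2 := add_pos (hcf 1) (hcf 2)
    rw [h1] at h2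
    exact (pos_iff_pos_of_mul_pos h2).2 hd2
  -- the relation near `0`
  have hev : (fun τ : ℝ => cos ((t 0 - t 5) / 2 + (n 0 - n 5) / 2 * τ) -
      cos ((t 0 + t 5) / 2 + (n 0 + n 5) / 2 * τ) - cos (t 1 + n 1 * τ) - cos (t 2 + n 2 * τ))
      =ᶠ[nhds 0] fun _ => (0 : ℝ) := by
    have c1 : ContinuousAt (fun τ : ℝ => (1 + cos (t 0 + τ * n 0)) * (1 + cos (t 5 + τ * n 5)) -
        (cos (t 1 + τ * n 1) - cos (t 2 + τ * n 2)) ^ 2) 0 := by fun_prop
    have c2 : ContinuousAt (fun τ : ℝ => cos (t 1 + τ * n 1) + cos (t 2 + τ * n 2)) 0 := by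
      fun_prop
    have c3 : ContinuousAt (fun τ : ℝ => t 0 + τ * n 0) 0 := by fun_prop
    have c4 : ContinuousAt (fun τ : ℝ => t 5 + τ * n 5) 0 := by fun_prop
    have a1 := c1.eventually (lt_mem_nhds (a := 0) (by
      simp only [zero_mul, add_zero]
      exact hd2))
    have a2 := c2.eventually (lt_mem_nhds (by simpa using hs))
    have a3 := c3.eventually (lt_mem_nhds (by simpa using (hang 0).1))
    have a4 := c3.eventually (gt_mem_nhds (by simpa using (hang 0).2))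
    have a5 := c4.eventually (lt_mem_nhds (by simpa using (hang 5).1))
    have a6 := c4.eventually (gt_mem_nhds (by simpa using (hang 5).2))
    filter_upwards [a1, a2, a3, a4, a5, a6] with σ b1 b2 b3 b4 b5 b6
    have hgd := hg σ
    rw [Cre_gd (hx4 σ) (hx3 σ)] at hgd
    simp only [hval] at hgd
    have h1 : (1 - cos (t 0 + σ * n 0)) * (1 - cos (t 5 + σ * n 5)) -
        (cos (t 1 + σ * n 1) + cos (t 2 + σ * n 2)) ^ 2 = 0 := by
      rcases mul_eq_zero.1 hgd with h | h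
      · exact h
      · exact absurd h b1.ne'
    set p := t 0 + σ * n 0 with hp
    set q := t 5 + σ * n 5 with hq
    have hsp : 0 < sin (p / 2) := sin_pos_of_pos_of_lt_pi (by linarith) (by linarith [pi_pos])
    have hsq : 0 < sin (q / 2) := sin_pos_of_pos_of_lt_pi (by linarith) (by linarith [pi_pos])
    have e1 : 1 - cos p = 2 * sin (p / 2) ^ 2 := by
      have h2 := cos_two_mul (p / 2)
      have h3 := sin_sq_add_cos_sq (p / 2)
      have h4 : 2 * (p / 2) = p := by ring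
      rw [h4] at h2
      linarith
    have e2 : 1 - cos q = 2 * sin (q / 2) ^ 2 := by
      have h2 := cos_two_mul (q / 2)
      have h3 := sin_sq_add_cos_sq (q / 2)
      have h4 : 2 * (q / 2) = q := by ring
      rw [h4] at h2
      linarith
    have e3 : (2 * sin (p / 2) * sin (q / 2)) ^ 2 =
        (cos (t 1 + σ * n 1) + cos (t 2 + σ * n 2)) ^ 2 := by
      rw [e1, e2] at h1
      linarith
    have e4 : 2 * sin (p / 2) * sin (q / 2) = cos (t 1 + σ * n 1) + cos (t 2 + σ * n 2) :=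
      (pow_left_inj₀ (by positivity) b2.le two_ne_zero).1 e3
    have e5 : (t 0 - t 5) / 2 + (n 0 - n 5) / 2 * σ = p / 2 - q / 2 := by
      rw [hp, hq]
      ring
    have e6 : (t 0 + t 5) / 2 + (n 0 + n 5) / 2 * σ = p / 2 + q / 2 := by
      rw [hp, hq]
      ring
    show cos ((t 0 - t 5) / 2 + (n 0 - n 5) / 2 * σ) -
      cos ((t 0 + t 5) / 2 + (n 0 + n 5) / 2 * σ) - cos (t 1 + n 1 * σ) - cos (t 2 + n 2 * σ) = 0
    rw [e5, e6, cos_sub, cos_add, mul_comm (n 1), mul_comm (n 2)]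
    linarith
  have hcos : AnalyticOnNhd ℝ cos Set.univ := analyticOnNhd_cos
  have hlin : ∀ a b : ℝ, AnalyticOnNhd ℝ (fun τ : ℝ => cos (a + b * τ)) Set.univ := by
    intro a b x _
    have h1 : AnalyticAt ℝ (fun τ : ℝ => a + b * τ) x := by fun_prop
    exact AnalyticAt.comp (g := cos) (f := fun τ : ℝ => a + b * τ)
      (hcos (a + b * x) (Set.mem_univ _)) h1
  have hf : AnalyticOnNhd ℝ (fun τ : ℝ => cos ((t 0 - t 5) / 2 + (n 0 - n 5) / 2 * τ) -
      cos ((t 0 + t 5) / 2 + (n 0 + n 5) / 2 * τ) - cos (t 1 + n 1 * τ) - cos (t 2 + n 2 * τ))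
      Set.univ :=
    (((hlin _ _).sub (hlin _ _)).sub (hlin _ _)).sub (hlin _ _)
  have hfin := hf.eq_of_eventuallyEq (analyticOnNhd_const (v := (0 : ℝ))) hev
  exact congrFun hfin τ

end Pool.Agent.helper37.SY
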