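import Pool.Agent.helper37.SY.Qua

/-!
author: helper41
SY-08 (Ctr).  Classification of the lines of angles, class with a twofold rotation (trigonometry).

PROOF.  `u = (t0 - t5)/2`, `v = (t0 + t5)/2`, `U = (n0 - n5)/2`, `V = (n0 + n5)/2`; `v ∈ (0, π)`,
`|u| < v`, `|u| < π - v`, `|u| < π/2`.  `quad` with `a = u`, `b = v + π`, `c = t1 + π`, `d = t2 + π`
(`cos (x + π) = -cos x`), slopes `U, V, n1, n2` (not all zero).
(1) PAIRS.  `cos u = cos v`: `|u| = v`, impossible.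
`cos u = cos t1` and `cos v = -cos t2`: `t1 = |u|`, `t2 = π - v`.  If `u ≥ 0` then
`t5 + t1 + t2 = π` (contradiction to `hc`), if `u ≤ 0` then `t0 + t1 + t2 = π` (contradiction to `ha`).
`cos u = cos t2`, `cos v = -cos t1`: the same with `t1`, `t2` exchanged.
(2) `cos u = 0` is impossible.
(3) `V = 0`, `cos v = 0`, `Tri`: `v = π/2`, so `t0 + t5 = π`; and with `e1 = n1/U`, `e2 = n2/U` (both `±1`)
`cos u = cos t1 + cos t2`, `sin u = e1 sin t1 + e2 sin t2` (in `Tri` the sign of the terms with `+ π` is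
minus).  Square and add: `1 = 2 + 2 (cos t1 cos t2 + e1 e2 sin t1 sin t2)`, so
`cos (e1 t1 - e2 t2) = -1/2`, and with `α = e1 t1`, `β = e2 t2`: `α - β ≡ ±2π/3`, and
`exp (iu) = exp (iα) + exp (iβ)` has the direction of the middle: `α ≡ u ± π/3`, `β ≡ u ∓ π/3` mod `2π`.
(Elementary: from `cos u = cos α + cos β`, `sin u = sin α + sin β` one gets
`cos (α - u) = 1/2 = cos (β - u)`, because `cos(α - u) = cos α cos u + sin α sin u
= cos² α + sin² α + cos (α - β) = 1 - 1/2`, and `sin (α - u) = - sin (β - u)`.)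
So `t1 = |u + π/3|`, `t2 = |u - π/3|` or `t1 = |u - π/3|`, `t2 = |u + π/3|`.
 If `|u| < π/3`: `t1 + t2 = 2π/3` and `t1 - t2 = ±2u = ±(t0 - t5)`: first alternative of the claim.
 If `u ≥ π/3`: `{t1, t2} = {u + π/3, u - π/3}`, `t0 = π/2 + u`: `t0 + |t1 - t2| = π/2 + u + 2π/3 ≥ π`
 contradicts `ha1`, `ha2`.  If `u ≤ -π/3`: `t5 = π/2 - u`, the same with `hc1`, `hc2`.
(4) `n1 = 0`, `cos t1 = 0`, `Tri`: `t1 = π/2`, `|U| = |V| = |n2| ≠ 0`, so exactly one of `n0`, `n5` is zero.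
`cos u = cos v + cos t2` and `sin u = e sin v + e2 sin t2`, `e = V/U`, `e2 = n2/U`.  As in (3):
`cos (e v - u) = 1/2` and `cos (e2 t2 - u) = 1/2`, `sin (e v - u) = - sin (e2 t2 - u)`.
 `n5 = 0`: `e = 1`, `v - u = t5 ∈ (0, π)` gives `t5 = π/3`; so `sin (e2 t2 - u) = -sin (π/3)`,
 `e2 t2 ≡ u - π/3` mod `2π`, and `u - π/3 = t0/2 - π/2 ∈ (-π/2, 0)`, so `t2 = π/2 - t0/2`.
 `n0 = 0`: `e = -1`, `-v - u = -t0`, so `t0 = π/3`, `sin (e2 t2 - u) = sin (π/3)`, `e2 t2 ≡ u + π/3`,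
 `u + π/3 = π/2 - t5/2 ∈ (0, π/2)`, `t2 = π/2 - t5/2`.
(5) `n2 = 0`: the same as (4) with `t1`, `t2` exchanged.
-/

namespace Pool.Agent.helper37.SY

open Real

private theorem Ctr_tri {u x y U X Y : ℝ} (h : Tri u U (x + π) X (y + π) Y) :
    ∃ e f : ℝ, (e = 1 ∨ e = -1) ∧ (f = 1 ∨ f = -1) ∧ cos (e * x - u) = 1 / 2 ∧
      cos (f * y - u) = 1 / 2 ∧ sin (e * x - u) = - sin (f * y - u) := by
  obtain ⟨hU, hX, hY, hc, hs⟩ := h
  rw [cos_add_pi, cos_add_pi] at hc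
  rw [sin_add_pi, sin_add_pi] at hs
  have key : ∀ α β : ℝ, cos u = cos α + cos β → sin u = sin α + sin β →
      cos (α - u) = 1 / 2 ∧ cos (β - u) = 1 / 2 ∧ sin (α - u) = - sin (β - u) := by
    intro α β h1 h2
    have e1 := cos_sq_add_sin_sq u
    have e2 := cos_sq_add_sin_sq α
    have e3 := cos_sq_add_sin_sq β
    rw [h1, h2] at e1
    rw [cos_sub, cos_sub, sin_sub, sin_sub, h1, h2]
    refine ⟨?_, ?_, ?_⟩
    · nlinarith
    · nlinarith
    · ring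
  have hX' : ∃ e : ℝ, (e = 1 ∨ e = -1) ∧ X = e * U := by
    rcases hX with h | h
    · exact ⟨1, Or.inl rfl, by rw [h, one_mul]⟩
    · exact ⟨-1, Or.inr rfl, by rw [h]; ring⟩
  have hY' : ∃ e : ℝ, (e = 1 ∨ e = -1) ∧ Y = e * U := by
    rcases hY with h | h
    · exact ⟨1, Or.inl rfl, by rw [h, one_mul]⟩
    · exact ⟨-1, Or.inr rfl, by rw [h]; ring⟩
  obtain ⟨e, he, hXe⟩ := hX'
  obtain ⟨f, hf, hYf⟩ := hY'
  have hse : sin u = e * sin x + f * sin y := by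
    have h1 : U * (sin u - (e * sin x + f * sin y)) = 0 := by
      rw [hXe, hYf] at hs
      linarith
    rcases mul_eq_zero.1 h1 with h2 | h2
    · exact absurd h2 hU
    · linarith
  have c1 : ∀ e x : ℝ, (e = 1 ∨ e = -1) → cos (e * x) = cos x ∧ sin (e * x) = e * sin x := by
    rintro e x (rfl | rfl)
    · simp
    · rw [neg_one_mul, cos_neg, sin_neg]
      simp
  obtain ⟨a1, a2⟩ := c1 e x he
  obtain ⟨a3, a4⟩ := c1 f y hf
  have := key (e * x) (f * y) (by rw [a1, a3]; linarith) (by rw [a2, a4]; exact hse)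
  exact ⟨e, f, he, hf, this⟩

private theorem Ctr_third {x : ℝ} (h : cos x = 1 / 2) (h1 : -(3 * π / 2) < x)
    (h2 : x < 3 * π / 2) : x = π / 3 ∨ x = -(π / 3) := by
  rw [← cos_pi_div_three] at h
  obtain ⟨k, hk⟩ := cos_eq_cos_iff.1 h
  have hp := pi_pos
  have hk0 : k = 0 := by
    have a1 : (2 * k : ℝ) * π < 2 * π := by
      rcases hk with hk | hk <;> linarith
    have a2 : (-2 : ℝ) * π < 2 * k * π := by
      rcases hk with hk | hk <;> linarith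
    have a3 : (2 * k : ℝ) < 2 := lt_of_mul_lt_mul_right a1 hp.le
    have a4 : (-2 : ℝ) < 2 * k := lt_of_mul_lt_mul_right a2 hp.le
    have a5 : (k : ℝ) < 1 := by linarith
    have a6 : (-1 : ℝ) < k := by linarith
    have a7 : k < 1 := by exact_mod_cast a5
    have a8 : -1 < k := by exact_mod_cast a6
    omega
  subst hk0
  rcases hk with hk | hk
  · left
    simp at hk
    linarith
  · right
    simp at hk
    linarith

/-- cosines of numbers between `0` and `π` -/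
private theorem Ctr_inj {x y : ℝ} (hx : 0 ≤ x ∧ x ≤ π) (hy : 0 ≤ y ∧ y ≤ π) (h : cos x = cos y) :
    x = y := injOn_cos ⟨hx.1, hx.2⟩ ⟨hy.1, hy.2⟩ h

private theorem Ctr_abs {u y : ℝ} (hu : |u| ≤ π) (hy : 0 ≤ y ∧ y ≤ π) (h : cos u = cos y) :
    y = |u| := by
  rw [← cos_abs u] at h
  exact (Ctr_inj ⟨abs_nonneg u, hu⟩ hy h).symm

private theorem Ctr_half {x : ℝ} (hx : 0 < x ∧ x < π) (h : cos (x + π) = 0) : x = π / 2 := by
  have hp := pi_pos
  rw [cos_add_pi, neg_eq_zero, ← cos_pi_div_two] at h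
  exact Ctr_inj ⟨hx.1.le, hx.2.le⟩ ⟨by linarith, by linarith⟩ h

private theorem Ctr_two {t0 t1 t2 t5 : ℝ} (h0 : 0 < t0 ∧ t0 < π) (h1 : 0 < t1 ∧ t1 < π)
    (h2 : 0 < t2 ∧ t2 < π) (h5 : 0 < t5 ∧ t5 < π) (ha : π < t0 + t1 + t2)
    (hc : π < t5 + t1 + t2) (hA : cos ((t0 - t5) / 2) + cos (t1 + π) = 0)
    (hB : cos ((t0 + t5) / 2 + π) + cos (t2 + π) = 0) : False := by
  have hp := pi_pos
  rw [cos_add_pi] at hA
  rw [cos_add_pi, cos_add_pi] at hB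
  have e1 : t1 = |(t0 - t5) / 2| := by
    refine Ctr_abs ?_ ⟨h1.1.le, h1.2.le⟩ (by linarith)
    rw [abs_le]
    constructor <;> linarith
  have e2 : t2 = π - (t0 + t5) / 2 := by
    refine Ctr_inj ⟨h2.1.le, h2.2.le⟩ ⟨by linarith, by linarith⟩ ?_
    rw [cos_pi_sub]
    linarith
  rcases abs_cases ((t0 - t5) / 2) with ⟨h3, h4⟩ | ⟨h3, h4⟩ <;> rw [h3] at e1 <;> linarith

private theorem Ctr_six {t0 y t5 U V Y : ℝ} (h0 : 0 < t0 ∧ t0 < π) (hy : 0 < y ∧ y < π)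
    (h5 : 0 < t5 ∧ t5 < π) (h : Tri ((t0 - t5) / 2) U ((t0 + t5) / 2 + π) V (y + π) Y) :
    (t0 = π / 3 ∧ y = π / 2 - t5 / 2) ∨ (t5 = π / 3 ∧ y = π / 2 - t0 / 2) := by
  have hp := pi_pos
  obtain ⟨e, f, he, hf, c1, c2, hs⟩ := Ctr_tri h
  have b2 : f * y - (t0 - t5) / 2 = π / 3 ∨ f * y - (t0 - t5) / 2 = -(π / 3) := by
    refine Ctr_third c2 ?_ ?_ <;> rcases hf with rfl | rfl <;> linarith
  have s3 : 0 < sin (π / 3) := sin_pos_of_pos_of_lt_pi (by linarith) (by linarith)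
  rcases he with rfl | rfl
  · have e1 : 1 * ((t0 + t5) / 2) - (t0 - t5) / 2 = t5 := by ring
    rw [e1] at c1 hs
    have h6 : t5 = π / 3 := by
      refine Ctr_inj ⟨h5.1.le, h5.2.le⟩ ⟨by linarith, by linarith⟩ ?_
      rw [c1, cos_pi_div_three]
    right
    refine ⟨h6, ?_⟩
    rcases b2 with b | b
    · rw [b, h6] at hs
      linarith
    · rcases hf with rfl | rfl <;> linarith
  · have e1 : -1 * ((t0 + t5) / 2) - (t0 - t5) / 2 = -t0 := by ring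
    rw [e1] at c1 hs
    rw [cos_neg] at c1
    rw [sin_neg] at hs
    have h6 : t0 = π / 3 := by
      refine Ctr_inj ⟨h0.1.le, h0.2.le⟩ ⟨by linarith, by linarith⟩ ?_
      rw [c1, cos_pi_div_three]
    left
    refine ⟨h6, ?_⟩
    rcases b2 with b | b
    · rcases hf with rfl | rfl <;> linarith
    · rw [b, h6, sin_neg] at hs
      linarith

theorem c2_trig {t0 t1 t2 t5 n0 n1 n2 n5 : ℝ} (h0 : 0 < t0 ∧ t0 < π) (h1 : 0 < t1 ∧ t1 < π)
    (h2 : 0 < t2 ∧ t2 < π) (h5 : 0 < t5 ∧ t5 < π) (ha : π < t0 + t1 + t2)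
    (ha1 : t0 + t2 - t1 < π) (ha2 : t0 + t1 - t2 < π) (hc : π < t5 + t1 + t2)
    (hc1 : t5 + t2 - t1 < π) (hc2 : t5 + t1 - t2 < π)
    (hn : ¬ (n0 = 0 ∧ n1 = 0 ∧ n2 = 0 ∧ n5 = 0))
    (h : ∀ τ : ℝ, cos ((t0 - t5) / 2 + (n0 - n5) / 2 * τ)
      - cos ((t0 + t5) / 2 + (n0 + n5) / 2 * τ) - cos (t1 + n1 * τ) - cos (t2 + n2 * τ) = 0) :
    (t0 + t5 = π ∧ t1 + t2 = 2 * π / 3 ∧ (t1 - t2 = t0 - t5 ∨ t2 - t1 = t0 - t5)) ∨
    (t1 = π / 2 ∧ ((t0 = π / 3 ∧ t2 = π / 2 - t5 / 2) ∨ (t5 = π / 3 ∧ t2 = π / 2 - t0 / 2))) ∨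
    (t2 = π / 2 ∧ ((t0 = π / 3 ∧ t1 = π / 2 - t5 / 2) ∨ (t5 = π / 3 ∧ t1 = π / 2 - t0 / 2))) := by
  have hp := pi_pos
  have hq := quad ((t0 - t5) / 2) ((t0 + t5) / 2 + π) (t1 + π) (t2 + π) ((n0 - n5) / 2)
    ((n0 + n5) / 2) n1 n2 (fun τ => by
      have e1 : (t0 + t5) / 2 + π + (n0 + n5) / 2 * τ = (t0 + t5) / 2 + (n0 + n5) / 2 * τ + π := by
        ring
      have e2 : t1 + π + n1 * τ = t1 + n1 * τ + π := by ring
      have e3 : t2 + π + n2 * τ = t2 + n2 * τ + π := by ring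
      rw [e1, e2, e3, cos_add_pi, cos_add_pi, cos_add_pi]
      linarith [h τ]) (fun hz => hn ⟨by linarith [hz.1, hz.2.1], hz.2.2.1, hz.2.2.2,
        by linarith [hz.1, hz.2.1]⟩)
  rcases hq with ⟨q1, q2⟩ | ⟨q1, q2⟩ | ⟨q1, q2⟩ | ⟨q0, q1, q2⟩ | ⟨q0, q1, q2⟩ | ⟨q0, q1, q2⟩ |
    ⟨q0, q1, q2⟩
  · exfalso
    rw [cos_add_pi] at q1
    have e1 : (t0 + t5) / 2 = |(t0 - t5) / 2| := by
      refine Ctr_abs ?_ ⟨by linarith, by linarith⟩ (by linarith)
      rw [abs_le]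
      constructor <;> linarith
    rcases abs_cases ((t0 - t5) / 2) with ⟨h3, h4⟩ | ⟨h3, h4⟩ <;> rw [h3] at e1 <;> linarith
  · exact (Ctr_two h0 h1 h2 h5 ha hc q1 q2).elim
  · exact (Ctr_two h0 h2 h1 h5 (by linarith) (by linarith) q1 q2).elim
  · exfalso
    have : 0 < cos ((t0 - t5) / 2) := cos_pos_of_mem_Ioo ⟨by linarith, by linarith⟩
    linarith
  · left
    have hv : (t0 + t5) / 2 = π / 2 := Ctr_half ⟨by linarith, by linarith⟩ q1
    have hsum : t0 + t5 = π := by linarith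
    obtain ⟨e, f, he, hf, c1, c2, hs⟩ := Ctr_tri q2
    have b1 : e * t1 - (t0 - t5) / 2 = π / 3 ∨ e * t1 - (t0 - t5) / 2 = -(π / 3) := by
      refine Ctr_third c1 ?_ ?_ <;> rcases he with rfl | rfl <;> linarith
    have b2 : f * t2 - (t0 - t5) / 2 = π / 3 ∨ f * t2 - (t0 - t5) / 2 = -(π / 3) := by
      refine Ctr_third c2 ?_ ?_ <;> rcases hf with rfl | rfl <;> linarith
    have s3 : 0 < sin (π / 3) := sin_pos_of_pos_of_lt_pi (by linarith) (by linarith)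
    refine ⟨hsum, ?_⟩
    rcases b1 with b1 | b1 <;> rcases b2 with b2 | b2
    · rw [b1, b2] at hs
      linarith
    · rcases he with rfl | rfl <;> rcases hf with rfl | rfl
      · exfalso
        linarith
      · exact ⟨by linarith, Or.inl (by linarith)⟩
      · exfalso
        linarith
      · exfalso
        linarith
    · rcases he with rfl | rfl <;> rcases hf with rfl | rfl
      · exfalso
        linarith
      · exfalso
        linarith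
      · exact ⟨by linarith, Or.inr (by linarith)⟩
      · exfalso
        linarith
    · rw [b1, b2, sin_neg] at hs
      linarith
  · right
    left
    exact ⟨Ctr_half h1 q1, Ctr_six h0 h2 h5 q2⟩
  · right
    right
    exact ⟨Ctr_half h2 q1, Ctr_six h0 h1 h5 q2⟩

end Pool.Agent.helper37.SY
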