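import Pool.Agent.helper37.SY.Defs

/-!
SY-13 (Hlb).  The angle vectors of the family `H2v`.

PROOF.  `x = sin u`, `C = cos u > 0`, `x² + C² = 1`, `|x| < 1/2`.  `y := cosv (h2 u)`:
`y 0 = -x`, `y 5 = x`, `y 1 = y 4 = (C + √3 x)/2`, `y 2 = y 3 = (C - √3 x)/2`
(`cos (π/3 ∓ u) = C/2 ± (√3/2) x`).  One has `(y 1)² + (y 2)² = 1/2 + x²`, `y 1 y 2 = 1/4 - x²`,
`mi y 0 = mi y 1 = (1 + x)(1 - 4x²)/2`, `mi y 2 = mi y 3 = (1 - x)(1 - 4x²)/2`,
`cf y 0 = (1 + x)(1 - 4x²)/2`, `cf y 5 = (1 - x)(1 - 4x²)/2`,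
`cf y 1 = cf y 2 = cf y 3 = cf y 4 = C (1 - 4x²)/2`, `gd y = 0`.  All angles are in `(0, π)` as `|u| < π/6`.
`lam (h2 u)`: entry 0 is `√(m2 m3) sin (π/2 + u) = (1 - x)(1 - 4x²) C / 2`, entry 5 is
`(1 + x)(1 - 4x²) C / 2`, entries 1, 4 are `√(m0 m2) sin (π/3 - u)
= ((1 - 4x²) C / 2) (√3 C - x)/2` (as `√(m0 m2) = (1 - 4x²)/2 √(1 - x²)`), entries 2, 3 are
`((1 - 4x²) C / 2) (√3 C + x)/2`; and `√(3 - 3x²) = √3 C`.  So `k = (1 - 4x²) C / 4`.
-/

namespace Pool.Agent.helper37.SY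

open Real Pool.Agent.helper37.NP Pool.Agent.helper37.NL Pool.Agent.Helper93.Tet

private theorem cosv_h2 (u : ℝ) : cosv (h2 u) =
    ![-sin u, (cos u + √3 * sin u) / 2, (cos u - √3 * sin u) / 2, (cos u - √3 * sin u) / 2,
      (cos u + √3 * sin u) / 2, sin u] := by
  have h1 : cos (π / 2 + u) = -sin u := by
    rw [cos_add, cos_pi_div_two, sin_pi_div_two]; ring
  have h2' : cos (π / 3 - u) = (cos u + √3 * sin u) / 2 := by
    rw [cos_sub, cos_pi_div_three, sin_pi_div_three]; ring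
  have h3 : cos (π / 3 + u) = (cos u - √3 * sin u) / 2 := by
    rw [cos_add, cos_pi_div_three, sin_pi_div_three]; ring
  have h4 : cos (π / 2 - u) = sin u := cos_pi_div_two_sub u
  funext e
  fin_cases e
  · exact h1
  · exact h2'
  · exact h3
  · exact h3
  · exact h2'
  · exact h4

private theorem sq3 : √3 ^ 2 = (3 : ℝ) := Real.sq_sqrt (by norm_num)

private theorem sc (u : ℝ) : cos u ^ 2 + sin u ^ 2 = 1 := Real.cos_sq_add_sin_sq u

private theorem mi_h2 (u : ℝ) : mi (cosv (h2 u)) =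
    ![(1 + sin u) * (1 - 4 * sin u ^ 2) / 2, (1 + sin u) * (1 - 4 * sin u ^ 2) / 2,
      (1 - sin u) * (1 - 4 * sin u ^ 2) / 2, (1 - sin u) * (1 - 4 * sin u ^ 2) / 2] := by
  have hs := sq3
  have hC := sc u
  rw [cosv_h2]
  set x := sin u
  set C := cos u
  set s := √3
  funext v
  fin_cases v
  · show 1 - (-x) ^ 2 - ((C + s * x) / 2) ^ 2 - ((C - s * x) / 2) ^ 2 -
      2 * (-x) * ((C + s * x) / 2) * ((C - s * x) / 2) = (1 + x) * (1 - 4 * x ^ 2) / 2
    linear_combination (-1 / 2 + x / 2) * hC + (-x ^ 2 / 2 - x ^ 3 / 2) * hs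
  · show 1 - (-x) ^ 2 - ((C - s * x) / 2) ^ 2 - ((C + s * x) / 2) ^ 2 -
      2 * (-x) * ((C - s * x) / 2) * ((C + s * x) / 2) = (1 + x) * (1 - 4 * x ^ 2) / 2
    linear_combination (-1 / 2 + x / 2) * hC + (-x ^ 2 / 2 - x ^ 3 / 2) * hs
  · show 1 - ((C + s * x) / 2) ^ 2 - ((C - s * x) / 2) ^ 2 - x ^ 2 -
      2 * ((C + s * x) / 2) * ((C - s * x) / 2) * x = (1 - x) * (1 - 4 * x ^ 2) / 2
    linear_combination (-1 / 2 - x / 2) * hC + (-x ^ 2 / 2 + x ^ 3 / 2) * hs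
  · show 1 - ((C - s * x) / 2) ^ 2 - ((C + s * x) / 2) ^ 2 - x ^ 2 -
      2 * ((C - s * x) / 2) * ((C + s * x) / 2) * x = (1 - x) * (1 - 4 * x ^ 2) / 2
    linear_combination (-1 / 2 - x / 2) * hC + (-x ^ 2 / 2 + x ^ 3 / 2) * hs

private theorem cf_h2 (u : ℝ) : cf (cosv (h2 u)) =
    ![(1 + sin u) * (1 - 4 * sin u ^ 2) / 2, cos u * (1 - 4 * sin u ^ 2) / 2,
      cos u * (1 - 4 * sin u ^ 2) / 2, cos u * (1 - 4 * sin u ^ 2) / 2,
      cos u * (1 - 4 * sin u ^ 2) / 2, (1 - sin u) * (1 - 4 * sin u ^ 2) / 2] := by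
  have hs := sq3
  have hC := sc u
  rw [cosv_h2]
  set x := sin u
  set C := cos u
  set s := √3
  funext v
  fin_cases v
  · show x * (1 - (-x) ^ 2) + (C + s * x) / 2 * ((C - s * x) / 2) +
      (C - s * x) / 2 * ((C + s * x) / 2) + (-x) * ((C + s * x) / 2 * ((C + s * x) / 2) +
      (C - s * x) / 2 * ((C - s * x) / 2)) = (1 + x) * (1 - 4 * x ^ 2) / 2
    linear_combination (1 / 2 - x / 2) * hC + (-x ^ 2 / 2 - x ^ 3 / 2) * hs
  · show (C + s * x) / 2 * (1 - ((C + s * x) / 2) ^ 2) + x * ((C - s * x) / 2) +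
      (C - s * x) / 2 * (-x) + (C + s * x) / 2 * (x * (-x) +
      (C - s * x) / 2 * ((C - s * x) / 2)) = C * (1 - 4 * x ^ 2) / 2
    linear_combination (-(s * x) / 2) * hC + (-(C * x ^ 2) / 2) * hs
  · show (C - s * x) / 2 * (1 - ((C - s * x) / 2) ^ 2) + x * ((C + s * x) / 2) +
      (C + s * x) / 2 * (-x) + (C - s * x) / 2 * (x * (-x) +
      (C + s * x) / 2 * ((C + s * x) / 2)) = C * (1 - 4 * x ^ 2) / 2
    linear_combination ((s * x) / 2) * hC + (-(C * x ^ 2) / 2) * hs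
  · show (C - s * x) / 2 * (1 - ((C - s * x) / 2) ^ 2) + x * ((C + s * x) / 2) +
      (C + s * x) / 2 * (-x) + (C - s * x) / 2 * (x * (-x) +
      (C + s * x) / 2 * ((C + s * x) / 2)) = C * (1 - 4 * x ^ 2) / 2
    linear_combination ((s * x) / 2) * hC + (-(C * x ^ 2) / 2) * hs
  · show (C + s * x) / 2 * (1 - ((C + s * x) / 2) ^ 2) + x * ((C - s * x) / 2) +
      (C - s * x) / 2 * (-x) + (C + s * x) / 2 * (x * (-x) +
      (C - s * x) / 2 * ((C - s * x) / 2)) = C * (1 - 4 * x ^ 2) / 2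
    linear_combination (-(s * x) / 2) * hC + (-(C * x ^ 2) / 2) * hs
  · show (-x) * (1 - x ^ 2) + (C + s * x) / 2 * ((C - s * x) / 2) +
      (C - s * x) / 2 * ((C + s * x) / 2) + x * ((C + s * x) / 2 * ((C + s * x) / 2) +
      (C - s * x) / 2 * ((C - s * x) / 2)) = (1 - x) * (1 - 4 * x ^ 2) / 2
    linear_combination (1 / 2 + x / 2) * hC + (-x ^ 2 / 2 + x ^ 3 / 2) * hs

private theorem gd_h2 (u : ℝ) : gd (cosv (h2 u)) = 0 := by
  have hs := sq3
  have hC := sc u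
  rw [cosv_h2]
  set x := sin u
  set C := cos u
  set s := √3
  show 1 - ((-x) ^ 2 + ((C + s * x) / 2) ^ 2 + ((C - s * x) / 2) ^ 2 + ((C - s * x) / 2) ^ 2 +
      ((C + s * x) / 2) ^ 2 + x ^ 2) - 2 * ((-x) * ((C + s * x) / 2) * ((C - s * x) / 2) +
      (-x) * ((C - s * x) / 2) * ((C + s * x) / 2) +
      ((C + s * x) / 2) * ((C - s * x) / 2) * x + ((C - s * x) / 2) * ((C + s * x) / 2) * x) +
      ((-x) * x) ^ 2 + ((C + s * x) / 2 * ((C + s * x) / 2)) ^ 2 +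
      ((C - s * x) / 2 * ((C - s * x) / 2)) ^ 2 -
      2 * ((-x) * x * ((C + s * x) / 2 * ((C + s * x) / 2)) +
      (-x) * x * ((C - s * x) / 2 * ((C - s * x) / 2)) +
      (C + s * x) / 2 * ((C + s * x) / 2) * ((C - s * x) / 2 * ((C - s * x) / 2))) = 0
  linear_combination (-1 + 4 * x ^ 2) * hC + (-x ^ 2 + x ^ 2 * C ^ 2 + x ^ 4) * hs

private theorem sin_half {u : ℝ} (hu : |u| < π / 6) : |sin u| < 1 / 2 := by
  obtain ⟨h1, h2'⟩ := abs_lt.1 hu
  have hpi := Real.pi_pos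
  rw [abs_lt]
  constructor
  · have := Real.sin_lt_sin_of_lt_of_le_pi_div_two (x := -(π / 6)) (y := u) (by linarith)
      (by linarith) h1
    rw [Real.sin_neg, Real.sin_pi_div_six] at this
    exact this
  · have := Real.sin_lt_sin_of_lt_of_le_pi_div_two (x := u) (y := π / 6) (by linarith)
      (by linarith) h2'
    rw [Real.sin_pi_div_six] at this
    exact this

theorem h2_mem {u : ℝ} (hu : |u| < π / 6) : h2 u ∈ PP ∧ gd (cosv (h2 u)) = 0 ∧
    ∃ k : ℝ, 0 < k ∧ lam (h2 u) = k • H2v (sin u) := by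
  obtain ⟨hx1, hx2⟩ := abs_lt.1 (sin_half hu)
  obtain ⟨hu1, hu2⟩ := abs_lt.1 hu
  have hpi := Real.pi_pos
  have hC : 0 < cos u := Real.cos_pos_of_mem_Ioo ⟨by linarith, by linarith⟩
  have hK : 0 < 1 - 4 * sin u ^ 2 := by nlinarith
  have hp : 0 < 1 + sin u := by linarith
  have hm : 0 < 1 - sin u := by linarith
  have hA : 0 < (1 + sin u) * (1 - 4 * sin u ^ 2) / 2 := by positivity
  have hB : 0 < (1 - sin u) * (1 - 4 * sin u ^ 2) / 2 := by positivity
  have hD : 0 < cos u * (1 - 4 * sin u ^ 2) / 2 := by positivity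
  refine ⟨⟨?_, ?_, ?_⟩, gd_h2 u, (1 - 4 * sin u ^ 2) * cos u / 4, by positivity, ?_⟩
  · intro e
    fin_cases e
    · show 0 < π / 2 + u ∧ π / 2 + u < π
      constructor <;> linarith
    · show 0 < π / 3 - u ∧ π / 3 - u < π
      constructor <;> linarith
    · show 0 < π / 3 + u ∧ π / 3 + u < π
      constructor <;> linarith
    · show 0 < π / 3 + u ∧ π / 3 + u < π
      constructor <;> linarith
    · show 0 < π / 3 - u ∧ π / 3 - u < π
      constructor <;> linarith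
    · show 0 < π / 2 - u ∧ π / 2 - u < π
      constructor <;> linarith
  · intro v
    rw [mi_h2]
    fin_cases v
    · exact hA
    · exact hA
    · exact hB
    · exact hB
  · intro e
    rw [cf_h2]
    fin_cases e
    · exact hA
    · exact hD
    · exact hD
    · exact hD
    · exact hD
    · exact hB
  · have hs1 : sin (π / 2 + u) = cos u := by
      rw [sin_add, cos_pi_div_two, sin_pi_div_two]; ring
    have hs2 : sin (π / 2 - u) = cos u := sin_pi_div_two_sub u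
    have hs3 : sin (π / 3 - u) = (√3 * cos u - sin u) / 2 := by
      rw [sin_sub, cos_pi_div_three, sin_pi_div_three]; ring
    have hs4 : sin (π / 3 + u) = (√3 * cos u + sin u) / 2 := by
      rw [sin_add, cos_pi_div_three, sin_pi_div_three]; ring
    have hr : √(3 - 3 * sin u ^ 2) = √3 * cos u := by
      have h1 : 3 - 3 * sin u ^ 2 = (√3 * cos u) ^ 2 := by
        rw [mul_pow, sq3]
        linarith [sc u]
      rw [h1, Real.sqrt_sq (by positivity)]
    have hAA : √((1 + sin u) * (1 - 4 * sin u ^ 2) / 2 * ((1 + sin u) * (1 - 4 * sin u ^ 2) / 2)) =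
        (1 + sin u) * (1 - 4 * sin u ^ 2) / 2 := Real.sqrt_mul_self hA.le
    have hBB : √((1 - sin u) * (1 - 4 * sin u ^ 2) / 2 * ((1 - sin u) * (1 - 4 * sin u ^ 2) / 2)) =
        (1 - sin u) * (1 - 4 * sin u ^ 2) / 2 := Real.sqrt_mul_self hB.le
    have hAB : √((1 + sin u) * (1 - 4 * sin u ^ 2) / 2 * ((1 - sin u) * (1 - 4 * sin u ^ 2) / 2)) =
        (1 - 4 * sin u ^ 2) * cos u / 2 := by
      have h1 : (1 + sin u) * (1 - 4 * sin u ^ 2) / 2 * ((1 - sin u) * (1 - 4 * sin u ^ 2) / 2) =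
          ((1 - 4 * sin u ^ 2) * cos u / 2) ^ 2 := by
        have := sc u
        linear_combination (-(1 - 4 * sin u ^ 2) ^ 2 / 4) * this
      rw [h1, Real.sqrt_sq (by positivity)]
    funext e
    rw [Pi.smul_apply, smul_eq_mul]
    unfold lam
    rw [mi_h2]
    unfold H2v
    rw [hr]
    fin_cases e
    · show √((1 - sin u) * (1 - 4 * sin u ^ 2) / 2 * ((1 - sin u) * (1 - 4 * sin u ^ 2) / 2)) *
        sin (π / 2 + u) = (1 - 4 * sin u ^ 2) * cos u / 4 * (2 - 2 * sin u)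
      rw [hBB, hs1]; ring
    · show √((1 + sin u) * (1 - 4 * sin u ^ 2) / 2 * ((1 - sin u) * (1 - 4 * sin u ^ 2) / 2)) *
        sin (π / 3 - u) = (1 - 4 * sin u ^ 2) * cos u / 4 * (√3 * cos u - sin u)
      rw [hAB, hs3]; ring
    · show √((1 + sin u) * (1 - 4 * sin u ^ 2) / 2 * ((1 - sin u) * (1 - 4 * sin u ^ 2) / 2)) *
        sin (π / 3 + u) = (1 - 4 * sin u ^ 2) * cos u / 4 * (√3 * cos u + sin u)
      rw [hAB, hs4]; ring
    · show √((1 + sin u) * (1 - 4 * sin u ^ 2) / 2 * ((1 - sin u) * (1 - 4 * sin u ^ 2) / 2)) *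
        sin (π / 3 + u) = (1 - 4 * sin u ^ 2) * cos u / 4 * (√3 * cos u + sin u)
      rw [hAB, hs4]; ring
    · show √((1 + sin u) * (1 - 4 * sin u ^ 2) / 2 * ((1 - sin u) * (1 - 4 * sin u ^ 2) / 2)) *
        sin (π / 3 - u) = (1 - 4 * sin u ^ 2) * cos u / 4 * (√3 * cos u - sin u)
      rw [hAB, hs3]; ring
    · show √((1 + sin u) * (1 - 4 * sin u ^ 2) / 2 * ((1 + sin u) * (1 - 4 * sin u ^ 2) / 2)) *
        sin (π / 2 - u) = (1 - 4 * sin u ^ 2) * cos u / 4 * (2 + 2 * sin u)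
      rw [hAA, hs2]; ring

/-- conversely, if `h2 u` is in `PP` then `|u| < π/6`: the angles `π/2 ± u`, `π/3 ± u` are positive, so
`|u| < π/3`, and `mi y 0 = (1 + x)(1 - 4x²)/2 > 0` gives `|sin u| < 1/2` -/
theorem h2_range {u : ℝ} (h : h2 u ∈ PP) : |u| < π / 6 := by
  obtain ⟨ha, hm, -⟩ := h
  have h1 : 0 < π / 3 - u := (ha 1).1
  have h2' : 0 < π / 3 + u := (ha 2).1
  have hpi := Real.pi_pos
  have hC : 0 < cos u := Real.cos_pos_of_mem_Ioo ⟨by linarith, by linarith⟩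
  have h3 := hm 0
  rw [mi_h2] at h3
  have h4 : 0 < (1 + sin u) * (1 - 4 * sin u ^ 2) / 2 := h3
  have h5 : sin u ^ 2 < 1 := by nlinarith [sc u]
  have h6 : 0 < 1 + sin u := by nlinarith
  have h7 : 0 < 1 - 4 * sin u ^ 2 := by
    by_contra hcon
    rw [not_lt] at hcon
    have := mul_nonpos_of_nonneg_of_nonpos h6.le hcon
    linarith
  rw [abs_lt]
  constructor
  · by_contra hcon
    rw [not_lt] at hcon
    have h8 := Real.sin_le_sin_of_le_of_le_pi_div_two (x := u) (y := -(π / 6)) (by linarith)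
      (by linarith) hcon
    rw [Real.sin_neg, Real.sin_pi_div_six] at h8
    nlinarith
  · by_contra hcon
    rw [not_lt] at hcon
    have h8 := Real.sin_le_sin_of_le_of_le_pi_div_two (x := π / 6) (y := u) (by linarith)
      (by linarith) hcon
    rw [Real.sin_pi_div_six] at h8
    nlinarith

end Pool.Agent.helper37.SY
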