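import Pool.Agent.helper37.SY.Hla
import Pool.Agent.helper37.SY.Hlb
import Pool.Agent.helper37.NL.Dnv
import Pool.Agent.helper37.NL.KCo
import Pool.Agent.helper37.NP.BRe

/-!
SY-17 (Dat).  The members of the families are tetrahedra with Dehn invariant zero.

PROOF.  `1 < y < 2`: `c = 2 arccos (1/y) ∈ (0, 2π/3)`, `1/cos (c/2) = y`; `h1_mem`, `real_of_PP`:
`lam (h1 c) = k • H1v y ∈ T` and `ang (k • H1v y) = h1 c`, so `H1v y ∈ T` (`smul_mem_T` with `1/k`) and
`ang (H1v y) = h1 c` (`ang_smul`).  Similarly `|x| < 1/2`: `u = arcsin x`, `|u| < π/6`.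
`conc_dehn`: `P = ![a, b, c, d]`, `lenv_perm`: the permuted points have edge vector `k • H1v y` and by
`ang_lenv` (the permuted points are affinely independent) their angle vector is `h1 c`.  Data:
`k • H1v y = (k √(3y²-3)) • e0 + (k y) • (e1 + e4) + k • (e2 + e3 + e5)` and
`h1 c 0 = π/3`, `h1 c 1 + h1 c 4 = π`, `h1 c 2 + h1 c 3 + h1 c 5 = π`: `dehn_of_data` with
`s = ![![1,0,0,0,0,0], ![0,1,0,0,1,0], ![0,0,1,1,0,1]]`, `r = ![1/3, 1, 1]`; then `dehn_perm`.
`H2v x`: `k • H2v x = (2k) • (e0 + e5) + (k x) • (-2 e0 - e1 + e2 + e3 - e4 + 2 e5)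
+ (k √(3 - 3x²)) • (e1 + e2 + e3 + e4)`, the corresponding sums of angles are `π`, `0`, `4π/3`.
`F1v m`: `dehn_of_isF`.
-/

namespace Pool.Agent.helper37.SY

open Real Pool.Agent.helper37.NP Pool.Agent.helper37.NL Pool.Agent.Helper93.Tet

private theorem mem_of_lam {t v : V6} (ht : t ∈ PP) (hg : gd (cosv t) = 0) {k : ℝ} (hk : 0 < k)
    (hl : lam t = k • v) : v ∈ T ∧ ang v = t := by
  obtain ⟨h1, h2⟩ := real_of_PP ht hg
  rw [hl] at h1 h2
  rw [ang_smul hk] at h2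
  have h3 := smul_mem_T h1 (inv_pos.2 hk)
  rw [smul_smul, inv_mul_cancel₀ hk.ne', one_smul] at h3
  exact ⟨h3, h2⟩

theorem H1v_mem {y : ℝ} (h : 1 < y) (h' : y < 2) : H1v y ∈ T ∧ ∃ c, ang (H1v y) = h1 c := by
  have hy0 : 0 < y := by linarith
  have hlt : 1 / y < 1 := by rw [div_lt_one hy0]; exact h
  have hgt : 1 / 2 < 1 / y := one_div_lt_one_div_of_lt hy0 h'
  have hpos : 0 < arccos (1 / y) := arccos_pos.2 hlt
  have hup : arccos (1 / y) < π / 3 := by
    rw [← arccos_cos (x := π / 3) (by positivity) (by linarith [pi_pos]), cos_pi_div_three]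
    exact arccos_lt_arccos (by norm_num) hgt (by linarith)
  obtain ⟨hP, hg, k, hk, hl⟩ := h1_mem (c := 2 * arccos (1 / y)) (by linarith) (by linarith)
  have hc : 1 / cos (2 * arccos (1 / y) / 2) = y := by
    rw [mul_div_cancel_left₀ _ (two_ne_zero), cos_arccos (by linarith) (by linarith), one_div_one_div]
  rw [hc] at hl
  obtain ⟨a, b⟩ := mem_of_lam hP hg hk hl
  exact ⟨a, _, b⟩

theorem H2v_mem {x : ℝ} (h : |x| < 1 / 2) : H2v x ∈ T ∧ ∃ u, ang (H2v x) = h2 u := by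
  rw [abs_lt] at h
  obtain ⟨hl1, hl2⟩ := h
  have hs6 : arcsin (1 / 2) = π / 6 := by
    rw [← sin_pi_div_six, arcsin_sin (by linarith [pi_pos]) (by linarith [pi_pos])]
  have hu1 : arcsin x < π / 6 := by
    rw [← hs6]
    exact arcsin_lt_arcsin (by linarith) hl2 (by norm_num)
  have hu2 : -(π / 6) < arcsin x := by
    rw [← hs6, ← arcsin_neg]
    exact arcsin_lt_arcsin (by norm_num) (by linarith) (by linarith)
  obtain ⟨hP, hg, k, hk, hl⟩ := h2_mem (u := arcsin x) (abs_lt.2 ⟨hu2, hu1⟩)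
  rw [sin_arcsin (by linarith) (by linarith)] at hl
  obtain ⟨a, b⟩ := mem_of_lam hP hg hk hl
  exact ⟨a, _, b⟩

private theorem aff_perm (P : Fin 4 → E) (h : AffineIndependent ℝ P) (p : Equiv.Perm (Fin 4)) :
    AffineIndependent ℝ ![P (p 0), P (p 1), P (p 2), P (p 3)] := by
  have h1 : AffineIndependent ℝ (P ∘ p) := h.comp_embedding p.toEmbedding
  have h2 : P ∘ p = ![P (p 0), P (p 1), P (p 2), P (p 3)] := by
    funext i
    fin_cases i <;> rfl
  rw [← h2]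
  exact h1

private theorem span_mem {k : ℕ} (w : Fin k → V6) (y : Fin k → ℝ) {v : V6}
    (h : v = ∑ i, y i • w i) : v ∈ Submodule.span ℝ (Set.range w) := by
  rw [h]
  exact Submodule.sum_mem _ fun i _ =>
    Submodule.smul_mem _ _ (Submodule.subset_span (Set.mem_range_self i))

private theorem dehn_H1 {a b c d : E} (h : AffineIndependent ℝ ![a, b, c, d]) {k y : ℝ} (hk : 0 < k)
    (hy : 1 < y) (hy' : y < 2) (he : lenv a b c d = k • H1v y) : dehn a b c d = 0 := by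
  obtain ⟨-, t, ht⟩ := H1v_mem hy hy'
  have hang : angv a b c d = h1 t := by
    rw [← ang_lenv h, he, ang_smul hk, ht]
  refine dehn_of_data (k := 3) ![![1, 0, 0, 0, 0, 0], ![0, 1, 0, 0, 1, 0], ![0, 0, 1, 1, 0, 1]]
    ![1 / 3, 1, 1] ?_ ?_
  · refine span_mem _ ![k * √(3 * y ^ 2 - 3), k * y, k] ?_
    rw [he]
    funext e
    fin_cases e <;> simp [Fin.sum_univ_three, iv, H1v]
  · rw [hang]
    intro i
    fin_cases i <;> simp [dotp, iv, h1] <;> ring

private theorem dehn_H2 {a b c d : E} (h : AffineIndependent ℝ ![a, b, c, d]) {k x : ℝ} (hk : 0 < k)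
    (hx : |x| < 1 / 2) (he : lenv a b c d = k • H2v x) : dehn a b c d = 0 := by
  obtain ⟨-, t, ht⟩ := H2v_mem hx
  have hang : angv a b c d = h2 t := by
    rw [← ang_lenv h, he, ang_smul hk, ht]
  refine dehn_of_data (k := 3) ![![1, 0, 0, 0, 0, 1], ![-2, -1, 1, 1, -1, 2], ![0, 1, 1, 1, 1, 0]]
    ![1, 0, 4 / 3] ?_ ?_
  · refine span_mem _ ![k * 2, k * x, k * √(3 - 3 * x ^ 2)] ?_
    rw [he]
    funext e
    fin_cases e <;> simp [Fin.sum_univ_three, iv, H2v] <;> ring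
  · rw [hang]
    intro i
    fin_cases i <;> simp [dotp, iv, h2] <;> ring

theorem conc_dehn {a b c d : E} (h : AffineIndependent ℝ ![a, b, c, d])
    (hc : Conc (lenv a b c d)) : dehn a b c d = 0 := by
  obtain ⟨q, k, hk, hc⟩ := hc
  have hlp := lenv_perm ![a, b, c, d] q
  have hl0 : lenv (![a, b, c, d] 0) (![a, b, c, d] 1) (![a, b, c, d] 2) (![a, b, c, d] 3)
      = lenv a b c d := rfl
  rw [hl0] at hlp
  have hai := aff_perm _ h q
  rcases hc with ⟨m, hm, hc⟩ | ⟨y, hy, hy', hc⟩ | ⟨x, hx, hc⟩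
  · exact dehn_of_isF h ⟨q, k, m, hk, hm, Or.inl hc⟩
  · rw [hc] at hlp
    exact dehn_perm ![a, b, c, d] h q (dehn_H1 hai hk hy hy' hlp)
  · rw [hc] at hlp
    exact dehn_perm ![a, b, c, d] h q (dehn_H2 hai hk hx hlp)

end Pool.Agent.helper37.SY
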