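import Pool.Agent.helper37.SY.Defs
import Pool.Agent.helper37.NP.Perm
import Pool.Agent.helper37.NL.KCo

/-!
author: helper16
SY-14 (Rla).  Relabelling and dihedral angles, and the reduction of a symmetry to `mir` or `rot`.

PROOF of `ang_relab`.  Induction over the generators `(0 1), (1 2), (2 3)` of the permutations as in
`dehn_perm'` (file `NL/KCo.lean`, `Submonoid.closure_induction`, `Equiv.Perm.mclosure_swap_castSucc_succ`):
for the generators `relab (swap 0 1) = sab`, `relab (swap 1 2) = sbc`, `relab (swap 2 3) = scd` and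
`ang_sab`, `ang_sbc`, `ang_scd` (`NP/Perm.lean`); products by `relab_relab`.

PROOF of `sym_reduce`.  By `decide`, every `p ≠ 1` is conjugate to one of four permutations `c`
(a transposition, a double transposition, a 3-cycle, a 4-cycle): `p (q i) = q (c i)`.  With
`l' = relab q l` one gets `dm l' (c i) (c j) = dm l' i j`; read off the equations.
-/

namespace Pool.Agent.helper37.SY

open Real Pool.Agent.helper37.NP Pool.Agent.helper37.NL Pool.Agent.Helper93.Tet

private theorem Rla_vec6 {x y : V6} (h0 : x 0 = y 0) (h1 : x 1 = y 1) (h2 : x 2 = y 2)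
    (h3 : x 3 = y 3) (h4 : x 4 = y 4) (h5 : x 5 = y 5) : x = y := by
  funext v
  fin_cases v
  · exact h0
  · exact h1
  · exact h2
  · exact h3
  · exact h4
  · exact h5

/-- `relab p l` is determined by the values of `p` -/
private theorem Rla_relab {p : Equiv.Perm (Fin 4)} {a b c d : Fin 4} (h0 : p 0 = a) (h1 : p 1 = b)
    (h2 : p 2 = c) (h3 : p 3 = d) (l : V6) :
    relab p l = ![dm l a b, dm l a c, dm l a d, dm l b c, dm l b d, dm l c d] := by
  subst h0 h1 h2 h3
  rfl

theorem ang_relab (p : Equiv.Perm (Fin 4)) (l : V6) : ang (relab p l) = relab p (ang l) := by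
  have hp : p ∈ Submonoid.closure (Set.range fun i : Fin 3 => Equiv.swap i.castSucc i.succ) := by
    rw [Equiv.Perm.mclosure_swap_castSucc_succ]
    trivial
  revert l
  induction hp using Submonoid.closure_induction with
  | mem x hx =>
    obtain ⟨i, rfl⟩ := hx
    intro l
    fin_cases i
    · have h : ∀ v : V6, relab (Equiv.swap (Fin.castSucc (0 : Fin 3)) (Fin.succ (0 : Fin 3))) v =
          sab v := by
        intro v
        rw [Rla_relab (a := 1) (b := 0) (c := 2) (d := 3) (by decide) (by decide) (by decide)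
          (by decide)]
        rfl
      change ang (relab (Equiv.swap (Fin.castSucc (0 : Fin 3)) (Fin.succ (0 : Fin 3))) l) =
        relab (Equiv.swap (Fin.castSucc (0 : Fin 3)) (Fin.succ (0 : Fin 3))) (ang l)
      rw [h, h, ang_sab]
    · have h : ∀ v : V6, relab (Equiv.swap (Fin.castSucc (1 : Fin 3)) (Fin.succ (1 : Fin 3))) v =
          sbc v := by
        intro v
        rw [Rla_relab (a := 0) (b := 2) (c := 1) (d := 3) (by decide) (by decide) (by decide)
          (by decide)]
        rfl
      change ang (relab (Equiv.swap (Fin.castSucc (1 : Fin 3)) (Fin.succ (1 : Fin 3))) l) =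
        relab (Equiv.swap (Fin.castSucc (1 : Fin 3)) (Fin.succ (1 : Fin 3))) (ang l)
      rw [h, h, ang_sbc]
    · have h : ∀ v : V6, relab (Equiv.swap (Fin.castSucc (2 : Fin 3)) (Fin.succ (2 : Fin 3))) v =
          scd v := by
        intro v
        rw [Rla_relab (a := 0) (b := 1) (c := 3) (d := 2) (by decide) (by decide) (by decide)
          (by decide)]
        rfl
      change ang (relab (Equiv.swap (Fin.castSucc (2 : Fin 3)) (Fin.succ (2 : Fin 3))) l) =
        relab (Equiv.swap (Fin.castSucc (2 : Fin 3)) (Fin.succ (2 : Fin 3))) (ang l)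
      rw [h, h, ang_scd]
  | one => intro l; rw [relab_one, relab_one]
  | mul x y _ _ hx hy =>
    intro l
    rw [← relab_relab, ← relab_relab, hy, hx]

private theorem Rla_conj : ∀ p : Equiv.Perm (Fin 4), p ≠ 1 → ∃ q : Equiv.Perm (Fin 4),
    (∀ i, p (q i) = q ((![0, 2, 1, 3] : Fin 4 → Fin 4) i)) ∨
    (∀ i, p (q i) = q ((![1, 0, 3, 2] : Fin 4 → Fin 4) i)) ∨
    (∀ i, p (q i) = q ((![1, 2, 0, 3] : Fin 4 → Fin 4) i)) ∨
    (∀ i, p (q i) = q ((![2, 3, 1, 0] : Fin 4 → Fin 4) i)) := by
  decide +kernel

private theorem Rla_dm {p q : Equiv.Perm (Fin 4)} {l : V6} (h : relab p l = l)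
    {c : Fin 4 → Fin 4} (hc : ∀ i, p (q i) = q (c i)) (i j : Fin 4) :
    dm (relab q l) (c i) (c j) = dm (relab q l) i j := by
  rw [dm_relab, dm_relab, ← hc, ← hc, ← dm_relab, h]

theorem sym_reduce {p : Equiv.Perm (Fin 4)} (hp : p ≠ 1) {l : V6} (h : relab p l = l) :
    ∃ q : Equiv.Perm (Fin 4), relab q l ∈ Sy mir ∨ relab q l ∈ Sy rot := by
  obtain ⟨q, hq⟩ := Rla_conj p hp
  refine ⟨q, ?_⟩
  rcases hq with hq | hq | hq | hq
  · left
    have key := Rla_dm h hq
    generalize relab q l = v at key ⊢
    have e1 : v 1 = v 0 := key 0 1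
    have e2 : v 5 = v 4 := key 1 3
    intro i
    fin_cases i
    · exact e1
    · exact e1.symm
    · rfl
    · rfl
    · exact e2
    · exact e2.symm
  · right
    have key := Rla_dm h hq
    generalize relab q l = v at key ⊢
    have e1 : v 4 = v 1 := key 0 2
    have e2 : v 3 = v 2 := key 0 3
    intro i
    fin_cases i
    · rfl
    · exact e1
    · exact e2
    · exact e2.symm
    · exact e1.symm
    · rfl
  · left
    have key := Rla_dm h hq
    generalize relab q l = v at key ⊢
    have e1 : v 0 = v 1 := key 0 2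
    have e2 : v 5 = v 4 := key 1 3
    intro i
    fin_cases i
    · exact e1.symm
    · exact e1
    · rfl
    · rfl
    · exact e2
    · exact e2.symm
  · right
    have key := Rla_dm h hq
    generalize relab q l = v at key ⊢
    have e1 : v 3 = v 1 := key 0 2
    have e2 : v 1 = v 2 := key 0 3
    have e3 : v 4 = v 3 := key 1 2
    intro i
    fin_cases i
    · rfl
    · exact e3.trans e1
    · exact e1.trans e2
    · exact (e1.trans e2).symm
    · exact (e3.trans e1).symm
    · rfl

end Pool.Agent.helper37.SY
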