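import Pool.Agent.helper37.SY.Hla
import Pool.Agent.helper37.SY.Hlb
import Pool.Agent.helper37.SY.Rla

/-!
SY-16 (Edg).  From the angles to the edges in the class with a twofold rotation.

PROOF.  `of_h1`: `ang l = h1 c`; by `ang_mem_PP` and `h1_range` `0 < c < 2π/3`; `lam_ang`:
`lam (ang l) = kfac l • l`, and `lam (h1 c) = k • H1v (1/cos (c/2))`, so `l = (k / kfac l) • H1v y` with
`y = 1/cos (c/2) ∈ (1, 2)` (`kfac_pos`).  Take `q = 1` (`relab_one`) after the relabelling in `hq`.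
`of_h2`: the same with `x = sin u`, `|u| < π/6`, `|sin u| < 1/2`.
`c2_edges`: the five patterns.  Write `t = ang l`, `t 4 = t 1`, `t 3 = t 2`.
* `t 0 + t 5 = π`, `t 1 + t 2 = 2π/3`, `t 2 - t 1 = t 0 - t 5`: `t = h2 u`, `u = (t 0 - t 5)/2`: `q = 1`.
* ... `t 1 - t 2 = t 0 - t 5`: with `q = swap 2 3` (edges `1, 2` and `3, 4` exchanged) `relab q t = h2 u`.
* `t 1 = π/2`, `t 0 = π/3`, `t 2 = π/2 - t 5/2`: `t = h1 (t 5)`.
* `t 1 = π/2`, `t 5 = π/3`, `t 2 = π/2 - t 0/2`: the relabelling `a b c d → c d a b`, that is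
  `q = swap 0 2 * swap 1 3`, exchanges the edges `0, 5` and `2, 3` and fixes `1, 4`: `relab q t = h1 (t 0)`.
* `t 2 = π/2`, ...: first `swap 2 3`, then as before (products of permutations).
Use `ang_relab`: `ang (relab q l) = relab q t`, `relab_T`.
-/

namespace Pool.Agent.helper37.SY

open Real Pool.Agent.helper37.NP Pool.Agent.helper37.NL Pool.Agent.Helper93.Tet

private theorem edg_scale {l v : V6} (hl : l ∈ T) {k : ℝ} (hk : 0 < k)
    (h : lam (ang l) = k • v) : 0 < k / kfac l ∧ l = (k / kfac l) • v := by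
  have h1 := kfac_pos hl
  refine ⟨div_pos hk h1, ?_⟩
  rw [lam_ang hl] at h
  calc l = (kfac l)⁻¹ • (kfac l • l) := by rw [smul_smul, inv_mul_cancel₀ h1.ne', one_smul]
    _ = (k / kfac l) • v := by rw [h, smul_smul, div_eq_inv_mul]

theorem of_h1 {l : V6} (hl : l ∈ T) (q : Equiv.Perm (Fin 4)) {c : ℝ}
    (hq : ang (relab q l) = h1 c) : Conc l := by
  have hT : relab q l ∈ T := relab_T hl q
  have hP : h1 c ∈ PP := hq ▸ ang_mem_PP hT
  obtain ⟨hc, hc'⟩ := h1_range hP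
  obtain ⟨-, -, k, hk, hlam⟩ := h1_mem hc hc'
  rw [← hq] at hlam
  obtain ⟨hk', hl'⟩ := edg_scale hT hk hlam
  have hcos1 : Real.cos (c / 2) < 1 := by
    have := Real.cos_lt_cos_of_nonneg_of_le_pi (x := 0) (y := c / 2) le_rfl (by linarith [Real.pi_pos])
      (by linarith)
    rwa [Real.cos_zero] at this
  have hcos2 : 1 / 2 < Real.cos (c / 2) := by
    have := Real.cos_lt_cos_of_nonneg_of_le_pi (x := c / 2) (y := π / 3) (by linarith)
      (by linarith [Real.pi_pos]) (by linarith)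
    rwa [Real.cos_pi_div_three] at this
  have hcos0 : 0 < Real.cos (c / 2) := by linarith
  refine ⟨q, k / kfac (relab q l), hk', Or.inr (Or.inl ⟨1 / Real.cos (c / 2), ?_, ?_, hl'⟩)⟩
  · rw [lt_div_iff₀ hcos0]
    linarith
  · rw [div_lt_iff₀ hcos0]
    linarith

theorem of_h2 {l : V6} (hl : l ∈ T) (q : Equiv.Perm (Fin 4)) {u : ℝ}
    (hq : ang (relab q l) = h2 u) : Conc l := by
  have hT : relab q l ∈ T := relab_T hl q
  have hP : h2 u ∈ PP := hq ▸ ang_mem_PP hT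
  have hu := h2_range hP
  obtain ⟨-, -, k, hk, hlam⟩ := h2_mem hu
  rw [← hq] at hlam
  obtain ⟨hk', hl'⟩ := edg_scale hT hk hlam
  obtain ⟨hu1, hu2⟩ := abs_lt.1 hu
  refine ⟨q, k / kfac (relab q l), hk', Or.inr (Or.inr ⟨Real.sin u, abs_lt.2 ⟨?_, ?_⟩, hl'⟩)⟩
  · have := Real.sin_lt_sin_of_lt_of_le_pi_div_two (x := -(π / 6)) (y := u)
      (by linarith [Real.pi_pos]) (by linarith [Real.pi_pos]) hu1
    rwa [Real.sin_neg, Real.sin_pi_div_six] at this
  · have := Real.sin_lt_sin_of_lt_of_le_pi_div_two (x := u) (y := π / 6)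
      (by linarith [Real.pi_pos]) (by linarith [Real.pi_pos]) hu2
    rwa [Real.sin_pi_div_six] at this

private theorem edg_rel1 (t : V6) : relab (Equiv.swap 2 3) t =
    ![t 0, t 2, t 1, t 4, t 3, t 5] := by
  funext e
  fin_cases e <;> rfl

private theorem edg_rel2 (t : V6) : relab (Equiv.swap 0 2 * Equiv.swap 1 3) t =
    ![t 5, t 1, t 3, t 2, t 4, t 0] := by
  funext e
  fin_cases e <;> rfl

private theorem edg_rel3 (t : V6) :
    relab (Equiv.swap 2 3 * (Equiv.swap 0 2 * Equiv.swap 1 3)) t =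
    ![t 5, t 2, t 4, t 1, t 3, t 0] := by
  rw [← relab_relab, edg_rel1, edg_rel2]
  funext e
  fin_cases e <;> rfl

private theorem edg_ext {v w : V6} (h0 : v 0 = w 0) (h1 : v 1 = w 1) (h2 : v 2 = w 2)
    (h3 : v 3 = w 3) (h4 : v 4 = w 4) (h5 : v 5 = w 5) : v = w := by
  funext e
  fin_cases e
  exacts [h0, h1, h2, h3, h4, h5]

theorem c2_edges {l : V6} (hl : l ∈ T) (hs : l ∈ Sy rot)
    (h : (ang l 0 + ang l 5 = π ∧ ang l 1 + ang l 2 = 2 * π / 3 ∧
        (ang l 1 - ang l 2 = ang l 0 - ang l 5 ∨ ang l 2 - ang l 1 = ang l 0 - ang l 5)) ∨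
      (ang l 1 = π / 2 ∧ ((ang l 0 = π / 3 ∧ ang l 2 = π / 2 - ang l 5 / 2) ∨
        (ang l 5 = π / 3 ∧ ang l 2 = π / 2 - ang l 0 / 2))) ∨
      (ang l 2 = π / 2 ∧ ((ang l 0 = π / 3 ∧ ang l 1 = π / 2 - ang l 5 / 2) ∨
        (ang l 5 = π / 3 ∧ ang l 1 = π / 2 - ang l 0 / 2)))) : Conc l := by
  have hl41 : l 4 = l 1 := hs 1
  have hl32 : l 3 = l 2 := hs 2
  have ha4 : ang l 4 = ang l 1 := by
    change Real.arccos (co (l 4) (l 0) (l 3) (l 2) (l 5) (l 1)) =
      Real.arccos (co (l 1) (l 0) (l 2) (l 3) (l 5) (l 4))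
    rw [hl41, hl32]
  have ha3 : ang l 3 = ang l 2 := by
    change Real.arccos (co (l 3) (l 0) (l 4) (l 1) (l 5) (l 2)) =
      Real.arccos (co (l 2) (l 0) (l 1) (l 4) (l 5) (l 3))
    rw [hl41, hl32]
  rcases h with ⟨h05, h12, h | h⟩ | ⟨h1, ⟨h0, h2'⟩ | ⟨h5, h2'⟩⟩ | ⟨h2', ⟨h0, h1⟩ | ⟨h5, h1⟩⟩
  · apply of_h2 hl (Equiv.swap 2 3) (u := (ang l 0 - ang l 5) / 2)
    rw [ang_relab, edg_rel1, ha3, ha4]
    refine edg_ext ?_ ?_ ?_ ?_ ?_ ?_
    · change ang l 0 = π / 2 + (ang l 0 - ang l 5) / 2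
      linarith
    · change ang l 2 = π / 3 - (ang l 0 - ang l 5) / 2
      linarith
    · change ang l 1 = π / 3 + (ang l 0 - ang l 5) / 2
      linarith
    · change ang l 1 = π / 3 + (ang l 0 - ang l 5) / 2
      linarith
    · change ang l 2 = π / 3 - (ang l 0 - ang l 5) / 2
      linarith
    · change ang l 5 = π / 2 - (ang l 0 - ang l 5) / 2
      linarith
  · apply of_h2 hl 1 (u := (ang l 0 - ang l 5) / 2)
    rw [relab_one]
    refine edg_ext ?_ ?_ ?_ ?_ ?_ ?_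
    · change ang l 0 = π / 2 + (ang l 0 - ang l 5) / 2
      linarith
    · change ang l 1 = π / 3 - (ang l 0 - ang l 5) / 2
      linarith
    · change ang l 2 = π / 3 + (ang l 0 - ang l 5) / 2
      linarith
    · change ang l 3 = π / 3 + (ang l 0 - ang l 5) / 2
      linarith
    · change ang l 4 = π / 3 - (ang l 0 - ang l 5) / 2
      linarith
    · change ang l 5 = π / 2 - (ang l 0 - ang l 5) / 2
      linarith
  · apply of_h1 hl 1 (c := ang l 5)
    rw [relab_one]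
    exact edg_ext h0 h1 h2' (ha3.trans h2') (ha4.trans h1) rfl
  · apply of_h1 hl (Equiv.swap 0 2 * Equiv.swap 1 3) (c := ang l 0)
    rw [ang_relab, edg_rel2]
    exact edg_ext h5 h1 (ha3.trans h2') h2' (ha4.trans h1) rfl
  · apply of_h1 hl (Equiv.swap 2 3) (c := ang l 5)
    rw [ang_relab, edg_rel1]
    exact edg_ext h0 h2' h1 (ha4.trans h1) (ha3.trans h2') rfl
  · apply of_h1 hl (Equiv.swap 2 3 * (Equiv.swap 0 2 * Equiv.swap 1 3)) (c := ang l 0)
    rw [ang_relab, edg_rel3]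
    exact edg_ext h5 h2' (ha4.trans h1) h1 (ha3.trans h2') rfl

end Pool.Agent.helper37.SY
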