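import Pool.Agent.helper37.SY.Defs

/-!
SY-09 (Mre).  The relation between the angles in the class with a mirror plane.

PROOF.  With `x = cosv (t + τ • n)`: `x 0 = x 1`, `x 4 = x 5`, and (`ring` after substitution)
`gd x = (1 + x 2) * ((1 - x 2) * (1 - x 3 ^ 2) - 2 * x 0 ^ 2 - 2 * x 4 ^ 2 - 4 * x 3 * x 0 * x 4)`.
For `τ` near `0` the angle `t 2 + τ n 2` is in `(0, π)`, so `1 + x 2 > 0` and the second factor is `0`; both
sides of the claim are analytic in `τ`, so it holds for all `τ`.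
-/

namespace Pool.Agent.helper37.SY

open Real Pool.Agent.helper37.NP Pool.Agent.helper37.NL Pool.Agent.Helper93.Tet

theorem mir_rel {t n : V6} (ht : t ∈ PP) (ht' : t ∈ Sy mir) (hn : n ∈ Sy mir)
    (hg : ∀ τ : ℝ, gd (cosv (t + τ • n)) = 0) (τ : ℝ) :
    (1 - cos (t 2 + n 2 * τ)) * (1 - cos (t 3 + n 3 * τ) ^ 2)
      = 2 * cos (t 0 + n 0 * τ) ^ 2 + 2 * cos (t 4 + n 4 * τ) ^ 2
        + 4 * cos (t 3 + n 3 * τ) * cos (t 0 + n 0 * τ) * cos (t 4 + n 4 * τ) := by
  have ht1 : t 1 = t 0 := ht' 0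
  have ht5 : t 5 = t 4 := ht' 4
  have hn1 : n 1 = n 0 := hn 0
  have hn5 : n 5 = n 4 := hn 4
  have key : ∀ τ : ℝ, (1 + cos (t 2 + n 2 * τ)) *
      ((1 - cos (t 2 + n 2 * τ)) * (1 - cos (t 3 + n 3 * τ) ^ 2)
        - (2 * cos (t 0 + n 0 * τ) ^ 2 + 2 * cos (t 4 + n 4 * τ) ^ 2
        + 4 * cos (t 3 + n 3 * τ) * cos (t 0 + n 0 * τ) * cos (t 4 + n 4 * τ))) = 0 := by
    intro τ
    have h := hg τ
    have h0 : ∀ i, cosv (t + τ • n) i = cos (t i + n i * τ) := by
      intro i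
      show cos (t i + τ * n i) = _
      rw [mul_comm]
    unfold gd at h
    rw [h0, h0, h0, h0, h0, h0, ht1, hn1, ht5, hn5] at h
    linear_combination h
  set D : ℝ → ℝ := fun τ => (1 - cos (t 2 + n 2 * τ)) * (1 - cos (t 3 + n 3 * τ) ^ 2)
        - (2 * cos (t 0 + n 0 * τ) ^ 2 + 2 * cos (t 4 + n 4 * τ) ^ 2
        + 4 * cos (t 3 + n 3 * τ) * cos (t 0 + n 0 * τ) * cos (t 4 + n 4 * τ)) with hD
  have hc : ∀ i : Fin 6, ∀ τ : ℝ, AnalyticAt ℝ (fun τ : ℝ => cos (t i + n i * τ)) τ := by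
    intro i τ
    exact (Real.analyticAt_cos).comp' (analyticAt_const.add (analyticAt_const.mul analyticAt_id))
  have hDan : AnalyticOnNhd ℝ D Set.univ := by
    intro τ _
    have h0 := hc 0 τ
    have h2 := hc 2 τ
    have h3 := hc 3 τ
    have h4 := hc 4 τ
    exact ((analyticAt_const.sub h2).mul (analyticAt_const.sub (h3.pow 2))).sub
      (((analyticAt_const.mul (h0.pow 2)).add (analyticAt_const.mul (h4.pow 2))).add
        (((analyticAt_const.mul h3).mul h0).mul h4))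
  have hev : D =ᶠ[nhds 0] fun _ => 0 := by
    have h1 : ContinuousAt (fun τ : ℝ => 1 + cos (t 2 + n 2 * τ)) 0 := by fun_prop
    have h2 : (fun τ : ℝ => 1 + cos (t 2 + n 2 * τ)) 0 ≠ 0 := by
      have h3 : cos (π) < cos (t 2) :=
        Real.cos_lt_cos_of_nonneg_of_le_pi (ht.1 2).1.le le_rfl (ht.1 2).2
      rw [Real.cos_pi] at h3
      simp only [mul_zero, add_zero]
      linarith
    filter_upwards [h1.eventually_ne h2] with τ hτ
    exact (mul_eq_zero.1 (key τ)).resolve_left hτ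
  have h := hDan.eqOn_of_preconnected_of_eventuallyEq (analyticOnNhd_const) isPreconnected_univ
    (Set.mem_univ 0) hev (Set.mem_univ τ)
  simp only [hD] at h
  linarith

end Pool.Agent.helper37.SY
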