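import Pool.Agent.helper37.SY.Mtr

/-!
SY-11 (Mt0).  The case of constant `s`: see the paper proof in `SY/Mtr.lean`, CASE `S = 0`.
-/

namespace Pool.Agent.helper37.SY

open Real

/-- the cosine coefficient equations -/
private theorem mt0_cos {p r t P R U c : ℝ}
    (h : ∀ τ : ℝ, (1 - cos (r + R * τ)) * (1 - c ^ 2)
      = 2 * cos (p + P * τ) ^ 2 + 2 * cos (t + U * τ) ^ 2
        + 4 * c * cos (p + P * τ) * cos (t + U * τ)) (ω : ℝ) :
    (((if 2 * P = ω then 1 * cos (2 * p) else 0) + (if 2 * P = -ω then 1 * cos (2 * p) else 0)) +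
    ((if 2 * U = ω then 1 * cos (2 * t) else 0) + (if 2 * U = -ω then 1 * cos (2 * t) else 0)) +
    ((if P + U = ω then 2 * c * cos (p + t) else 0) +
      (if P + U = -ω then 2 * c * cos (p + t) else 0)) +
    ((if P - U = ω then 2 * c * cos (p - t) else 0) +
      (if P - U = -ω then 2 * c * cos (p - t) else 0)) +
    ((if R = ω then (1 - c ^ 2) * cos r else 0) + (if R = -ω then (1 - c ^ 2) * cos r else 0)) +
    ((if (0 : ℝ) = ω then (1 + c ^ 2) * cos 0 else 0) +
      (if (0 : ℝ) = -ω then (1 + c ^ 2) * cos 0 else 0)) = 0) ∧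
    (((if 2 * P = ω then 1 * sin (2 * p) else 0) - (if 2 * P = -ω then 1 * sin (2 * p) else 0)) +
    ((if 2 * U = ω then 1 * sin (2 * t) else 0) - (if 2 * U = -ω then 1 * sin (2 * t) else 0)) +
    ((if P + U = ω then 2 * c * sin (p + t) else 0) -
      (if P + U = -ω then 2 * c * sin (p + t) else 0)) +
    ((if P - U = ω then 2 * c * sin (p - t) else 0) -
      (if P - U = -ω then 2 * c * sin (p - t) else 0)) +
    ((if R = ω then (1 - c ^ 2) * sin r else 0) - (if R = -ω then (1 - c ^ 2) * sin r else 0)) +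
    ((if (0 : ℝ) = ω then (1 + c ^ 2) * sin 0 else 0) -
      (if (0 : ℝ) = -ω then (1 + c ^ 2) * sin 0 else 0)) = 0) := by
  have hIII : ∀ τ : ℝ, ∑ j : Fin 6, (![1, 1, 2 * c, 2 * c, 1 - c ^ 2, 1 + c ^ 2] : Fin 6 → ℝ) j *
      cos ((![2 * p, 2 * t, p + t, p - t, r, 0] : Fin 6 → ℝ) j +
        (![2 * P, 2 * U, P + U, P - U, R, 0] : Fin 6 → ℝ) j * τ) = 0 := by
    intro τ
    rw [Fin.sum_univ_six]
    change 1 * cos (2 * p + 2 * P * τ) + 1 * cos (2 * t + 2 * U * τ) +
      2 * c * cos (p + t + (P + U) * τ) + 2 * c * cos (p - t + (P - U) * τ) +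
      (1 - c ^ 2) * cos (r + R * τ) + (1 + c ^ 2) * cos (0 + 0 * τ) = 0
    have e1 : 2 * p + 2 * P * τ = 2 * (p + P * τ) := by ring
    have e2 : 2 * t + 2 * U * τ = 2 * (t + U * τ) := by ring
    have e3 : p + t + (P + U) * τ = (p + P * τ) + (t + U * τ) := by ring
    have e4 : p - t + (P - U) * τ = (p + P * τ) - (t + U * τ) := by ring
    have e5 : (0 : ℝ) + 0 * τ = 0 := by ring
    rw [e1, e2, e3, e4, e5, cos_two_mul, cos_two_mul, cos_add (p + P * τ) (t + U * τ),
      cos_sub (p + P * τ) (t + U * τ), cos_zero]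
    linarith [h τ]
  have h1 := tp_cos _ _ _ hIII ω
  have h2 := tp_sin _ _ _ hIII ω
  rw [Fin.sum_univ_six] at h1 h2
  exact ⟨h1, h2⟩

private theorem mt0_inj {x y : ℝ} (hx : 0 ≤ x ∧ x ≤ π) (hy : 0 ≤ y ∧ y ≤ π) (h : cos x = cos y) :
    x = y := injOn_cos ⟨hx.1, hx.2⟩ ⟨hy.1, hy.2⟩ h

/-- `P = 0`, `U ≠ 0` -/
private theorem mt0_one {p r t R U c : ℝ} (hr : 0 < r ∧ r < π) (ht : 0 < t ∧ t < π)
    (hd : π < 2 * t + r) (hd' : 2 * t - r < π) (hc : c ^ 2 < 1) (hU : U ≠ 0)
    (h : ∀ τ : ℝ, (1 - cos (r + R * τ)) * (1 - c ^ 2)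
      = 2 * cos p ^ 2 + 2 * cos (t + U * τ) ^ 2 + 4 * c * cos p * cos (t + U * τ)) : False := by
  have h' : ∀ τ : ℝ, (1 - cos (r + R * τ)) * (1 - c ^ 2)
      = 2 * cos (p + 0 * τ) ^ 2 + 2 * cos (t + U * τ) ^ 2
        + 4 * c * cos (p + 0 * τ) * cos (t + U * τ) := by
    intro τ
    rw [zero_mul, add_zero]
    exact h τ
  obtain ⟨h1, h2⟩ := mt0_cos h' (2 * U)
  have n1 : ¬ (2 * (0 : ℝ) = 2 * U) := fun e => hU (by linarith)
  have n2 : ¬ (2 * (0 : ℝ) = -(2 * U)) := fun e => hU (by linarith)
  have n3 : ¬ (2 * U = -(2 * U)) := fun e => hU (by linarith)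
  have n4 : ¬ (0 + U = 2 * U) := fun e => hU (by linarith)
  have n5 : ¬ (0 + U = -(2 * U)) := fun e => hU (by linarith)
  have n6 : ¬ (0 - U = 2 * U) := fun e => hU (by linarith)
  have n7 : ¬ (0 - U = -(2 * U)) := fun e => hU (by linarith)
  have n8 : ¬ ((0 : ℝ) = 2 * U) := fun e => hU (by linarith)
  have n9 : ¬ ((0 : ℝ) = -(2 * U)) := fun e => hU (by linarith)
  rw [if_neg n1, if_neg n2, if_pos rfl, if_neg n3, if_neg n4, if_neg n5, if_neg n6, if_neg n7,
    if_neg n8, if_neg n9] at h1 h2
  have hsq := sin_sq_add_cos_sq (2 * t)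
  have hsr := sin_sq_add_cos_sq r
  -- the remaining term must be present and have amplitude one
  have hcos : cos (2 * t) = -cos r := by
    by_cases r1 : R = 2 * U
    · have r2 : ¬ (R = -(2 * U)) := fun e => hU (by linarith)
      rw [if_pos r1, if_neg r2] at h1 h2
      have a1 : cos (2 * t) = -((1 - c ^ 2) * cos r) := by linarith
      have a2 : sin (2 * t) = -((1 - c ^ 2) * sin r) := by linarith
      rw [a1, a2] at hsq
      have a3 : (1 - c ^ 2) ^ 2 = 1 := by nlinarith
      have a4 : 1 - c ^ 2 = 1 := by nlinarith [sq_nonneg c]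
      rw [a1, a4]; ring
    · by_cases r2 : R = -(2 * U)
      · rw [if_neg r1, if_pos r2] at h1 h2
        have a1 : cos (2 * t) = -((1 - c ^ 2) * cos r) := by linarith
        have a2 : sin (2 * t) = (1 - c ^ 2) * sin r := by linarith
        rw [a1, a2] at hsq
        have a3 : (1 - c ^ 2) ^ 2 = 1 := by nlinarith
        have a4 : 1 - c ^ 2 = 1 := by nlinarith [sq_nonneg c]
        rw [a1, a4]; ring
      · rw [if_neg r1, if_neg r2] at h1 h2
        have a1 : cos (2 * t) = 0 := by linarith
        have a2 : sin (2 * t) = 0 := by linarith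
        rw [a1, a2] at hsq
        norm_num at hsq
  have hcos2 : cos |π - 2 * t| = cos r := by
    rw [cos_abs, cos_pi_sub, hcos, neg_neg]
  have habs : |π - 2 * t| = r := by
    refine mt0_inj ⟨abs_nonneg _, ?_⟩ ⟨hr.1.le, hr.2.le⟩ hcos2
    rw [abs_le]
    constructor <;> linarith [ht.1, ht.2]
  rcases abs_eq hr.1.le |>.1 habs with e | e <;> linarith

/-- SY-11 -/
theorem mir_0 {p r s t P R U : ℝ} (hp : 0 < p ∧ p < π) (hr : 0 < r ∧ r < π)
    (hs : 0 < s ∧ s < π) (ht : 0 < t ∧ t < π) (ha : π < 2 * p + r) (ha' : 2 * p - r < π)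
    (hd : π < 2 * t + r) (hd' : 2 * t - r < π) (hb : π < p + s + t) (hb1 : s + t - p < π)
    (hb2 : p + t - s < π) (hb3 : p + s - t < π) (hn : ¬ (P = 0 ∧ R = 0 ∧ U = 0))
    (h : ∀ τ : ℝ, (1 - cos (r + R * τ)) * (1 - cos s ^ 2)
      = 2 * cos (p + P * τ) ^ 2 + 2 * cos (t + U * τ) ^ 2
        + 4 * cos s * cos (p + P * τ) * cos (t + U * τ)) : False := by
  have hss : 0 < sin s := sin_pos_of_pos_of_lt_pi hs.1 hs.2
  have hc1 : cos s ^ 2 < 1 := by nlinarith [sin_sq_add_cos_sq s]
  have hrr : 0 < sin r := sin_pos_of_pos_of_lt_pi hr.1 hr.2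
  have hr1 : -1 < cos r ∧ cos r < 1 := by
    constructor <;> nlinarith [sin_sq_add_cos_sq r]
  by_cases hP : P = 0
  · subst hP
    by_cases hU : U = 0
    · subst hU
      have hR : R ≠ 0 := fun e => hn ⟨rfl, e, rfl⟩
      have h1 := h (-r / R)
      have h2 := h ((π - r) / R)
      rw [show r + R * (-r / R) = 0 by field_simp; ring, cos_zero] at h1
      rw [show r + R * ((π - r) / R) = π by field_simp; ring, cos_pi] at h2
      simp only [zero_mul, add_zero] at h1 h2
      linarith
    · refine mt0_one (p := p) hr ht hd hd' hc1 hU (R := R) fun τ => ?_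
      have := h τ
      rwa [zero_mul, add_zero] at this
  by_cases hU : U = 0
  · subst hU
    refine mt0_one (p := t) hr hp ha ha' hc1 hP (R := R) fun τ => ?_
    have := h τ
    rw [zero_mul, add_zero] at this
    linarith
  -- both slopes are nonzero: mean value
  obtain ⟨m1, -⟩ := mt0_cos h 0
  have n1 : ¬ (2 * P = 0) := fun e => hP (by linarith)
  have n2 : ¬ (2 * U = 0) := fun e => hU (by linarith)
  rw [neg_zero, if_neg n1, if_neg n2, if_pos rfl, cos_zero] at m1
  have hbd : ∀ x : ℝ, 0 < 2 * cos s * cos x + (1 + cos s ^ 2) := by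
    intro x
    have a1 := neg_one_le_cos x
    have a2 := cos_le_one x
    have a3 : -1 < cos s := by nlinarith
    have a4 : cos s < 1 := by nlinarith
    rcases le_total 0 (cos s) with a5 | a5
    · nlinarith [mul_le_mul_of_nonneg_left a1 a5, mul_pos (sub_pos.2 a4) (sub_pos.2 a4)]
    · nlinarith [mul_le_mul_of_nonpos_left a2 a5, mul_pos (sub_pos.2 a3) (sub_pos.2 a3)]
  by_cases hs1 : P + U = 0
  · have hUP : U = -P := by linarith
    subst hUP
    have n3 : ¬ (P - -P = 0) := fun e => hP (by linarith)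
    rw [if_pos hs1, if_neg n3] at m1
    by_cases hR : R = 0
    · subst hR
      obtain ⟨h1, h2⟩ := mt0_cos h (2 * P)
      have k1 : ¬ (2 * P = -(2 * P)) := fun e => hP (by linarith)
      have k2 : ¬ (2 * -P = 2 * P) := fun e => hP (by linarith)
      have k3 : (2 * -P = -(2 * P)) := by ring
      have k4 : ¬ (P + -P = 2 * P) := fun e => hP (by linarith)
      have k5 : ¬ (P + -P = -(2 * P)) := fun e => hP (by linarith)
      have k6 : (P - -P = 2 * P) := by ring
      have k7 : ¬ (P - -P = -(2 * P)) := fun e => hP (by linarith)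
      have k8 : ¬ ((0 : ℝ) = 2 * P) := fun e => hP (by linarith)
      have k9 : ¬ ((0 : ℝ) = -(2 * P)) := fun e => hP (by linarith)
      rw [if_pos rfl, if_neg k1, if_neg k2, if_pos k3, if_neg k4, if_neg k5, if_pos k6, if_neg k7,
        if_neg k8, if_neg k9] at h1 h2
      simp only [if_neg k8, if_neg k9] at h1 h2
      have e1 : cos (2 * p) + cos (2 * t) = 2 * cos (p + t) * cos (p - t) := by
        rw [cos_two_mul, cos_two_mul, cos_add, cos_sub]
        nlinarith [sin_sq_add_cos_sq p, sin_sq_add_cos_sq t]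
      have e2 : sin (2 * p) - sin (2 * t) = 2 * cos (p + t) * sin (p - t) := by
        rw [sin_two_mul, sin_two_mul, cos_add, sin_sub]
        have z1 := sin_sq_add_cos_sq p
        have z2 := sin_sq_add_cos_sq t
        linear_combination (2 * sin p * cos p) * z2 * (-1) + (2 * sin t * cos t) * z1
      have e3 : (cos (p + t) + cos s) * cos (p - t) = 0 := by linarith
      have e4 : (cos (p + t) + cos s) * sin (p - t) = 0 := by linarith
      have e5 : cos (p + t) + cos s = 0 := by
        by_contra hne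
        have z1 := (mul_eq_zero.1 e3).resolve_left hne
        have z2 := (mul_eq_zero.1 e4).resolve_left hne
        have z3 := sin_sq_add_cos_sq (p - t)
        rw [z1, z2] at z3
        norm_num at z3
      have e6 : cos (p + t) = cos (π - s) := by rw [cos_pi_sub]; linarith
      rcases le_total (p + t) π with e7 | e7
      · have := mt0_inj ⟨by linarith [hp.1, ht.1], e7⟩ ⟨by linarith [hs.2], by linarith [hs.1]⟩ e6
        linarith
      · have e8 : cos (2 * π - (p + t)) = cos (π - s) := by rw [cos_two_pi_sub]; exact e6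
        have := mt0_inj ⟨by linarith [hp.2, ht.2], by linarith⟩
          ⟨by linarith [hs.2], by linarith [hs.1]⟩ e8
        linarith
    · rw [if_neg hR] at m1
      linarith [hbd (p + t)]
  · by_cases hs2 : P - U = 0
    · have hUP : U = P := by linarith
      subst hUP
      rw [if_neg hs1, if_pos hs2] at m1
      by_cases hR : R = 0
      · subst hR
        obtain ⟨h1, h2⟩ := mt0_cos h (2 * U)
        have k1 : ¬ (2 * U = -(2 * U)) := fun e => hP (by linarith)
        have k4 : (U + U = 2 * U) := by ring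
        have k5 : ¬ (U + U = -(2 * U)) := fun e => hP (by linarith)
        have k6 : ¬ (U - U = 2 * U) := fun e => hP (by linarith)
        have k7 : ¬ (U - U = -(2 * U)) := fun e => hP (by linarith)
        have k8 : ¬ ((0 : ℝ) = 2 * U) := fun e => hP (by linarith)
        have k9 : ¬ ((0 : ℝ) = -(2 * U)) := fun e => hP (by linarith)
        rw [if_pos rfl, if_neg k1, if_pos k4, if_neg k5, if_neg k6, if_neg k7,
          if_neg k8, if_neg k9] at h1 h2
        simp only [if_true, if_neg k1, if_neg k8, if_neg k9] at h1 h2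
        have e1 : cos (2 * p) + cos (2 * t) = 2 * cos (p + t) * cos (p - t) := by
          rw [cos_two_mul, cos_two_mul, cos_add, cos_sub]
          nlinarith [sin_sq_add_cos_sq p, sin_sq_add_cos_sq t]
        have e2 : sin (2 * p) + sin (2 * t) = 2 * sin (p + t) * cos (p - t) := by
          rw [sin_two_mul, sin_two_mul, sin_add, cos_sub]
          have z1 := sin_sq_add_cos_sq p
          have z2 := sin_sq_add_cos_sq t
          linear_combination (2 * sin p * cos p) * z2 * (-1) - (2 * sin t * cos t) * z1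
        have e3 : (cos (p - t) + cos s) * cos (p + t) = 0 := by linarith
        have e4 : (cos (p - t) + cos s) * sin (p + t) = 0 := by linarith
        have e5 : cos (p - t) + cos s = 0 := by
          by_contra hne
          have z1 := (mul_eq_zero.1 e3).resolve_left hne
          have z2 := (mul_eq_zero.1 e4).resolve_left hne
          have z3 := sin_sq_add_cos_sq (p + t)
          rw [z1, z2] at z3
          norm_num at z3
        have e6 : cos |p - t| = cos (π - s) := by rw [cos_abs, cos_pi_sub]; linarith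
        have e7 : |p - t| = π - s := by
          refine mt0_inj ⟨abs_nonneg _, ?_⟩ ⟨by linarith [hs.2], by linarith [hs.1]⟩ e6
          rw [abs_le]
          constructor <;> linarith [hp.1, hp.2, ht.1, ht.2]
        rcases (abs_eq (by linarith [hs.2])).1 e7 with e | e <;> linarith
      · rw [if_neg hR] at m1
        linarith [hbd (p - t)]
    · rw [if_neg hs1, if_neg hs2] at m1
      by_cases hR : R = 0
      · rw [if_pos hR] at m1
        nlinarith [sq_nonneg (cos s)]
      · rw [if_neg hR] at m1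
        nlinarith [sq_nonneg (cos s)]

end Pool.Agent.helper37.SY
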