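import Pool.Agent.helper37.SY.Defs
import Pool.Agent.helper37.NP.Perm

/-!
SY-15 (Sfi).  The general facts about `mir` and `rot` used in the assembly.

PROOF.  `finrank`: `Sy mir` is spanned by four vectors: `v ∈ Sy mir` is
`v 0 • (e0 + e1) + v 2 • e2 + v 3 • e3 + v 4 • (e4 + e5)`, so `Sy mir ≤ span` of a set of four vectors
(`finrank_span_le_card`, `Submodule.finrank_mono`); similarly `Sy rot`.
`dotp`: unfold `dotp`, `mir`, `rot`, `ring`.
Angles: `l ∈ Sy mir` is `sbc l = l`, so `ang l = ang (sbc l) = sbc (ang l)` (`ang_sbc`); `l ∈ Sy rot` is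
`sab (scd l) = l`, `ang_sab`, `ang_scd`.
-/

namespace Pool.Agent.helper37.SY

open Real Pool.Agent.helper37.NP Pool.Agent.helper37.NL Pool.Agent.Helper93.Tet

private theorem vec6 {x y : V6} (h0 : x 0 = y 0) (h1 : x 1 = y 1) (h2 : x 2 = y 2)
    (h3 : x 3 = y 3) (h4 : x 4 = y 4) (h5 : x 5 = y 5) : x = y := by
  funext i
  fin_cases i
  · exact h0
  · exact h1
  · exact h2
  · exact h3
  · exact h4
  · exact h5

private theorem fin_aux (S : Submodule ℝ V6) (b : Fin 4 → V6)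
    (h : ∀ v ∈ S, ∃ c : Fin 4 → ℝ, ∑ i, c i • b i = v) : Module.finrank ℝ S ≤ 4 := by
  have h1 : S ≤ Submodule.span ℝ (Set.range b) := by
    intro v hv
    exact Submodule.mem_span_range_iff_exists_fun ℝ |>.2 (h v hv)
  have h2 := Submodule.finrank_mono h1
  have h3 : Module.finrank ℝ (Submodule.span ℝ (Set.range b)) ≤ 4 := by
    have h4 := finrank_range_le_card (R := ℝ) b
    rw [Fintype.card_fin] at h4
    exact h4
  exact h2.trans h3

theorem fin_mir : Module.finrank ℝ (Sy mir) ≤ 4 := by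
  refine fin_aux _ ![![1, 1, 0, 0, 0, 0], ![0, 0, 1, 0, 0, 0], ![0, 0, 0, 1, 0, 0],
    ![0, 0, 0, 0, 1, 1]] fun v hv => ⟨![v 0, v 2, v 3, v 4], ?_⟩
  have h0 : v 1 = v 0 := hv 0
  have h4 : v 5 = v 4 := hv 4
  rw [Fin.sum_univ_four]
  apply vec6 <;> simp [h0, h4]

theorem fin_rot : Module.finrank ℝ (Sy rot) ≤ 4 := by
  refine fin_aux _ ![![1, 0, 0, 0, 0, 0], ![0, 1, 0, 0, 1, 0], ![0, 0, 1, 1, 0, 0],
    ![0, 0, 0, 0, 0, 1]] fun v hv => ⟨![v 0, v 1, v 2, v 5], ?_⟩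
  have h0 : v 4 = v 1 := hv 1
  have h4 : v 3 = v 2 := hv 2
  rw [Fin.sum_univ_four]
  apply vec6 <;> simp [h0, h4]

theorem mir_mir (i : Fin 6) : mir (mir i) = i := by
  fin_cases i <;> rfl

theorem rot_rot (i : Fin 6) : rot (rot i) = i := by
  fin_cases i <;> rfl

theorem dot_mir (x y : V6) : dotp (fun i => x (mir i)) (fun i => y (mir i)) = dotp x y := by
  show x 1 * y 1 + x 0 * y 0 + x 2 * y 2 + x 3 * y 3 + x 5 * y 5 + x 4 * y 4 =
    x 0 * y 0 + x 1 * y 1 + x 2 * y 2 + x 3 * y 3 + x 4 * y 4 + x 5 * y 5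
  ring

theorem dot_rot (x y : V6) : dotp (fun i => x (rot i)) (fun i => y (rot i)) = dotp x y := by
  show x 0 * y 0 + x 4 * y 4 + x 3 * y 3 + x 2 * y 2 + x 1 * y 1 + x 5 * y 5 =
    x 0 * y 0 + x 1 * y 1 + x 2 * y 2 + x 3 * y 3 + x 4 * y 4 + x 5 * y 5
  ring

private theorem sbc_eq (l : V6) (h : l ∈ Sy mir) : sbc l = l := by
  have h' : ∀ i, l (mir i) = l i := h
  apply vec6
  · exact h' 0
  · exact h' 1
  · exact h' 2
  · exact h' 3
  · exact h' 4
  · exact h' 5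

private theorem srot_eq (l : V6) (h : l ∈ Sy rot) : sab (scd l) = l := by
  have h' : ∀ i, l (rot i) = l i := h
  apply vec6
  · exact h' 0
  · exact h' 1
  · exact h' 2
  · exact h' 3
  · exact h' 4
  · exact h' 5

theorem ang_mir (l : V6) (h : l ∈ Sy mir) : ang l ∈ Sy mir := by
  have h1 := ang_sbc l
  rw [sbc_eq l h] at h1
  intro i
  have h2 : ∀ j, ang l j = sbc (ang l) j := fun j => congrFun h1 j
  fin_cases i
  · exact (h2 0).symm
  · exact (h2 1).symm
  · exact (h2 2).symm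
  · exact (h2 3).symm
  · exact (h2 4).symm
  · exact (h2 5).symm

theorem ang_rot (l : V6) (h : l ∈ Sy rot) : ang l ∈ Sy rot := by
  have h1 := ang_sab (scd l)
  rw [srot_eq l h, ang_scd] at h1
  intro i
  have h2 : ∀ j, ang l j = sab (scd (ang l)) j := fun j => congrFun h1 j
  fin_cases i
  · exact (h2 0).symm
  · exact (h2 1).symm
  · exact (h2 2).symm
  · exact (h2 3).symm
  · exact (h2 4).symm
  · exact (h2 5).symm

end Pool.Agent.helper37.SY
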