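import Pool.Agent.helper37.SY.Defs
import Pool.Agent.helper37.NL.KAl
import Pool.Agent.helper37.NL.KLi

/-!
SY-06 (Twf).  Tetrahedra whose edges are in a rational plane, with two equal edges: family one.
author: helper1

PROOF.  `l = x • iv s1 + y • iv s2`.  `x ≠ 0`: otherwise all quotients `l e / l f` are rational.  Similarly
`y ≠ 0`, and `m = y / x` is transcendental over `ℚ`: `l e / l f = (s1 e + m s2 e) / (s1 f + m s2 f)`.
`![iv s1, iv s2]` is linearly independent (otherwise the quotients are rational again: `iv s2 = c • iv s1`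
or conversely, `c` rational at a nonzero coordinate).  If `x > 0`: `l = x • (iv s1 + m • iv s2)`, and if
`x < 0`: `l = (-x) • (-iv s1 + m • (-iv s2))`.  Take `K = ⊥ : Subfield ℝ` (`transc_bot`, `rat_mem_bot`,
integers are in `⊥`), points `a b c d` with `lenv a b c d = l` by hypothesis: `isF_of_dehn` gives
`IsF l`: a permutation `q`, `k0 > 0`, `m0 > 4` with `relab q l = k0 • F1v m0` (done) or
`relab q l = k0 • F2v m0`.  In the second case: `l` has two equal coordinates at two different edges, so
`relab q l` has, so `F2v m0` has (`relab q` permutes the coordinates: `relab q l e = l (e')` with an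
injective map `e ↦ e'`; for example apply the inverse: `l = relab q⁻¹ (relab q l)`, and each coordinate of
`relab p v` is a coordinate of `v`, different coordinates for different positions); each of the 15
equations between two coordinates of `F2v m0 = (2m+2, m+4, m+6, 3m-6, m+8, 2m-2)` is impossible or gives
`m0` rational (`m0 = 2, 4, 6, 5, 14, 7/2, ...`), then all quotients of coordinates of `F2v m0` and of `l`
are rational, a contradiction.
-/

namespace Pool.Agent.helper37.SY

open Real Pool.Agent.helper37.NP Pool.Agent.helper37.NL Pool.Agent.Helper93.Tet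

private theorem not_rat {l : V6} {e f : Fin 6} (htr : Transcendental ℚ (l e / l f)) (t : ℝ)
    (r : Fin 6 → ℚ) (hl : ∀ i, l i = t * (r i : ℝ)) : False := by
  apply htr
  have h : l e / l f = ((if t = 0 then 0 else r e / r f : ℚ) : ℝ) := by
    rw [hl e, hl f]
    by_cases ht : t = 0
    · simp [ht]
    · rw [if_neg ht, mul_div_mul_left _ _ ht]
      push_cast
      rfl
  rw [h]
  exact isAlgebraic_algebraMap (A := ℝ) (_ : ℚ)

/-- number of an edge -/
private def ed : Fin 4 → Fin 4 → Fin 6 :=
  ![![0, 0, 1, 2], ![0, 0, 3, 4], ![1, 3, 0, 5], ![2, 4, 5, 0]]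

private def eA : Fin 6 → Fin 4 := ![0, 0, 0, 1, 1, 2]
private def eB : Fin 6 → Fin 4 := ![1, 2, 3, 2, 3, 3]

private theorem eAB (i : Fin 6) : eA i ≠ eB i := by revert i; decide

private theorem ed_inj : ∀ a b c d : Fin 4, a ≠ b → c ≠ d → ed a b = ed c d →
    (a = c ∧ b = d) ∨ (a = d ∧ b = c) := by decide

private theorem eAB_inj : ∀ i j : Fin 6, (eA i = eA j ∧ eB i = eB j) ∨ (eA i = eB j ∧ eB i = eA j) →
    i = j := by decide

private theorem dm_ed (v : V6) (a b : Fin 4) (h : a ≠ b) : dm v a b = v (ed a b) := by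
  fin_cases a <;> fin_cases b <;> first | exact absurd rfl h | rfl

private theorem relab_ed (p : Equiv.Perm (Fin 4)) (v : V6) (i : Fin 6) :
    relab p v i = v (ed (p (eA i)) (p (eB i))) := by
  rw [← dm_ed v _ _ (fun h => eAB i (p.injective h))]
  fin_cases i <;> rfl

private theorem ed_perm_inj (p : Equiv.Perm (Fin 4)) {i j : Fin 6} (hij : i ≠ j) :
    ed (p (eA i)) (p (eB i)) ≠ ed (p (eA j)) (p (eB j)) := by
  intro h
  apply hij
  apply eAB_inj
  rcases ed_inj _ _ _ _ (fun h => eAB i (p.injective h)) (fun h => eAB j (p.injective h)) h with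
    ⟨h1, h2⟩ | ⟨h1, h2⟩
  · exact Or.inl ⟨p.injective h1, p.injective h2⟩
  · exact Or.inr ⟨p.injective h1, p.injective h2⟩

private theorem F2_rat {m : ℝ} (hm : 4 < m) {i j : Fin 6} (hij : i ≠ j) (h : F2v m i = F2v m j) :
    ∃ r : ℚ, m = r := by
  have h01 : m = ((5 : ℚ) : ℝ) ∨ m = ((6 : ℚ) : ℝ) ∨ m = ((7 : ℚ) : ℝ) ∨ m = ((8 : ℚ) : ℝ) ∨
      m = ((10 : ℚ) : ℝ) := by
    push_cast
    fin_cases i <;> fin_cases j <;>
      first
        | exact absurd rfl hij
        | (simp [F2v] at h; done)
        | (simp [F2v] at h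
           first
             | (left; linarith)
             | (right; left; linarith)
             | (right; right; left; linarith)
             | (right; right; right; left; linarith)
             | (right; right; right; right; linarith))
  rcases h01 with h | h | h | h | h <;> exact ⟨_, h⟩

private def F2q (r : ℚ) : Fin 6 → ℚ := ![2 * r + 2, r + 4, r + 6, 3 * r - 6, r + 8, 2 * r - 2]

private theorem F2v_rat (r : ℚ) (e : Fin 6) : F2v (r : ℝ) e = (F2q r e : ℝ) := by
  fin_cases e <;> simp [F2v, F2q]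

private theorem two_pos {a b c d : E} (h : AffineIndependent ℝ ![a, b, c, d])
    (hD : dehn a b c d = 0) (s1 s2 : Fin 6 → ℤ) (x y : ℝ) (hx : 0 < x)
    (hxy : lenv a b c d = x • iv s1 + y • iv s2) {e f : Fin 6}
    (htr : Transcendental ℚ (lenv a b c d e / lenv a b c d f)) : IsF (lenv a b c d) := by
  have hcoord : ∀ i, lenv a b c d i = x * (s1 i : ℝ) + y * (s2 i : ℝ) := by
    intro i
    rw [hxy]
    rfl
  have hm : Transcendental ℚ (y / x) := by
    intro hal
    apply htr
    have h1 : lenv a b c d e / lenv a b c d f =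
        (((s1 e : ℚ) : ℝ) + y / x * ((s2 e : ℚ) : ℝ)) / (((s1 f : ℚ) : ℝ) + y / x * ((s2 f : ℚ) : ℝ)) := by
      rw [hcoord e, hcoord f]
      have h2 : ∀ u v : ℝ, x * u + y * v = x * (u + y / x * v) := by
        intro u v
        field_simp
      rw [h2, h2, mul_div_mul_left _ _ hx.ne']
      push_cast
      rfl
    rw [h1]
    have hr : ∀ r : ℚ, IsAlgebraic ℚ (r : ℝ) := fun r => isAlgebraic_algebraMap (A := ℝ) r
    rw [div_eq_mul_inv]
    exact ((hr _).add (hal.mul (hr _))).mul (((hr _).add (hal.mul (hr _))).inv)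
  have hli : LinearIndependent ℝ ![iv s1, iv s2] := by
    rw [LinearIndependent.pair_iff]
    intro s t hst
    have hc : ∀ i, s * (s1 i : ℝ) + t * (s2 i : ℝ) = 0 := by
      intro i
      have := congrFun hst i
      simpa [iv] using this
    by_cases hs : s = 0
    · refine ⟨hs, ?_⟩
      by_contra ht
      refine not_rat htr x (fun i => (s1 i : ℚ)) (fun i => ?_)
      have := hc i
      rw [hs, zero_mul, zero_add] at this
      rcases mul_eq_zero.1 this with h0 | h0
      · exact absurd h0 ht
      · rw [hcoord i, h0]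
        push_cast
        ring
    · exfalso
      refine not_rat htr (y - x * t / s) (fun i => (s2 i : ℚ)) (fun i => ?_)
      have h1 : (s1 i : ℝ) = -(t / s) * (s2 i : ℝ) := by
        have := hc i
        field_simp
        linarith
      rw [hcoord i, h1]
      push_cast
      ring
  refine isF_of_dehn (K := ⊥) (m := y / x) (transc_bot hm) (p := iv s1) (q := iv s2)
    (fun e => ?_) (fun e => ?_) hli h hx ?_ hD
  · have := rat_mem_bot (s1 e : ℚ)
    push_cast at this
    exact this
  · have := rat_mem_bot (s2 e : ℚ)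
    push_cast at this
    exact this
  · rw [hxy, smul_add, smul_smul, mul_div_cancel₀ _ hx.ne']

private theorem iv_neg (s : Fin 6 → ℤ) : iv (-s) = -iv s := by
  funext e
  simp [iv]

theorem two_F1 {a b c d : E} (h : AffineIndependent ℝ ![a, b, c, d]) (hD : dehn a b c d = 0)
    (s1 s2 : Fin 6 → ℤ) (x y : ℝ) (hxy : lenv a b c d = x • iv s1 + y • iv s2) {e f : Fin 6}
    (htr : Transcendental ℚ (lenv a b c d e / lenv a b c d f)) {i j : Fin 6} (hij : i ≠ j)
    (heq : lenv a b c d i = lenv a b c d j) :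
    ∃ (q : Equiv.Perm (Fin 4)) (k m : ℝ), 0 < k ∧ 4 < m ∧ relab q (lenv a b c d) = k • F1v m := by
  have hF : IsF (lenv a b c d) := by
    rcases lt_trichotomy x 0 with hx | hx | hx
    · refine two_pos h hD (-s1) (-s2) (-x) (-y) (by linarith) ?_ htr
      rw [iv_neg, iv_neg, hxy]
      simp
    · exfalso
      refine not_rat htr y (fun i => (s2 i : ℚ)) (fun i => ?_)
      rw [hxy, hx]
      simp [iv]
    · exact two_pos h hD s1 s2 x y hx hxy htr
  obtain ⟨q, k, m, hk, hm, hF⟩ := hF
  rcases hF with hF | hF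
  · exact ⟨q, k, m, hk, hm, hF⟩
  · exfalso
    have hl : ∀ i, lenv a b c d i =
        k * F2v m (ed ((q⁻¹ : Equiv.Perm (Fin 4)) (eA i)) ((q⁻¹ : Equiv.Perm (Fin 4)) (eB i))) := by
      intro i
      have h1 := congrFun (relab_inv q (lenv a b c d)) i
      rw [← h1, relab_ed, hF]
      rfl
    have h2 : F2v m (ed ((q⁻¹ : Equiv.Perm (Fin 4)) (eA i)) ((q⁻¹ : Equiv.Perm (Fin 4)) (eB i))) =
        F2v m (ed ((q⁻¹ : Equiv.Perm (Fin 4)) (eA j)) ((q⁻¹ : Equiv.Perm (Fin 4)) (eB j))) := by
      have := heq
      rw [hl i, hl j] at this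
      exact mul_left_cancel₀ hk.ne' this
    obtain ⟨r, hr⟩ := F2_rat hm (ed_perm_inj _ hij) h2
    refine not_rat htr k (fun i => F2q r
      (ed ((q⁻¹ : Equiv.Perm (Fin 4)) (eA i)) ((q⁻¹ : Equiv.Perm (Fin 4)) (eB i)))) (fun i => ?_)
    rw [hl i, hr, F2v_rat]

end Pool.Agent.helper37.SY
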