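import Pool.Agent.helper37.SY.Lin
import Pool.Agent.helper37.SY.Twf
import Pool.Agent.helper37.SY.Cre
import Pool.Agent.helper37.SY.Ctr
import Pool.Agent.helper37.SY.Mre
import Pool.Agent.helper37.SY.Mt0
import Pool.Agent.helper37.SY.Sfi
import Pool.Agent.helper37.SY.Edg
import Pool.Agent.helper37.SY.Dat
import Pool.Agent.helper37.NL.Rea

/-!
SY (Fin).  Assembly of the classification of the symmetric tetrahedra.
-/

namespace Pool.Agent.helper37.SY

open Real Pool.Agent.helper37.NP Pool.Agent.helper37.NL Pool.Agent.Helper93.Tet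

theorem Conc.of_relab {l : V6} {q : Equiv.Perm (Fin 4)} (h : Conc (relab q l)) : Conc l := by
  obtain ⟨p, k, hk, h⟩ := h
  rw [relab_relab] at h
  exact ⟨q * p, k, hk, h⟩

theorem Conc.of_smul {l : V6} {c : ℝ} (hc : 0 < c) (h : Conc (c • l)) : Conc l := by
  obtain ⟨p, k, hk, h⟩ := h
  have key : ∀ v : V6, relab p (c • l) = k • v → relab p l = (c⁻¹ * k) • v := by
    intro v hv
    rw [relab_smul] at hv
    rw [mul_smul, ← hv, smul_smul, inv_mul_cancel₀ hc.ne', one_smul]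
  refine ⟨p, c⁻¹ * k, by positivity, ?_⟩
  rcases h with ⟨m, hm, h⟩ | ⟨y, hy, hy', h⟩ | ⟨x, hx, h⟩
  · exact Or.inl ⟨m, hm, key _ h⟩
  · exact Or.inr (Or.inl ⟨y, hy, hy', key _ h⟩)
  · exact Or.inr (Or.inr ⟨x, hx, key _ h⟩)

/-- dichotomy for a symmetric tetrahedron -/
theorem dicho (ρ : Fin 6 → Fin 6) (hρ : ∀ i, ρ (ρ i) = i) (hfin : Module.finrank ℝ (Sy ρ) ≤ 4)
    (hdot : ∀ x y : V6, dotp (fun i => x (ρ i)) (fun i => y (ρ i)) = dotp x y)
    (hangs : ∀ l : V6, l ∈ Sy ρ → ang l ∈ Sy ρ) {i j : Fin 6} (hij : i ≠ j) (hρi : ρ i = j)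
    {a b c d : E} (h : AffineIndependent ℝ ![a, b, c, d]) (hD : dehn a b c d = 0)
    (hs : lenv a b c d ∈ Sy ρ) {e f : Fin 6}
    (htr : Transcendental ℚ (lenv a b c d e / lenv a b c d f)) :
    Conc (lenv a b c d) ∨
      ∃ n : V6, n ≠ 0 ∧ n ∈ Sy ρ ∧ ∀ τ : ℝ, gd (cosv (ang (lenv a b c d) + τ • n)) = 0 := by
  obtain ⟨l, hl⟩ : ∃ l, l = lenv a b c d := ⟨_, rfl⟩
  have hlT : l ∈ T := hl ▸ lenv_mem h
  obtain ⟨k, s, r, -, hsp, hr⟩ := dehn_data hD
  rw [← ang_lenv h] at hr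
  rw [← hl] at hsp hr htr hs
  rw [← hl]
  have hang : ∀ i, ang l (ρ i) = ang l i := fun i => hangs l hs i
  obtain ⟨k', s', r', hli, hsy, hsp', hr'⟩ := sym_data ρ hρ hdot (fun i => hs i) hang s r hsp hr
  rcases lt_or_ge k' 3 with hk | hk
  · left
    have key : ∃ (s1 s2 : Fin 6 → ℤ) (x y : ℝ), l = x • iv s1 + y • iv s2 := by
      obtain ⟨co, hco⟩ := (Submodule.mem_span_range_iff_exists_fun ℝ).1 hsp'
      interval_cases k'
      · refine ⟨0, 0, 0, 0, ?_⟩
        rw [← hco]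
        simp
      · refine ⟨s' 0, 0, co 0, 0, ?_⟩
        rw [← hco]
        simp
      · refine ⟨s' 0, s' 1, co 0, co 1, ?_⟩
        rw [← hco]
        simp
    obtain ⟨s1, s2, x, y, hxy⟩ := key
    have heq : lenv a b c d i = lenv a b c d j := by
      rw [← hl, ← hρi]
      exact (hs i).symm
    rw [hl] at hxy htr
    obtain ⟨q, k0, m, hk0, hm, hq⟩ := two_F1 h hD s1 s2 x y hxy htr hij heq
    rw [hl]
    exact ⟨q, k0, hk0, Or.inl ⟨m, hm, hq⟩⟩
  · right
    have hS : 0 < ∑ i, l i := Finset.sum_pos (fun i _ => T_pos hlT i) Finset.univ_nonempty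
    obtain ⟨l', hl'⟩ : ∃ l' : V6, l' = (∑ i, l i)⁻¹ • l := ⟨_, rfl⟩
    have hinv : 0 < (∑ i, l i)⁻¹ := inv_pos.2 hS
    have hl'T : l' ∈ T := hl' ▸ smul_mem_T hlT hinv
    have hl'1 : ∑ i, l' i = 1 := by
      have h1 : ∀ i, l' i = (∑ i, l i)⁻¹ * l i := fun i => by rw [hl']; rfl
      simp_rw [h1]
      rw [← Finset.mul_sum, inv_mul_cancel₀ hS.ne']
    have hang' : ang l' = ang l := by rw [hl', ang_smul hinv]
    obtain ⟨e', he'⟩ : ∃ e', Transcendental ℚ (l' e') := by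
      by_contra hcon
      have halg : ∀ g, IsAlgebraic ℚ (l' g) := fun g => by
        by_contra hg
        exact hcon ⟨g, hg⟩
      apply htr
      have h1 : l e / l f = l' e / l' f := by
        have h2 : ∀ i, l' i = (∑ i, l i)⁻¹ * l i := fun i => by rw [hl']; rfl
        rw [h2, h2, mul_div_mul_left _ _ hinv.ne']
      rw [h1, div_eq_mul_inv]
      exact (halg e).mul (halg f).inv
    have h1 := sym_line ρ hfin hangs hl'T hl'1 (hl' ▸ (Sy ρ).smul_mem _ hs) hk s' r' hli hsy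
      (hl' ▸ Submodule.smul_mem _ _ hsp') (fun i => by rw [hang']; exact hr' i) he'
    rw [hang'] at h1
    exact h1

theorem class_mir {a b c d : E} (h : AffineIndependent ℝ ![a, b, c, d]) (hD : dehn a b c d = 0)
    (hs : lenv a b c d ∈ Sy mir) {e f : Fin 6}
    (htr : Transcendental ℚ (lenv a b c d e / lenv a b c d f)) : Conc (lenv a b c d) := by
  rcases dicho mir mir_mir fin_mir dot_mir ang_mir (i := 0) (j := 1) (by decide) rfl h hD hs htr
    with h1 | ⟨n, hn, hnS, hg⟩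
  · exact h1
  exfalso
  obtain ⟨l, hl⟩ : ∃ l, l = lenv a b c d := ⟨_, rfl⟩
  rw [← hl] at hs hg
  have hlT : l ∈ T := hl ▸ lenv_mem h
  have hPP := ang_mem_PP hlT
  have hA := ang_mir l hs
  have hrel := mir_rel hPP hA hnS hg
  have a1 : ang l 1 = ang l 0 := hA 0
  have a5 : ang l 5 = ang l 4 := hA 4
  have b1 : n 1 = n 0 := hnS 0
  have b5 : n 5 = n 4 := hnS 4
  have v0 := ev_pos hlT 0
  have v1 := ev_pos hlT 1
  have v3 := ev_pos hlT 3
  have w0 := ev_lt hlT 0 2
  have w1 := ev_lt hlT 1 0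
  have w2 := ev_lt hlT 1 1
  have w3 := ev_lt hlT 1 2
  have w4 := ev_lt hlT 3 0
  have e0 : ev (ang l) 0 = ang l 0 + ang l 1 + ang l 2 - π := rfl
  have e1 : ev (ang l) 1 = ang l 0 + ang l 3 + ang l 4 - π := rfl
  have e3 : ev (ang l) 3 = ang l 2 + ang l 4 + ang l 5 - π := rfl
  have f0 : vE 0 2 = 2 := rfl
  have f1 : vE 1 0 = 0 := rfl
  have f2 : vE 1 1 = 3 := rfl
  have f3 : vE 1 2 = 4 := rfl
  have f4 : vE 3 0 = 2 := rfl
  rw [f0] at w0
  rw [f1] at w1
  rw [f2] at w2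
  rw [f3] at w3
  rw [f4] at w4
  have q := fun e => And.intro (ang_pos hlT e) (ang_lt hlT e)
  by_cases hS : n 3 = 0
  · refine mir_0 (p := ang l 0) (r := ang l 2) (s := ang l 3) (t := ang l 4) (P := n 0) (R := n 2)
      (U := n 4) (q 0) (q 2) (q 3) (q 4) (by linarith) (by linarith) (by linarith) (by linarith)
      (by linarith) (by linarith) (by linarith) (by linarith) ?_ ?_
    · rintro ⟨z0, z2, z4⟩
      apply hn
      funext i
      fin_cases i
      · exact z0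
      · exact b1.trans z0
      · exact z2
      · exact hS
      · exact z4
      · exact b5.trans z4
    · intro τ
      have := hrel τ
      rw [hS, zero_mul, add_zero] at this
      exact this
  · exact mir_S (p := ang l 0) (r := ang l 2) (s := ang l 3) (t := ang l 4) (P := n 0) (R := n 2)
      (S := n 3) (U := n 4) (q 0) (q 2) (q 3) (q 4) (by linarith) (by linarith) (by linarith)
      (by linarith) hS hrel

theorem class_rot {a b c d : E} (h : AffineIndependent ℝ ![a, b, c, d]) (hD : dehn a b c d = 0)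
    (hs : lenv a b c d ∈ Sy rot) {e f : Fin 6}
    (htr : Transcendental ℚ (lenv a b c d e / lenv a b c d f)) : Conc (lenv a b c d) := by
  rcases dicho rot rot_rot fin_rot dot_rot ang_rot (i := 1) (j := 4) (by decide) rfl h hD hs htr
    with h1 | ⟨n, hn, hnS, hg⟩
  · exact h1
  obtain ⟨l, hl⟩ : ∃ l, l = lenv a b c d := ⟨_, rfl⟩
  rw [← hl] at hs hg ⊢
  have hlT : l ∈ T := hl ▸ lenv_mem h
  have hPP := ang_mem_PP hlT
  have hA := ang_rot l hs
  have hrel := c2_rel hPP hA hnS hg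
  have a4 : ang l 4 = ang l 1 := hA 1
  have a3 : ang l 3 = ang l 2 := hA 2
  have b4 : n 4 = n 1 := hnS 1
  have b3 : n 3 = n 2 := hnS 2
  have v0 := ev_pos hlT 0
  have v2 := ev_pos hlT 2
  have w1 := ev_lt hlT 0 1
  have w2 := ev_lt hlT 0 2
  have w3 := ev_lt hlT 2 0
  have w4 := ev_lt hlT 2 1
  have e0 : ev (ang l) 0 = ang l 0 + ang l 1 + ang l 2 - π := rfl
  have e2 : ev (ang l) 2 = ang l 1 + ang l 3 + ang l 5 - π := rfl
  have f1 : vE 0 1 = 1 := rfl
  have f2 : vE 0 2 = 2 := rfl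
  have f3 : vE 2 0 = 1 := rfl
  have f4 : vE 2 1 = 3 := rfl
  rw [f1] at w1
  rw [f2] at w2
  rw [f3] at w3
  rw [f4] at w4
  have q := fun e => And.intro (ang_pos hlT e) (ang_lt hlT e)
  refine c2_edges hlT hs (c2_trig (q 0) (q 1) (q 2) (q 5) (by linarith) (by linarith)
    (by linarith) (by linarith) (by linarith) (by linarith) (n0 := n 0) (n1 := n 1) (n2 := n 2)
    (n5 := n 5) ?_ hrel)
  rintro ⟨z0, z1, z2, z5⟩
  apply hn
  funext i
  fin_cases i
  · exact z0
  · exact z1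
  · exact z2
  · exact b3.trans z2
  · exact b4.trans z1
  · exact z5

theorem transc_relab {q : Equiv.Perm (Fin 4)} {l : V6}
    (h : ∃ e f : Fin 6, Transcendental ℚ (l e / l f)) :
    ∃ e f : Fin 6, Transcendental ℚ (relab q l e / relab q l f) := by
  have key : ∀ (p : Equiv.Perm (Fin 4)) (v : V6) (e : Fin 6), ∃ e', relab p v e = v e' := by
    intro p v e
    have h1 : ∀ i j : Fin 4, i ≠ j → ∃ e', dm v i j = v e' := by
      intro i j hij
      fin_cases i <;> fin_cases j <;>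
        first
          | exact absurd rfl hij
          | exact ⟨0, rfl⟩
          | exact ⟨1, rfl⟩
          | exact ⟨2, rfl⟩
          | exact ⟨3, rfl⟩
          | exact ⟨4, rfl⟩
          | exact ⟨5, rfl⟩
    have h2 : ∀ i j : Fin 4, i ≠ j → ∃ e', dm v (p i) (p j) = v e' := fun i j hij =>
      h1 _ _ fun h3 => hij (p.injective h3)
    fin_cases e
    · exact h2 0 1 (by decide)
    · exact h2 0 2 (by decide)
    · exact h2 0 3 (by decide)
    · exact h2 1 2 (by decide)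
    · exact h2 1 3 (by decide)
    · exact h2 2 3 (by decide)
  obtain ⟨e, f, h⟩ := h
  obtain ⟨e', he⟩ := key q⁻¹ (relab q l) e
  obtain ⟨f', hf⟩ := key q⁻¹ (relab q l) f
  rw [relab_inv] at he hf
  exact ⟨e', f', by rw [← he, ← hf]; exact h⟩

theorem sym_class {a b c d : E} (h : AffineIndependent ℝ ![a, b, c, d]) (hD : dehn a b c d = 0)
    {p : Equiv.Perm (Fin 4)} (hp : p ≠ 1) (hs : relab p (lenv a b c d) = lenv a b c d)
    {e f : Fin 6} (htr : Transcendental ℚ (lenv a b c d e / lenv a b c d f)) :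
    Conc (lenv a b c d) := by
  obtain ⟨q, hq⟩ := sym_reduce hp hs
  apply Conc.of_relab (q := q)
  let P : Fin 4 → E := ![a, b, c, d]
  have hP : AffineIndependent ℝ P := h
  have hP' : AffineIndependent ℝ (fun i => P (q i)) :=
    hP.comp_embedding q.toEmbedding
  have h4 : AffineIndependent ℝ ![P (q 0), P (q 1), P (q 2), P (q 3)] := by
    convert hP' using 1
    funext i
    fin_cases i <;> rfl
  have hl : lenv (P (q 0)) (P (q 1)) (P (q 2)) (P (q 3)) = relab q (lenv a b c d) :=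
    lenv_perm P q
  have hD' : dehn (P (q 0)) (P (q 1)) (P (q 2)) (P (q 3)) = 0 := by
    refine dehn_perm (fun i => P (q i)) hP' q⁻¹ ?_
    have hi : ∀ i, q (q⁻¹ i) = i := fun i => q.apply_symm_apply i
    change dehn (P (q (q⁻¹ 0))) (P (q (q⁻¹ 1))) (P (q (q⁻¹ 2))) (P (q (q⁻¹ 3))) = 0
    rw [hi, hi, hi, hi]
    exact hD
  obtain ⟨e', f', htr'⟩ := transc_relab (q := q) ⟨e, f, htr⟩
  rw [← hl] at hq htr' ⊢
  rcases hq with hq | hq
  · exact class_mir h4 hD' hq htr'
  · exact class_rot h4 hD' hq htr'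

end Pool.Agent.helper37.SY
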