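import Pool.Agent.helper37.NL.Arc

/-!
SY-01 (Arc).  Version of `NL.exists_arc` which keeps the data and the equalities between the edges.

PROOF.  Copy the proof of `exists_arc` in `NL/Arc.lean` (it is about 150 lines) and adapt it:
* The data `k, s, r` are now given (there they came from `shapes_data`).
* In the construction `γ t = (∑ i, F (u t) i)⁻¹ • F (u t)`, where `F u ∈ T` and the data hold for `F u` by
  `data_const` (`hdat`).  So `γ t ∈ T` (`smul_mem_T`), the sum is `1`, `γ t ∈ span` (`Submodule.smul_mem`)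
  and the angles are those of `F (u t)` (`ang_smul`).
* NEW: `∀ i j, l i = l j → γ t i = γ t j`: one has `l' i = l' j`, and
  `AF.eq_zero` for the difference `F · i - F · j` (`AF.sub hG (hAF i) (hAF j)`, value `0` at `u0`) gives
  `F u i = F u j` on the ball (exactly as `hF1`, `hFf` in the old proof).
* `deriv γ t ≠ 0` is proved as before.
The private lemma `arc_alg` of that file has to be copied (rename it, for example `arc2_alg`).
-/

namespace Pool.Agent.helper37.SY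

open Real Pool.Agent.helper37.NP Pool.Agent.helper37.NL Pool.Agent.Helper93.Tet

private theorem arc2_alg {l : V6} (hl : l ∈ T) {k : ℕ} (s : Fin k → Fin 6 → ℤ) (r : Fin k → ℚ)
    (hs : LinearIndependent ℝ (fun i => iv (s i)))
    (hsp : l ∈ Submodule.span ℝ (Set.range fun i => iv (s i)))
    (hr : ∀ i, dotp (iv (s i)) (ang l) = π * (r i : ℝ)) (h0 : l 0 = 1) {f : Fin 6}
    (hf : Transcendental ℚ (l f)) (i : Fin 6) :
    IsAlgebraic (Algebra.adjoin ℚ (Set.range fun _ : Fin 1 => l f)) (l i) := by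
  classical
  have hrange : (Set.range fun _ : Fin 1 => l f) = l '' {f} := by
    rw [Set.range_const, Set.image_singleton]
  rw [hrange]
  by_cases hi : i = f
  · rw [hi]
    exact isAlgebraic_algebraMap
      (⟨l f, Algebra.subset_adjoin ⟨f, rfl, rfl⟩⟩ : Algebra.adjoin ℚ (l '' {f}))
  · by_contra hcon
    have hind : AlgebraicIndepOn ℚ l ({f} : Set (Fin 6)) := by
      have : AlgebraicIndependent ℚ (fun x : ({f} : Set (Fin 6)) => l x) :=
        algebraicIndependent_unique_type_iff.2 hf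
      exact this
    have h1 := AlgebraicIndepOn.insert hind hcon
    have hif : i ∈ insert i ({f} : Set (Fin 6)) := Set.mem_insert _ _
    have hff : f ∈ insert i ({f} : Set (Fin 6)) := Set.mem_insert_of_mem _ rfl
    have hinj : Function.Injective
        (![⟨f, hff⟩, ⟨i, hif⟩] : Fin 2 → (insert i ({f} : Set (Fin 6)) : Set (Fin 6))) := by
      intro a b hab
      fin_cases a <;> fin_cases b <;> simp at hab ⊢
      · exact hi hab.symm
      · exact hi hab
    have h2 := AlgebraicIndependent.comp h1 _ hinj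
    refine not_algInd hl s r hs hsp hr f i 0 ?_
    rw [h0, div_one, div_one]
    convert h2 using 1
    funext a
    fin_cases a <;> rfl

theorem exists_arc2 {l : V6} (hlT : l ∈ T) (hl1 : ∑ i, l i = 1) {k : ℕ} (s : Fin k → Fin 6 → ℤ)
    (r : Fin k → ℚ) (hs : LinearIndependent ℝ (fun i => iv (s i)))
    (hsp : l ∈ Submodule.span ℝ (Set.range fun i => iv (s i)))
    (hr : ∀ i, dotp (iv (s i)) (ang l) = π * (r i : ℝ)) {e : Fin 6}
    (he : Transcendental ℚ (l e)) :
    ∃ γ : ℝ → V6, γ 0 = l ∧ AnalyticOnNhd ℝ γ (Set.Ioo (-1) 1) ∧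
      (∀ t ∈ Set.Ioo (-1 : ℝ) 1, γ t ∈ T ∧ ∑ i, γ t i = 1 ∧
        γ t ∈ Submodule.span ℝ (Set.range fun i => iv (s i)) ∧
        (∀ i, dotp (iv (s i)) (ang (γ t)) = π * (r i : ℝ)) ∧
        ∀ i j, l i = l j → γ t i = γ t j) ∧
      ∀ t ∈ Set.Ioo (-1 : ℝ) 1, deriv γ t ≠ 0 := by
  classical
  have hl0 : 0 < l 0 := T_pos hlT 0
  obtain ⟨l', hl'⟩ : ∃ l' : V6, l' = (l 0)⁻¹ • l := ⟨_, rfl⟩
  have hl'T : l' ∈ T := hl' ▸ smul_mem_T hlT (inv_pos.2 hl0)
  have hl'0 : l' 0 = 1 := by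
    rw [hl']
    exact inv_mul_cancel₀ hl0.ne'
  have hsp' : l' ∈ Submodule.span ℝ (Set.range fun i => iv (s i)) := by
    rw [hl']
    exact Submodule.smul_mem _ _ hsp
  have hr' : ∀ i, dotp (iv (s i)) (ang l') = π * (r i : ℝ) := by
    intro i
    rw [hl', ang_smul (inv_pos.2 hl0)]
    exact hr i
  have hsum : ∑ i, l' i = (l 0)⁻¹ := by
    have h : ∀ i, l' i = (l 0)⁻¹ * l i := fun i => by rw [hl']; rfl
    simp_rw [h]
    rw [← Finset.mul_sum, hl1, mul_one]
  have hback : (∑ i, l' i)⁻¹ • l' = l := by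
    rw [hsum, inv_inv, hl', smul_smul, mul_inv_cancel₀ hl0.ne', one_smul]
  obtain ⟨f, hf⟩ : ∃ f, Transcendental ℚ (l' f) := by
    by_contra hcon
    have halg : ∀ f, IsAlgebraic ℚ (l' f) := fun f => by
      by_contra h
      exact hcon ⟨f, h⟩
    apply he
    have h1 : l e = (∑ i, l' i)⁻¹ * l' e := by
      conv_lhs => rw [← hback]
      rfl
    rw [h1]
    have h2 : IsAlgebraic ℚ (∑ i, l' i) :=
      Finset.sum_induction _ (fun x => IsAlgebraic ℚ x) (fun _ _ ha hb => ha.add hb)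
        isAlgebraic_zero fun i _ => halg i
    exact h2.inv.mul (halg e)
  obtain ⟨u0, hu0⟩ : ∃ u0 : Fin 1 → ℝ, u0 = fun _ => l' f := ⟨_, rfl⟩
  have hgen : AlgebraicIndependent ℚ u0 := by
    rw [hu0]
    exact algebraicIndependent_unique_type_iff.2 hf
  have halg : ∀ i, IsAlgebraic (Algebra.adjoin ℚ (Set.range u0)) (l' i) := by
    intro i
    rw [hu0]
    exact arc2_alg hl'T s r hs hsp' hr' hl'0 hf i
  choose ε ζ hε hζ0 hζa hζF using fun i => exists_branch hgen (halg i)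
  let F : (Fin 1 → ℝ) → V6 := fun u i => ζ i u
  have hF0 : F u0 = l' := by
    funext i
    exact hζ0 i
  have hcont : ContinuousAt F u0 := by
    refine continuousAt_pi.2 fun i => ?_
    exact (hζa i u0 (Metric.mem_ball_self (hε i))).continuousAt
  have hT : F ⁻¹' T ∈ nhds u0 := by
    apply hcont.preimage_mem_nhds
    rw [hF0]
    exact isOpen_T.mem_nhds hl'T
  obtain ⟨δ, hδ, hball⟩ := Metric.mem_nhds_iff.1 hT
  obtain ⟨η, hη, hηi⟩ : ∃ η : ℝ, 0 < η ∧ ∀ i, η ≤ ε i := by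
    refine ⟨Finset.univ.inf' Finset.univ_nonempty ε, ?_, fun i => ?_⟩
    · rw [Finset.lt_inf'_iff]
      exact fun i _ => hε i
    · exact Finset.inf'_le _ (Finset.mem_univ i)
  obtain ⟨ρ, hρ⟩ : ∃ ρ : ℝ, ρ = min δ η := ⟨_, rfl⟩
  have hρ0 : 0 < ρ := hρ ▸ lt_min hδ hη
  have hρi : ∀ i, Metric.ball u0 ρ ⊆ Metric.ball u0 (ε i) := fun i =>
    Metric.ball_subset_ball (hρ ▸ (min_le_right _ _).trans (hηi i))
  have hρT : ∀ u ∈ Metric.ball u0 ρ, F u ∈ T := fun u hu =>
    hball (Metric.ball_subset_ball (hρ ▸ min_le_left _ _) hu)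
  have hG : Gen (Metric.ball u0 ρ) u0 :=
    ⟨Metric.isOpen_ball, convex_ball _ _, Metric.mem_ball_self hρ0, hgen⟩
  have hAF : ∀ i, AF (Metric.ball u0 ρ) (fun u => (F u i : ℂ)) := fun i => (hζF i).mono (hρi i)
  have hAn : ∀ i, AnalyticOnNhd ℝ (fun u => F u i) (Metric.ball u0 ρ) :=
    fun i => (hζa i).mono (hρi i)
  have hF1 : ∀ u ∈ Metric.ball u0 ρ, F u 0 = 1 := by
    intro u hu
    have h1 := (AF.sub hG (hAF 0) (AF.const hG (z := 1) isAlgebraic_one)).eq_zero hG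
      (by rw [hF0, hl'0]; simp) u hu
    have h2 : ((F u 0 : ℝ) : ℂ) = 1 := sub_eq_zero.1 h1
    exact_mod_cast h2
  have hFf : ∀ u ∈ Metric.ball u0 ρ, F u f = u 0 := by
    intro u hu
    have h1 := (AF.sub hG (hAF f) (AF.coord hG 0)).eq_zero hG
      (by rw [hF0]; simp [hu0]) u hu
    have h2 : ((F u f : ℝ) : ℂ) = (u 0 : ℂ) := sub_eq_zero.1 h1
    exact_mod_cast h2
  have hdat := data_const hG hρT hAn hAF s r hs (hF0 ▸ hsp') (fun i => by rw [hF0]; exact hr' i)
  let u : ℝ → (Fin 1 → ℝ) := fun t _ => l' f + t * ρ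
  have hu : ∀ t ∈ Set.Ioo (-1 : ℝ) 1, u t ∈ Metric.ball u0 ρ := by
    intro t ht
    rw [Metric.mem_ball, dist_pi_lt_iff hρ0]
    intro b
    rw [hu0, Real.dist_eq]
    change |l' f + t * ρ - l' f| < ρ
    have h1 : |t| < 1 := abs_lt.2 ht
    rw [add_sub_cancel_left, abs_mul, abs_of_pos hρ0]
    nlinarith
  have hu00 : u 0 = u0 := by
    rw [hu0]
    funext b
    change l' f + 0 * ρ = l' f
    ring
  have huan : ∀ t, AnalyticAt ℝ u t := by
    intro t
    rw [analyticAt_pi_iff]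
    intro b
    change AnalyticAt ℝ (fun t : ℝ => l' f + t * ρ) t
    fun_prop
  have hpos : ∀ t ∈ Set.Ioo (-1 : ℝ) 1, 0 < ∑ i, F (u t) i := fun t ht =>
    Finset.sum_pos (fun i _ => T_pos (hρT _ (hu t ht)) i) Finset.univ_nonempty
  have hcomp : ∀ i, ∀ t ∈ Set.Ioo (-1 : ℝ) 1, AnalyticAt ℝ (fun t => F (u t) i) t :=
    fun i t ht => AnalyticAt.fun_comp (hAn i (u t) (hu t ht)) (huan t)
  have hγa : ∀ t ∈ Set.Ioo (-1 : ℝ) 1,
      AnalyticAt ℝ (fun t => (∑ i, F (u t) i)⁻¹ • F (u t)) t := by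
    intro t ht
    rw [analyticAt_pi_iff]
    intro j
    change AnalyticAt ℝ (fun t => (∑ i, F (u t) i)⁻¹ * F (u t) j) t
    refine AnalyticAt.mul (AnalyticAt.inv ?_ (hpos t ht).ne') (hcomp j t ht)
    exact Finset.analyticAt_fun_sum _ fun i _ => hcomp i t ht
  refine ⟨fun t => (∑ i, F (u t) i)⁻¹ • F (u t), ?_, hγa, ?_, ?_⟩
  · change (∑ i, F (u 0) i)⁻¹ • F (u 0) = l
    rw [hu00, hF0]
    exact hback
  · intro t ht
    obtain ⟨h1, h2⟩ := hdat _ (hu t ht)
    refine ⟨smul_mem_T (hρT _ (hu t ht)) (inv_pos.2 (hpos t ht)), ?_,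
      Submodule.smul_mem _ _ h1, fun i => ?_, fun i j hij => ?_⟩
    · change ∑ i, (∑ i, F (u t) i)⁻¹ * F (u t) i = 1
      rw [← Finset.mul_sum]
      exact inv_mul_cancel₀ (hpos t ht).ne'
    · change dotp (iv (s i)) (ang ((∑ i, F (u t) i)⁻¹ • F (u t))) = π * (r i : ℝ)
      rw [ang_smul (inv_pos.2 (hpos t ht))]
      exact h2 i
    · change (∑ i, F (u t) i)⁻¹ * F (u t) i = (∑ i, F (u t) i)⁻¹ * F (u t) j
      have hl'ij : l' i = l' j := by
        rw [hl']
        change (l 0)⁻¹ * l i = (l 0)⁻¹ * l j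
        rw [hij]
      have h3 := (AF.sub hG (hAF i) (hAF j)).eq_zero hG
        (by simp only [hF0, hl'ij, sub_self]) (u t) (hu t ht)
      have h4 : ((F (u t) i : ℝ) : ℂ) = (F (u t) j : ℂ) := sub_eq_zero.1 h3
      have h5 : F (u t) i = F (u t) j := by exact_mod_cast h4
      rw [h5]
  · intro t ht h0
    have hd := (hγa t ht).differentiableAt.hasDerivAt
    rw [h0] at hd
    have hdf := (hasDerivAt_pi.1 hd) f
    have hd0 := (hasDerivAt_pi.1 hd) 0
    have hprod := ((hasDerivAt_id t).mul_const ρ |>.const_add (l' f)).mul hd0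
    have heq : (fun t => ((∑ i, F (u t) i)⁻¹ • F (u t)) f) =ᶠ[nhds t]
        fun t => (l' f + id t * ρ) * ((∑ i, F (u t) i)⁻¹ • F (u t)) 0 := by
      filter_upwards [isOpen_Ioo.mem_nhds ht] with τ hτ
      change (∑ i, F (u τ) i)⁻¹ * F (u τ) f
        = (l' f + τ * ρ) * ((∑ i, F (u τ) i)⁻¹ * F (u τ) 0)
      rw [hF1 _ (hu τ hτ), hFf _ (hu τ hτ), mul_one, mul_comm]
    have huniq := hdf.unique (hprod.congr_of_eventuallyEq heq)
    have hγ0 : 0 < ((∑ i, F (u t) i)⁻¹ • F (u t)) 0 := by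
      change 0 < (∑ i, F (u t) i)⁻¹ * F (u t) 0
      rw [hF1 _ (hu t ht), mul_one]
      exact inv_pos.2 (hpos t ht)
    simp only [Pi.zero_apply, mul_zero, add_zero, one_mul] at huniq
    have := mul_pos hρ0 hγ0
    linarith

end Pool.Agent.helper37.SY
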