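import Pool.Agent.helper37.NL.Shp

/-!
SY project (MP_6c15a0_gt): tetrahedra with a nontrivial symmetry, Dehn invariant zero and
edge quotients which are not all algebraic.

GOAL (`sym_class`, file `SY/Fin`): up to relabelling the vertices and scaling such a tetrahedron is
`F1v m` (`m > 4`), `H1v y` (`1 < y < 2`, the tetrahedra of Hill) or `H2v x` (`|x| < 1/2`).

Edges are numbered `ab, ac, ad, bc, bd, cd = 0, .., 5`.  `mir` is the vertex transposition `(b c)`
(edges `0, 1` and `4, 5` are exchanged), `rot` is the vertex permutation `(a b)(c d)`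
(edges `1, 4` and `2, 3` are exchanged).
-/

namespace Pool.Agent.helper37.SY

open Real Pool.Agent.helper37.NP Pool.Agent.helper37.NL Pool.Agent.Helper93.Tet

/-- the tetrahedra of Hill -/
noncomputable def H1v (y : ℝ) : V6 := ![√(3 * y ^ 2 - 3), y, 1, 1, y, 1]

/-- the second family with a twofold rotation -/
noncomputable def H2v (x : ℝ) : V6 :=
  ![2 - 2 * x, √(3 - 3 * x ^ 2) - x, √(3 - 3 * x ^ 2) + x, √(3 - 3 * x ^ 2) + x,
    √(3 - 3 * x ^ 2) - x, 2 + 2 * x]

/-- the dihedral angles of `H1v (1 / cos (c/2))` -/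
noncomputable def h1 (c : ℝ) : V6 := ![π / 3, π / 2, π / 2 - c / 2, π / 2 - c / 2, π / 2, c]

/-- the dihedral angles of `H2v (sin u)` -/
noncomputable def h2 (u : ℝ) : V6 :=
  ![π / 2 + u, π / 3 - u, π / 3 + u, π / 3 + u, π / 3 - u, π / 2 - u]

/-- edge permutation of the vertex transposition `(b c)` -/
def mir : Fin 6 → Fin 6 := ![1, 0, 2, 3, 5, 4]

/-- edge permutation of the vertex permutation `(a b)(c d)` -/
def rot : Fin 6 → Fin 6 := ![0, 4, 3, 2, 1, 5]

/-- the vectors which are invariant under a permutation of the edges -/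
def Sy (ρ : Fin 6 → Fin 6) : Submodule ℝ V6 where
  carrier := {v | ∀ i, v (ρ i) = v i}
  add_mem' := by
    intro x y hx hy i
    simp only [Pi.add_apply, hx i, hy i]
  zero_mem' := by intro i; rfl
  smul_mem' := by
    intro k x hx i
    simp only [Pi.smul_apply, hx i]

/-- the conclusion of the classification -/
def Conc (l : V6) : Prop :=
  ∃ (q : Equiv.Perm (Fin 4)) (k : ℝ), 0 < k ∧
    ((∃ m : ℝ, 4 < m ∧ relab q l = k • F1v m) ∨ (∃ y : ℝ, 1 < y ∧ y < 2 ∧ relab q l = k • H1v y) ∨
      ∃ x : ℝ, |x| < 1 / 2 ∧ relab q l = k • H2v x)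

end Pool.Agent.helper37.SY
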