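import Pool.Agent.helper37.SY.Defs

/-!
SY-12 (Hla).  The angle vectors of Hill's tetrahedra.  (author: helper58)

PROOF.  `S = sin (c/2)`, `C = cos (c/2)`, `0 < S`, `1/2 < C < 1`, `S² + C² = 1`,
`g = 4 C² - 1 = 3 - 4 S² > 0`.  `cosv (h1 c) = ![1/2, 0, S, S, 0, 1 - 2 S²]`
(`cos (π/2 - c/2) = sin (c/2)`, `cos c = 1 - 2 sin² (c/2)`).  With `x` this vector:
`mi x = ![g/4, g/4, g S², g S²]`, `cf x = ![g/4, g S/2, g S/2, g S/2, g S/2, g S²]`, `gd x = 0` (all `ring` /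
`linear_combination` with `S² + C² = 1`).  All angles are in `(0, π)`.
`lam (h1 c) = ![√((g S²)(g S²)) √3/2, √((g/4)(g S²)), √((g/4)(g S²)) C, same, same, √((g/4)(g/4)) 2 S C]`
`= (g S C / 2) • H1v (1/C)`; here `sin (π/2 - c/2) = C`, `sin c = 2 S C`,
`√(3 (1/C)² - 3) = √3 S / C`.  So `k = g S C / 2`.
-/

namespace Pool.Agent.helper37.SY

open Real Pool.Agent.helper37.NP Pool.Agent.helper37.NL Pool.Agent.Helper93.Tet

private theorem cosv_h1 (c : ℝ) : cosv (h1 c) =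
    ![1 / 2, 0, sin (c / 2), sin (c / 2), 0, 1 - 2 * sin (c / 2) ^ 2] := by
  have h5 : cos c = 1 - 2 * sin (c / 2) ^ 2 := by
    have h := cos_two_mul (c / 2)
    rw [show 2 * (c / 2) = c by ring] at h
    have h2 := sin_sq_add_cos_sq (c / 2)
    rw [h]
    linear_combination 2 * h2
  funext e
  fin_cases e
  · exact cos_pi_div_three
  · exact cos_pi_div_two
  · exact cos_pi_div_two_sub _
  · exact cos_pi_div_two_sub _
  · exact cos_pi_div_two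
  · exact h5

private theorem mi_h1 (S : ℝ) : mi ![1 / 2, 0, S, S, 0, 1 - 2 * S ^ 2] =
    ![(3 - 4 * S ^ 2) / 4, (3 - 4 * S ^ 2) / 4, (3 - 4 * S ^ 2) * S ^ 2,
      (3 - 4 * S ^ 2) * S ^ 2] := by
  funext v
  fin_cases v
  · show 1 - (1 / 2 : ℝ) ^ 2 - 0 ^ 2 - S ^ 2 - 2 * (1 / 2) * 0 * S = (3 - 4 * S ^ 2) / 4
    ring
  · show 1 - (1 / 2 : ℝ) ^ 2 - S ^ 2 - 0 ^ 2 - 2 * (1 / 2) * S * 0 = (3 - 4 * S ^ 2) / 4
    ring
  · show 1 - (0 : ℝ) ^ 2 - S ^ 2 - (1 - 2 * S ^ 2) ^ 2 - 2 * 0 * S * (1 - 2 * S ^ 2) =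
      (3 - 4 * S ^ 2) * S ^ 2
    ring
  · show 1 - S ^ 2 - (0 : ℝ) ^ 2 - (1 - 2 * S ^ 2) ^ 2 - 2 * S * 0 * (1 - 2 * S ^ 2) =
      (3 - 4 * S ^ 2) * S ^ 2
    ring

private theorem cf_h1 (S : ℝ) : cf ![1 / 2, 0, S, S, 0, 1 - 2 * S ^ 2] =
    ![(3 - 4 * S ^ 2) / 4, (3 - 4 * S ^ 2) * S / 2, (3 - 4 * S ^ 2) * S / 2,
      (3 - 4 * S ^ 2) * S / 2, (3 - 4 * S ^ 2) * S / 2, (3 - 4 * S ^ 2) * S ^ 2] := by
  funext v
  fin_cases v
  · show (1 - 2 * S ^ 2) * (1 - (1 / 2 : ℝ) ^ 2) + 0 * S + S * 0 + (1 / 2) * (0 * 0 + S * S) =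
      (3 - 4 * S ^ 2) / 4
    ring
  · show 0 * (1 - (0 : ℝ) ^ 2) + (1 - 2 * S ^ 2) * S + S * (1 / 2) +
      0 * ((1 - 2 * S ^ 2) * (1 / 2) + S * S) = (3 - 4 * S ^ 2) * S / 2
    ring
  · show S * (1 - S ^ 2) + (1 - 2 * S ^ 2) * 0 + 0 * (1 / 2) +
      S * ((1 - 2 * S ^ 2) * (1 / 2) + 0 * 0) = (3 - 4 * S ^ 2) * S / 2
    ring
  · show S * (1 - S ^ 2) + (1 - 2 * S ^ 2) * 0 + 0 * (1 / 2) +
      S * ((1 - 2 * S ^ 2) * (1 / 2) + 0 * 0) = (3 - 4 * S ^ 2) * S / 2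
    ring
  · show 0 * (1 - (0 : ℝ) ^ 2) + (1 - 2 * S ^ 2) * S + S * (1 / 2) +
      0 * ((1 - 2 * S ^ 2) * (1 / 2) + S * S) = (3 - 4 * S ^ 2) * S / 2
    ring
  · show (1 / 2) * (1 - (1 - 2 * S ^ 2) ^ 2) + 0 * S + S * 0 + (1 - 2 * S ^ 2) * (0 * 0 + S * S) =
      (3 - 4 * S ^ 2) * S ^ 2
    ring

private theorem gd_h1 (S : ℝ) : gd ![1 / 2, 0, S, S, 0, 1 - 2 * S ^ 2] = 0 := by
  show 1 - ((1 / 2 : ℝ) ^ 2 + 0 ^ 2 + S ^ 2 + S ^ 2 + 0 ^ 2 + (1 - 2 * S ^ 2) ^ 2)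
    - 2 * ((1 / 2) * 0 * S + (1 / 2) * S * 0 + 0 * S * (1 - 2 * S ^ 2) + S * 0 * (1 - 2 * S ^ 2))
    + ((1 / 2) * (1 - 2 * S ^ 2)) ^ 2 + (0 * 0) ^ 2 + (S * S) ^ 2
    - 2 * ((1 / 2) * (1 - 2 * S ^ 2) * (0 * 0) + (1 / 2) * (1 - 2 * S ^ 2) * (S * S) +
      0 * 0 * (S * S)) = 0
  ring

theorem h1_mem {c : ℝ} (hc : 0 < c) (hc' : c < 2 * π / 3) : h1 c ∈ PP ∧ gd (cosv (h1 c)) = 0 ∧
    ∃ k : ℝ, 0 < k ∧ lam (h1 c) = k • H1v (1 / cos (c / 2)) := by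
  have hpi := pi_pos
  set S : ℝ := sin (c / 2) with hS
  set C : ℝ := cos (c / 2) with hC
  have hSC : S ^ 2 + C ^ 2 = 1 := sin_sq_add_cos_sq (c / 2)
  have hS0 : 0 < S := sin_pos_of_pos_of_lt_pi (by linarith) (by linarith)
  have hC2 : 1 / 2 < C := by
    rw [hC, ← cos_pi_div_three]
    exact cos_lt_cos_of_nonneg_of_le_pi (by linarith) (by linarith) (by linarith)
  have hC0 : 0 < C := by linarith
  have hg : 0 < 3 - 4 * S ^ 2 := by nlinarith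
  have hcos := cosv_h1 c
  rw [← hS] at hcos
  have hsin : sin c = 2 * S * C := by
    have h := sin_two_mul (c / 2)
    rw [show 2 * (c / 2) = c by ring] at h
    exact h
  refine ⟨⟨?_, ?_, ?_⟩, ?_, ?_⟩
  · intro e
    fin_cases e
    · show 0 < π / 3 ∧ π / 3 < π
      constructor <;> linarith
    · show 0 < π / 2 ∧ π / 2 < π
      constructor <;> linarith
    · show 0 < π / 2 - c / 2 ∧ π / 2 - c / 2 < π
      constructor <;> linarith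
    · show 0 < π / 2 - c / 2 ∧ π / 2 - c / 2 < π
      constructor <;> linarith
    · show 0 < π / 2 ∧ π / 2 < π
      constructor <;> linarith
    · show 0 < c ∧ c < π
      constructor <;> linarith
  · rw [hcos, mi_h1]
    intro v
    fin_cases v
    · show 0 < (3 - 4 * S ^ 2) / 4
      positivity
    · show 0 < (3 - 4 * S ^ 2) / 4
      positivity
    · show 0 < (3 - 4 * S ^ 2) * S ^ 2
      positivity
    · show 0 < (3 - 4 * S ^ 2) * S ^ 2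
      positivity
  · rw [hcos, cf_h1]
    intro v
    fin_cases v
    · show 0 < (3 - 4 * S ^ 2) / 4
      positivity
    · show 0 < (3 - 4 * S ^ 2) * S / 2
      positivity
    · show 0 < (3 - 4 * S ^ 2) * S / 2
      positivity
    · show 0 < (3 - 4 * S ^ 2) * S / 2
      positivity
    · show 0 < (3 - 4 * S ^ 2) * S / 2
      positivity
    · show 0 < (3 - 4 * S ^ 2) * S ^ 2
      positivity
  · rw [hcos, gd_h1]
  · refine ⟨(3 - 4 * S ^ 2) * S * C / 2, by positivity, ?_⟩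
    have hm : mi (cosv (h1 c)) = ![(3 - 4 * S ^ 2) / 4, (3 - 4 * S ^ 2) / 4,
        (3 - 4 * S ^ 2) * S ^ 2, (3 - 4 * S ^ 2) * S ^ 2] := by rw [hcos, mi_h1]
    have m0 : mi (cosv (h1 c)) 0 = (3 - 4 * S ^ 2) / 4 := by rw [hm]; rfl
    have m1 : mi (cosv (h1 c)) 1 = (3 - 4 * S ^ 2) / 4 := by rw [hm]; rfl
    have m2 : mi (cosv (h1 c)) 2 = (3 - 4 * S ^ 2) * S ^ 2 := by rw [hm]; rfl
    have m3 : mi (cosv (h1 c)) 3 = (3 - 4 * S ^ 2) * S ^ 2 := by rw [hm]; rfl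
    have hCinv : C * (1 / C) = 1 := by
      rw [mul_one_div, div_self hC0.ne']
    have r1 : √((3 - 4 * S ^ 2) / 4 * ((3 - 4 * S ^ 2) * S ^ 2)) = (3 - 4 * S ^ 2) * S / 2 := by
      rw [show (3 - 4 * S ^ 2) / 4 * ((3 - 4 * S ^ 2) * S ^ 2) = ((3 - 4 * S ^ 2) * S / 2) ^ 2 by
        ring]
      exact sqrt_sq (by positivity)
    have r2 : √((3 - 4 * S ^ 2) * S ^ 2 * ((3 - 4 * S ^ 2) * S ^ 2)) = (3 - 4 * S ^ 2) * S ^ 2 :=
      sqrt_mul_self (by positivity)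
    have r3 : √((3 - 4 * S ^ 2) / 4 * ((3 - 4 * S ^ 2) / 4)) = (3 - 4 * S ^ 2) / 4 :=
      sqrt_mul_self (by positivity)
    have r4 : √(3 * (1 / C) ^ 2 - 3) = √3 * (S / C) := by
      have : 3 * (1 / C) ^ 2 - 3 = 3 * (S / C) ^ 2 := by
        have hC2' : C ^ 2 ≠ 0 := by positivity
        rw [div_pow, div_pow, one_pow]
        field_simp
        linear_combination -hSC
      rw [this, sqrt_mul (by norm_num), sqrt_sq (by positivity)]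
    funext e
    fin_cases e
    · show √(mi (cosv (h1 c)) 2 * mi (cosv (h1 c)) 3) * sin (π / 3) =
        (3 - 4 * S ^ 2) * S * C / 2 * √(3 * (1 / C) ^ 2 - 3)
      rw [m2, m3, r2, r4, sin_pi_div_three]
      field_simp
    · show √(mi (cosv (h1 c)) 1 * mi (cosv (h1 c)) 3) * sin (π / 2) =
        (3 - 4 * S ^ 2) * S * C / 2 * (1 / C)
      rw [m1, m3, r1, sin_pi_div_two]
      linear_combination (-(3 - 4 * S ^ 2) * S / 2) * hCinv
    · show √(mi (cosv (h1 c)) 1 * mi (cosv (h1 c)) 2) * sin (π / 2 - c / 2) =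
        (3 - 4 * S ^ 2) * S * C / 2 * 1
      rw [m1, m2, r1, sin_pi_div_two_sub, ← hC]
      ring
    · show √(mi (cosv (h1 c)) 0 * mi (cosv (h1 c)) 3) * sin (π / 2 - c / 2) =
        (3 - 4 * S ^ 2) * S * C / 2 * 1
      rw [m0, m3, r1, sin_pi_div_two_sub, ← hC]
      ring
    · show √(mi (cosv (h1 c)) 0 * mi (cosv (h1 c)) 2) * sin (π / 2) =
        (3 - 4 * S ^ 2) * S * C / 2 * (1 / C)
      rw [m0, m2, r1, sin_pi_div_two]
      linear_combination (-(3 - 4 * S ^ 2) * S / 2) * hCinv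
    · show √(mi (cosv (h1 c)) 0 * mi (cosv (h1 c)) 1) * sin c =
        (3 - 4 * S ^ 2) * S * C / 2 * 1
      rw [m0, m1, r3, hsin]
      ring

/-- conversely, if `h1 c` is in `PP` then `0 < c < 2π/3`: `mi x 0 = (4 cos² (c/2) - 1)/4 > 0` -/
theorem h1_range {c : ℝ} (h : h1 c ∈ PP) : 0 < c ∧ c < 2 * π / 3 := by
  have hpi := pi_pos
  obtain ⟨h1', h2, -⟩ := h
  have h5 : 0 < c ∧ c < π := h1' 5
  refine ⟨h5.1, ?_⟩
  by_contra hlt
  push Not at hlt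
  have h0 := h2 0
  rw [cosv_h1, mi_h1] at h0
  have h0' : 0 < (3 - 4 * sin (c / 2) ^ 2) / 4 := h0
  have hC : cos (c / 2) ≤ 1 / 2 := by
    rw [← cos_pi_div_three]
    exact cos_le_cos_of_nonneg_of_le_pi (by linarith) (by linarith) (by linarith)
  have hC0 : 0 ≤ cos (c / 2) := cos_nonneg_of_neg_pi_div_two_le_of_le (by linarith) (by linarith)
  have hSC := sin_sq_add_cos_sq (c / 2)
  nlinarith

end Pool.Agent.helper37.SY
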