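import Pool.Agent.helper37.SY.Syd
import Pool.Agent.helper37.SY.Arc
import Pool.Agent.helper37.NP.BGr

/-!
SY-05 (Lin).  A symmetric shape with symmetric data of length `k ≥ 3` lies on a line of angles.

PROOF.  `exists_arc2` gives `γ`.  For `t ∈ (-1, 1)` put `v t = ang (γ t) - ang l`.  By `hangs` and
`γ t ∈ Sy ρ` (from `l ∈ Sy ρ` and the last property in `exists_arc2`: `l (ρ i) = l i` gives
`γ t (ρ i) = γ t i`) both `ang (γ t)` and `ang l` are in `Sy ρ`, so `v t ∈ Sy ρ`, and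
`dotp (iv (s i)) (v t) = 0` for all `i`.  Let `V = span (iv (s i)) ≤ Sy ρ` (dimension `k`) and
`N = {v ∈ Sy ρ | ∀ i, dotp (iv (s i)) v = 0}`.  `V ⊓ N = ⊥`: a vector `v` in it satisfies
`dotp v v = 0` (expand the left `v`), and `dotp v v` is the sum of the squares.  So
`k + finrank N ≤ finrank (Sy ρ) ≤ 4`, `finrank N ≤ 1`; there is `n0 ∈ N` with `N = ℝ n0`
(`finrank_le_one_iff`).
`v t ≠ 0` for small `t ≠ 0`: `deriv γ 0 ≠ 0` and differentiability give `γ t ≠ γ 0` for `t ≠ 0` near `0`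
(`HasDerivAt.eventually_ne`); if `ang (γ t) = ang l` then `lam_ang` for both gives
`kfac (γ t) • γ t = kfac l • l`, `kfac > 0`, and the sums are `1`: `γ t = l`.
So `n0 ≠ 0` and `v t = c t • n0` with `c t ≠ 0` for small `t ≠ 0`, `c t → 0` as `t → 0` (`ang` is
continuous on `T`: `ang_continuousOn`, `γ` is continuous; look at a coordinate `e` with `n0 e ≠ 0`:
`c t = v t e / n0 e`).  The function `g τ = gd (cosv (ang l + τ • n0))` is analytic on `ℝ` (a polynomial in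
cosines of affine functions) and vanishes at the points `c t` (`gd_ang`), which accumulate at `0`, so it
vanishes identically (`AnalyticOnNhd.eqOn_zero_of_preconnected_of_frequently_eq_zero`).
-/

namespace Pool.Agent.helper37.SY

open Real Pool.Agent.helper37.NP Pool.Agent.helper37.NL Pool.Agent.Helper93.Tet

private theorem lin_dotp_sum (x y : V6) : dotp x y = ∑ e, x e * y e := by
  rw [Fin.sum_univ_six]
  rfl

private theorem lin_dotp_self {v : V6} (h : dotp v v = 0) : v = 0 := by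
  rw [lin_dotp_sum] at h
  have h1 := (Finset.sum_eq_zero_iff_of_nonneg (fun i _ => mul_self_nonneg (v i))).1 h
  funext i
  exact mul_self_eq_zero.1 (h1 i (Finset.mem_univ i))

private theorem lin_dotp_sub (x y z : V6) : dotp x (y - z) = dotp x y - dotp x z := by
  simp only [dotp, Pi.sub_apply]
  ring

/-- the invariant vectors orthogonal to the data -/
private def linN (ρ : Fin 6 → Fin 6) {k : ℕ} (s : Fin k → Fin 6 → ℤ) : Submodule ℝ V6 where
  carrier := {v | v ∈ Sy ρ ∧ ∀ i, dotp (iv (s i)) v = 0}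
  add_mem' := by
    rintro x y ⟨hx, hx'⟩ ⟨hy, hy'⟩
    refine ⟨(Sy ρ).add_mem hx hy, fun i => ?_⟩
    have h1 := hx' i
    have h2 := hy' i
    simp only [dotp, Pi.add_apply] at h1 h2 ⊢
    linarith
  zero_mem' := ⟨(Sy ρ).zero_mem, fun i => by simp [dotp]⟩
  smul_mem' := by
    rintro c x ⟨hx, hx'⟩
    refine ⟨(Sy ρ).smul_mem c hx, fun i => ?_⟩
    have h1 := hx' i
    simp only [dotp, Pi.smul_apply, smul_eq_mul] at h1 ⊢
    linear_combination c * h1

private theorem lin_finrank (ρ : Fin 6 → Fin 6) (hfin : Module.finrank ℝ (Sy ρ) ≤ 4)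
    {k : ℕ} (hk : 3 ≤ k) (s : Fin k → Fin 6 → ℤ)
    (hs : LinearIndependent ℝ (fun i => iv (s i))) (hsy : ∀ i, iv (s i) ∈ Sy ρ) :
    Module.finrank ℝ (linN ρ s) ≤ 1 := by
  set V : Submodule ℝ V6 := Submodule.span ℝ (Set.range fun i => iv (s i)) with hV
  have hVk : Module.finrank ℝ V = k := by
    rw [hV, finrank_span_eq_card hs, Fintype.card_fin]
  have hVS : V ≤ Sy ρ := by
    rw [hV, Submodule.span_le]
    rintro _ ⟨i, rfl⟩
    exact hsy i
  have hNS : linN ρ s ≤ Sy ρ := fun v hv => hv.1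
  have hinf : V ⊓ linN ρ s = ⊥ := by
    rw [eq_bot_iff]
    rintro v ⟨hv1, hv2⟩
    rw [Submodule.mem_bot]
    apply lin_dotp_self
    have hgen : ∀ w ∈ V, dotp w v = 0 := by
      intro w hw
      rw [hV] at hw
      induction hw using Submodule.span_induction with
      | mem x hx =>
        obtain ⟨i, rfl⟩ := hx
        exact hv2.2 i
      | zero => simp [dotp]
      | add x y _ _ h1 h2 =>
        simp only [dotp, Pi.add_apply] at h1 h2 ⊢
        linarith
      | smul c x _ h1 =>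
        simp only [dotp, Pi.smul_apply, smul_eq_mul] at h1 ⊢
        linear_combination c * h1
    exact hgen v hv1
  have h1 := Submodule.finrank_sup_add_finrank_inf_eq V (linN ρ s)
  rw [hinf, finrank_bot, add_zero, hVk] at h1
  have h2 : Module.finrank ℝ (V ⊔ linN ρ s : Submodule ℝ V6) ≤ Module.finrank ℝ (Sy ρ) :=
    Submodule.finrank_mono (sup_le hVS hNS)
  omega

private theorem lin_analytic (a n : V6) :
    AnalyticOnNhd ℝ (fun τ : ℝ => gd (cosv (a + τ • n))) Set.univ := by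
  have h1 : ∀ (x : ℝ) (e : Fin 6), AnalyticAt ℝ (fun τ : ℝ => cosv (a + τ • n) e) x := by
    intro x e
    have h2 : AnalyticAt ℝ (fun τ : ℝ => a e + τ * n e) x :=
      analyticAt_const.add (analyticAt_id.mul analyticAt_const)
    exact Real.analyticAt_cos.comp h2
  intro x _
  unfold gd
  have h := h1 x
  fun_prop (disch := exact h _)

theorem sym_line (ρ : Fin 6 → Fin 6) (hfin : Module.finrank ℝ (Sy ρ) ≤ 4)
    (hangs : ∀ l : V6, l ∈ Sy ρ → ang l ∈ Sy ρ) {l : V6} (hlT : l ∈ T) (hl1 : ∑ i, l i = 1)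
    (hσ : l ∈ Sy ρ) {k : ℕ} (hk : 3 ≤ k) (s : Fin k → Fin 6 → ℤ) (r : Fin k → ℚ)
    (hs : LinearIndependent ℝ (fun i => iv (s i))) (hsy : ∀ i, iv (s i) ∈ Sy ρ)
    (hsp : l ∈ Submodule.span ℝ (Set.range fun i => iv (s i)))
    (hr : ∀ i, dotp (iv (s i)) (ang l) = π * (r i : ℝ)) {e : Fin 6}
    (he : Transcendental ℚ (l e)) :
    ∃ n : V6, n ≠ 0 ∧ n ∈ Sy ρ ∧ ∀ τ : ℝ, gd (cosv (ang l + τ • n)) = 0 := by
  obtain ⟨γ, hγ0, hγa, hγ, hγd⟩ := exists_arc2 hlT hl1 s r hs hsp hr he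
  have h0 : (0 : ℝ) ∈ Set.Ioo (-1 : ℝ) 1 := ⟨by norm_num, by norm_num⟩
  have hnhd : Set.Ioo (-1 : ℝ) 1 ∈ nhds (0 : ℝ) := Ioo_mem_nhds h0.1 h0.2
  -- `v t`
  have hvN : ∀ t ∈ Set.Ioo (-1 : ℝ) 1, ang (γ t) - ang l ∈ linN ρ s := by
    intro t ht
    obtain ⟨h1, h2, h3, h4, h5⟩ := hγ t ht
    have h6 : γ t ∈ Sy ρ := fun i => h5 _ _ (hσ i)
    refine ⟨(Sy ρ).sub_mem (hangs _ h6) (hangs _ hσ), fun i => ?_⟩
    rw [lin_dotp_sub, h4 i, hr i, sub_self]
  have hne : ∀ t ∈ Set.Ioo (-1 : ℝ) 1, γ t ≠ γ 0 → ang (γ t) - ang l ≠ 0 := by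
    intro t ht hne h0'
    obtain ⟨h1, h2, h3, h4, h5⟩ := hγ t ht
    have h6 : ang (γ t) = ang l := sub_eq_zero.1 h0'
    have h7 := lam_ang h1
    rw [h6, lam_ang hlT] at h7
    have h8 : kfac l = kfac (γ t) := by
      have h9 : ∑ i, (kfac l • l) i = ∑ i, (kfac (γ t) • γ t) i := by rw [h7]
      simp only [Pi.smul_apply, smul_eq_mul, ← Finset.mul_sum] at h9
      rw [hl1, h2, mul_one, mul_one] at h9
      exact h9
    rw [h8] at h7
    apply hne
    rw [hγ0]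
    exact (smul_right_injective V6 (kfac_pos h1).ne' h7).symm
  have hder : HasDerivAt γ (deriv γ 0) 0 := ((hγa 0 h0).differentiableAt).hasDerivAt
  have hev : ∀ᶠ t in nhdsWithin (0 : ℝ) {0}ᶜ, γ t ≠ γ 0 := hder.eventually_ne (hγd 0 h0)
  have hev2 : ∀ᶠ t in nhdsWithin (0 : ℝ) {0}ᶜ, t ∈ Set.Ioo (-1 : ℝ) 1 :=
    nhdsWithin_le_nhds hnhd
  -- the generator
  obtain ⟨⟨n0, hn0⟩, hgen⟩ := finrank_le_one_iff.1 (lin_finrank ρ hfin hk s hs hsy)
  have hgen' : ∀ w ∈ linN ρ s, ∃ c : ℝ, c • n0 = w := by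
    intro w hw
    obtain ⟨c, hc⟩ := hgen ⟨w, hw⟩
    exact ⟨c, congrArg Subtype.val hc⟩
  have hn0ne : n0 ≠ 0 := by
    rintro rfl
    obtain ⟨t, ht1, ht2⟩ := (hev.and hev2).exists
    obtain ⟨c, hc⟩ := hgen' _ (hvN t ht2)
    exact hne t ht2 ht1 (by rw [← hc, smul_zero])
  obtain ⟨e0, he0⟩ : ∃ e0, n0 e0 ≠ 0 := by
    by_contra hcon
    push Not at hcon
    exact hn0ne (funext hcon)
  set c : ℝ → ℝ := fun t => (ang (γ t) e0 - ang l e0) / n0 e0 with hc
  have hcv : ∀ t ∈ Set.Ioo (-1 : ℝ) 1, ang (γ t) = ang l + c t • n0 := by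
    intro t ht
    obtain ⟨d, hd⟩ := hgen' _ (hvN t ht)
    have h1 : c t = d := by
      rw [hc]
      have h2 := congrFun hd e0
      simp only [Pi.smul_apply, smul_eq_mul, Pi.sub_apply] at h2
      simp only
      rw [← h2, mul_div_cancel_right₀ _ he0]
    rw [h1, hd]
    abel
  refine ⟨n0, hn0ne, hn0.1, ?_⟩
  have hcont : Filter.Tendsto c (nhds 0) (nhds 0) := by
    have h1 : ContinuousAt (fun t => ang (γ t) e0) 0 := by
      have h2 : ContinuousWithinAt (fun l : V6 => ang l e0) T (γ 0) :=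
        ang_continuousOn e0 (γ 0) (hγ 0 h0).1
      have h3 : ContinuousAt (fun l : V6 => ang l e0) (γ 0) :=
        h2.continuousAt (isOpen_T.mem_nhds (hγ 0 h0).1)
      exact ContinuousAt.comp (f := γ) (g := fun l : V6 => ang l e0) h3 hder.continuousAt
    have h4 : ContinuousAt c 0 := (h1.sub continuousAt_const).div_const _
    have h5 : c 0 = 0 := by
      simp only [hc, hγ0, sub_self, zero_div]
    have h6 := h4.tendsto
    rwa [h5] at h6
  have hcne : ∀ᶠ t in nhdsWithin (0 : ℝ) {0}ᶜ, c t ≠ 0 := by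
    filter_upwards [hev, hev2] with t ht1 ht2 h3
    have h4 := hcv t ht2
    rw [h3, zero_smul, add_zero] at h4
    exact hne t ht2 ht1 (sub_eq_zero.2 h4)
  have htend : Filter.Tendsto c (nhdsWithin (0 : ℝ) {0}ᶜ) (nhdsWithin (0 : ℝ) {0}ᶜ) :=
    tendsto_nhdsWithin_iff.2 ⟨hcont.mono_left nhdsWithin_le_nhds, hcne⟩
  have hfreq : ∃ᶠ τ in nhdsWithin (0 : ℝ) {0}ᶜ, gd (cosv (ang l + τ • n0)) = 0 := by
    apply htend.frequently
    apply Filter.Eventually.frequently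
    filter_upwards [hev2] with t ht
    rw [← hcv t ht]
    exact gd_ang (hγ t ht).1
  have hz := (lin_analytic (ang l) n0).eqOn_zero_of_preconnected_of_frequently_eq_zero
    isPreconnected_univ (Set.mem_univ (0 : ℝ)) hfreq
  intro τ
  exact hz (Set.mem_univ τ)

end Pool.Agent.helper37.SY
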