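import Pool.Agent.helper37.SY.Tpo

/-!
SY-10, SY-11 (Mtr).  There is no line of angles in the class with a mirror plane (trigonometry).
`p = t0 = t1`, `r = t2`, `s = t3`, `t = t4 = t5`, slopes `P, R, S, U`.

IDENTITIES.  `(1 - cos r) (1 - cos² s) = 2 cos² p + 2 cos² t + 4 cos s cos p cos t` is equivalent to
(I) `(1 + cos r) (1 - cos² s) / 2 + (cos (p + t) + cos s) (cos (p - t) + cos s) = 0`
(`(1 - cos r)(1 - cos² s) = 2 (1 - cos² s) - (1 + cos r)(1 - cos² s)` and
`(cos (p+t) + cos s)(cos (p-t) + cos s) = cos² s + 2 cos s cos p cos t + cos² p + cos² t - 1`), and to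
(II) `3/4 + (1/4) cos r + (1/4) cos 2s - (1/8) cos (r + 2s) - (1/8) cos (r - 2s)
 + (1/2) (cos (s+p+t) + cos (-s+p+t) + cos (s-p+t) + cos (s+p-t) + cos 2p + cos 2t) = 0`.
All are meant for all `τ`, with `p + P τ` instead of `p` etc.

CASE `S ≠ 0` (`mir_S`).  Mean value of (II) (`tp_cos` with `ω = 0`, eleven terms; frequencies
`0, R, 2S, R+2S, R-2S, S+P+U, -S+P+U, S-P+U, S+P-U, 2P, 2U`).  If fewer than two of the last six
frequencies vanish, the mean is `> 0`: if `R = 0` it is at least `3/4 + (1/4) cos r - 1/2 > 0` because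
`cos r > -1` and the terms with `2S`, `R ± 2S` do not contribute; if `R ≠ 0` at most one of `R ± 2S` is
zero and the mean is at least `3/4 - 1/8 - 1/2 > 0`.  So at least two of the six vanish, and then (linear
algebra, `S ≠ 0`) one of: (A) `P = 0`, `U = S` or `U = -S`; (B) `U = 0`, `P = S` or `P = -S`; (C) `P = U = 0`.
In all cases the six frequencies have absolute value `≤ 2|S|`.
If `R ≠ 0`: the frequency `ω = |R| + 2|S|` occurs in exactly one of the two terms `R ± 2S` (the other one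
has absolute value `||R| - 2|S|| < ω`) and in no other term, so by `tp_cos`, `tp_sin` the cosine and the
sine of `r ± 2s` vanish: contradiction.
If `R = 0`: in (I) choose `τ` with `s + S τ = 0` and with `s + S τ = π` (then the first term vanishes).
 (A) `U = e S`, `e = ±1`, `P = 0`.  `s + S τ = 0` gives `t + U τ = t - e s` and
 `(cos (p + (t - e s)) + 1) (cos (p - (t - e s)) + 1) = 0`.  `e = 1`: `p + t - s` or `p - t + s` is an odd
 multiple of `π`; both are in `(-π, π)` by the hypotheses (`hb2`, `hb1`, `hb3` and positivity), a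
 contradiction.  `e = -1`: `p + t + s ∈ (π, 3π)` or `t + s - p ∈ (-π, π)`, contradiction.
 (B) the same with `p`, `t` exchanged.
 (C) `s + S τ = 0`: `(cos (p + t) + 1) (cos (p - t) + 1) = 0`, so `p + t = π`; `s + S τ = π`:
 `(cos (p + t) - 1) (cos (p - t) - 1) = 0`, so `p = t`.  So `p = t = π/2`, and (I) becomes
 `(1 + cos r) (1 - cos² s)/2 - (1 - cos² s) = 0` for all `τ`, `(cos r - 1) (1 - cos² (s + S τ)) = 0`, a
 contradiction (choose `s + S τ = π/2`).

CASE `S = 0` (`mir_0`).  Put `c = cos s`, `|c| < 1`, `σ = 1 - c²`.  (I) times 2 is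
(III) `cos (2p) + cos (2t) + 2 c (cos (p+t) + cos (p-t)) + σ cos r + (1 + c²) = 0`
(frequencies `2P, 2U, P+U, P-U, R, 0`).
* `P = U = 0`: then `R ≠ 0` and `σ cos (r + R τ)` is the only nonconstant term: contradiction.
* `P = 0`, `U ≠ 0`: frequency `2|U|`: if `|R| ≠ 2|U|` the term `cos 2t` is alone: contradiction.  Otherwise
 amplitude comparison `1 = σ` (with `tp_cos`, `tp_sin`: `cos 2t + σ cos r = 0`,
 `sin 2t ± σ sin r = 0`, so `1 = σ²`), so `c = 0` and `cos 2t + cos r = 0`, and the constant term gives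
 `cos 2p + 1 = 0`, `p = π/2`.  `cos r = -cos 2t = cos (π - 2t)`, so `r = |π - 2t|`: `r = π - 2t`
 contradicts `hd`, `r = 2t - π` contradicts `hd'`.
* `U = 0`, `P ≠ 0`: the same with `p`, `t` exchanged (`ha`, `ha'`).
* `P ≠ 0`, `U ≠ 0`.  Mean value: if `P + U ≠ 0` and `P - U ≠ 0` it is `1 + c² + [R = 0] σ cos r > 0`
 (`|σ cos r| < 1`), contradiction.  So `U = -P` or `U = P`.
 `U = -P`: frequency `2|P|`: terms `cos 2p + cos 2t + 2 c cos (p - t) = 2 (cos (p+t) + c) cos (p-t)`; the
 constant part is `2 c cos (p+t) + [R = 0] σ cos r + 1 + c²`.  If `R ≠ 0` then `2 c cos (p+t) + 1 + c² = 0`,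
 impossible since `|2 c cos(p+t)| ≤ 2|c| < 1 + c²`.  So `R = 0`, and the frequency `2|P|` gives
 `cos (p + t) = -c` (evaluate (III) at `τ` and use that `p + t` is constant: for all `τ`
 `2 (cos (p+t) + c) cos (p - t + 2 P τ) + const = 0`).  `p + t ∈ (0, 2π)`, `cos (p+t) = cos (π - s)`:
 `p + t = π - s` contradicts `hb`, `p + t = π + s` contradicts `hb2`.
 `U = P`: the same with `cos (p - t) = -c`: `|p - t| = π - s`, contradiction to `hb1`, `hb3`.
-/

namespace Pool.Agent.helper37.SY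

open Real

/-- a frequency that occurs in only one term -/
private theorem tp_single {ι : Type*} [Fintype ι] (c φ f : ι → ℝ)
    (h : ∀ τ : ℝ, ∑ j, c j * Real.cos (φ j + f j * τ) = 0) (j₀ : ι) (h0 : f j₀ ≠ 0)
    (ho : ∀ j, j ≠ j₀ → f j ^ 2 ≠ f j₀ ^ 2) : c j₀ = 0 := by
  have hn : ¬ f j₀ = - f j₀ := fun hh => h0 (by linarith)
  have h1 := tp_cos c φ f h (f j₀)
  have h2 := tp_sin c φ f h (f j₀)
  have e1 : ∀ j, j ≠ j₀ → ¬ f j = f j₀ := fun j hj hh => ho j hj (by rw [hh])
  have e2 : ∀ j, j ≠ j₀ → ¬ f j = - f j₀ := fun j hj hh => ho j hj (by rw [hh]; ring)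
  rw [Finset.sum_eq_single j₀ (fun j _ hj => by
    rw [if_neg (e1 j hj), if_neg (e2 j hj), add_zero])
    (fun hh => absurd (Finset.mem_univ _) hh), if_pos rfl, if_neg hn, add_zero] at h1
  rw [Finset.sum_eq_single j₀ (fun j _ hj => by
    rw [if_neg (e1 j hj), if_neg (e2 j hj), sub_zero])
    (fun hh => absurd (Finset.mem_univ _) hh), if_pos rfl, if_neg hn, sub_zero] at h2
  have h3 := Real.sin_sq_add_cos_sq (φ j₀)
  have h4 : c j₀ ^ 2 = 0 := by
    calc c j₀ ^ 2 = c j₀ ^ 2 * (Real.sin (φ j₀) ^ 2 + Real.cos (φ j₀) ^ 2) := by rw [h3, mul_one]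
      _ = (c j₀ * Real.sin (φ j₀)) ^ 2 + (c j₀ * Real.cos (φ j₀)) ^ 2 := by ring
      _ = 0 := by rw [h1, h2]; ring
  exact pow_eq_zero_iff (two_ne_zero) |>.mp h4

/-- the mean value -/
private theorem tp_mean {ι : Type*} [Fintype ι] (c φ f : ι → ℝ)
    (h : ∀ τ : ℝ, ∑ j, c j * Real.cos (φ j + f j * τ) = 0) :
    ∑ j, (if f j = 0 then c j * Real.cos (φ j) else 0) = 0 := by
  have h1 := tp_cos c φ f h 0
  simp only [neg_zero, Finset.sum_add_distrib] at h1
  linarith

/-- the trigonometric identity (II) -/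
private theorem mir_id (a b x y : ℝ) :
    3 / 2 + 1 / 2 * cos a + 1 / 2 * cos (2 * b) + -1 / 4 * cos (a + 2 * b)
      + -1 / 4 * cos (a - 2 * b) + cos (b + x + y) + cos (-b + x + y) + cos (b - x + y)
      + cos (b + x - y) + cos (2 * x) + cos (2 * y)
    = (2 * cos x ^ 2 + 2 * cos y ^ 2 + 4 * cos b * cos x * cos y)
      - (1 - cos a) * (1 - cos b ^ 2) := by
  simp only [cos_add, cos_sub, sin_add, sin_sub, cos_neg, sin_neg, cos_two_mul]
  ring

private theorem mir_sum {p r s t P R S U : ℝ}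
    (h : ∀ τ : ℝ, (1 - cos (r + R * τ)) * (1 - cos (s + S * τ) ^ 2)
      = 2 * cos (p + P * τ) ^ 2 + 2 * cos (t + U * τ) ^ 2
        + 4 * cos (s + S * τ) * cos (p + P * τ) * cos (t + U * τ)) (τ : ℝ) :
    ∑ j : Fin 11, (![3 / 2, 1 / 2, 1 / 2, -1 / 4, -1 / 4, 1, 1, 1, 1, 1, 1] : Fin 11 → ℝ) j *
      cos ((![0, r, 2 * s, r + 2 * s, r - 2 * s, s + p + t, -s + p + t, s - p + t, s + p - t,
        2 * p, 2 * t] : Fin 11 → ℝ) j +
      (![0, R, 2 * S, R + 2 * S, R - 2 * S, S + P + U, -S + P + U, S - P + U, S + P - U,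
        2 * P, 2 * U] : Fin 11 → ℝ) j * τ) = 0 := by
  have h1 := mir_id (r + R * τ) (s + S * τ) (p + P * τ) (t + U * τ)
  rw [← h τ, sub_self] at h1
  have e0 : (0 : ℝ) + 0 * τ = 0 := by ring
  have e2 : 2 * s + 2 * S * τ = 2 * (s + S * τ) := by ring
  have e3 : r + 2 * s + (R + 2 * S) * τ = r + R * τ + 2 * (s + S * τ) := by ring
  have e4 : r - 2 * s + (R - 2 * S) * τ = r + R * τ - 2 * (s + S * τ) := by ring
  have e5 : s + p + t + (S + P + U) * τ = s + S * τ + (p + P * τ) + (t + U * τ) := by ring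
  have e6 : -s + p + t + (-S + P + U) * τ = -(s + S * τ) + (p + P * τ) + (t + U * τ) := by
    ring
  have e7 : s - p + t + (S - P + U) * τ = s + S * τ - (p + P * τ) + (t + U * τ) := by ring
  have e8 : s + p - t + (S + P - U) * τ = s + S * τ + (p + P * τ) - (t + U * τ) := by ring
  have e9 : 2 * p + 2 * P * τ = 2 * (p + P * τ) := by ring
  have e10 : 2 * t + 2 * U * τ = 2 * (t + U * τ) := by ring
  have hs : ∑ j : Fin 11, (![3 / 2, 1 / 2, 1 / 2, -1 / 4, -1 / 4, 1, 1, 1, 1, 1, 1] :
      Fin 11 → ℝ) j *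
      cos ((![0, r, 2 * s, r + 2 * s, r - 2 * s, s + p + t, -s + p + t, s - p + t, s + p - t,
        2 * p, 2 * t] : Fin 11 → ℝ) j +
      (![0, R, 2 * S, R + 2 * S, R - 2 * S, S + P + U, -S + P + U, S - P + U, S + P - U,
        2 * P, 2 * U] : Fin 11 → ℝ) j * τ)
      = 3 / 2 * cos (0 + 0 * τ) + (1 / 2 * cos (r + R * τ) + (1 / 2 * cos (2 * s + 2 * S * τ)
        + (-1 / 4 * cos (r + 2 * s + (R + 2 * S) * τ) + (-1 / 4 * cos (r - 2 * s +
        (R - 2 * S) * τ) + (1 * cos (s + p + t + (S + P + U) * τ) +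
        (1 * cos (-s + p + t + (-S + P + U) * τ) + (1 * cos (s - p + t + (S - P + U) * τ) +
        (1 * cos (s + p - t + (S + P - U) * τ) + (1 * cos (2 * p + 2 * P * τ) +
        (1 * cos (2 * t + 2 * U * τ) + 0)))))))))) := by
    simp only [Fin.sum_univ_succ, Fin.sum_univ_zero]
    rfl
  rw [hs, e0, e2, e3, e4, e5, e6, e7, e8, e9, e10, cos_zero]
  linarith

/-- `cos x > 0` for `|x| < π / 2`, in the form needed here -/
private theorem half_pos {x : ℝ} (h1 : -π < x) (h2 : x < π) : cos (x / 2) ≠ 0 :=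
  (cos_pos_of_mem_Ioo ⟨by linarith, by linarith⟩).ne'

private theorem half_neg {x : ℝ} (h1 : π < x) (h2 : x < 3 * π) : cos (x / 2) ≠ 0 := by
  have h3 : cos (x / 2 - π) ≠ 0 :=
    (cos_pos_of_mem_Ioo ⟨by linarith, by linarith⟩).ne'
  rw [cos_sub_pi] at h3
  exact fun h => h3 (by rw [h, neg_zero])

private theorem six_sq {P U S : ℝ}
    (h : (P = 0 ∧ (U = S ∨ U = -S ∨ U = 0)) ∨ (U = 0 ∧ (P = S ∨ P = -S))) :
    (S + P + U) ^ 2 ≤ 4 * S ^ 2 ∧ (-S + P + U) ^ 2 ≤ 4 * S ^ 2 ∧ (S - P + U) ^ 2 ≤ 4 * S ^ 2 ∧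
      (S + P - U) ^ 2 ≤ 4 * S ^ 2 ∧ (2 * P) ^ 2 ≤ 4 * S ^ 2 ∧ (2 * U) ^ 2 ≤ 4 * S ^ 2 := by
  have hS := sq_nonneg S
  rcases h with ⟨rfl, rfl | rfl | rfl⟩ | ⟨rfl, rfl | rfl⟩ <;>
    refine ⟨?_, ?_, ?_, ?_, ?_, ?_⟩ <;> ring_nf <;> linarith

private theorem cmp_sq {R S x : ℝ} (h : 0 < R * S) (hx : x ^ 2 ≤ 4 * S ^ 2) :
    x ^ 2 < (R + 2 * S) ^ 2 := by
  have h1 := sq_nonneg R
  have h2 : (R + 2 * S) ^ 2 = R ^ 2 + 4 * (R * S) + 4 * S ^ 2 := by ring
  rw [h2]
  linarith

private theorem cmp_R {R S : ℝ} (h : 0 < R * S) : R ^ 2 < (R + 2 * S) ^ 2 := by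
  have h1 := sq_nonneg S
  have h2 : (R + 2 * S) ^ 2 = R ^ 2 + 4 * (R * S) + 4 * S ^ 2 := by ring
  rw [h2]
  linarith

private theorem cmp_pm {R S : ℝ} (h : 0 < R * S) : (R - 2 * S) ^ 2 < (R + 2 * S) ^ 2 := by
  have h2 : (R + 2 * S) ^ 2 = (R - 2 * S) ^ 2 + 8 * (R * S) := by ring
  rw [h2]
  linarith

private theorem cmp_ne {R S : ℝ} (h : 0 < R * S) : R + 2 * S ≠ 0 := by
  intro h0
  have h1 : R = -2 * S := by linarith
  rw [h1] at h
  have h2 := sq_nonneg S
  have h3 : -2 * S * S = -2 * S ^ 2 := by ring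
  rw [h3] at h
  linarith

private theorem cmp_sq' {R S x : ℝ} (h : R * S < 0) (hx : x ^ 2 ≤ 4 * S ^ 2) :
    x ^ 2 < (R - 2 * S) ^ 2 := by
  have h1 := sq_nonneg R
  have h2 : (R - 2 * S) ^ 2 = R ^ 2 - 4 * (R * S) + 4 * S ^ 2 := by ring
  rw [h2]
  linarith

private theorem cmp_R' {R S : ℝ} (h : R * S < 0) : R ^ 2 < (R - 2 * S) ^ 2 := by
  have h1 := sq_nonneg S
  have h2 : (R - 2 * S) ^ 2 = R ^ 2 - 4 * (R * S) + 4 * S ^ 2 := by ring
  rw [h2]
  linarith

private theorem cmp_pm' {R S : ℝ} (h : R * S < 0) : (R + 2 * S) ^ 2 < (R - 2 * S) ^ 2 := by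
  have h2 : (R - 2 * S) ^ 2 = (R + 2 * S) ^ 2 - 8 * (R * S) := by ring
  rw [h2]
  linarith

private theorem cmp_ne' {R S : ℝ} (h : R * S < 0) : R - 2 * S ≠ 0 := by
  intro h0
  have h1 : R = 2 * S := by linarith
  rw [h1] at h
  have h2 := sq_nonneg S
  have h3 : 2 * S * S = 2 * S ^ 2 := by ring
  rw [h3] at h
  linarith

/-- SY-10 -/
theorem mir_S {p r s t P R S U : ℝ} (hp : 0 < p ∧ p < π) (hr : 0 < r ∧ r < π)
    (hs : 0 < s ∧ s < π) (ht : 0 < t ∧ t < π) (hb : π < p + s + t) (hb1 : s + t - p < π)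
    (hb2 : p + t - s < π) (hb3 : p + s - t < π) (hS : S ≠ 0)
    (h : ∀ τ : ℝ, (1 - cos (r + R * τ)) * (1 - cos (s + S * τ) ^ 2)
      = 2 * cos (p + P * τ) ^ 2 + 2 * cos (t + U * τ) ^ 2
        + 4 * cos (s + S * τ) * cos (p + P * τ) * cos (t + U * τ)) : False := by
  obtain ⟨hp0, hpπ⟩ := hp
  obtain ⟨hr0, hrπ⟩ := hr
  obtain ⟨hs0, hsπ⟩ := hs
  obtain ⟨ht0, htπ⟩ := ht
  have hcr1 : -1 < cos r := by
    have := Real.strictAntiOn_cos (Set.mem_Icc.mpr ⟨hr0.le, hrπ.le⟩)
      (Set.mem_Icc.mpr ⟨pi_pos.le, le_refl π⟩) hrπ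
    rwa [cos_pi] at this
  have hcr2 : cos r < 1 := by
    have := Real.strictAntiOn_cos (Set.mem_Icc.mpr ⟨le_refl 0, pi_pos.le⟩)
      (Set.mem_Icc.mpr ⟨hr0.le, hrπ.le⟩) hr0
    rwa [cos_zero] at this
  have hsum := mir_sum h
  have hmean := tp_mean _ _ _ hsum
  have hm : 3 / 2 + ((if R = 0 then 1 / 2 * cos r else 0) +
      (if R + 2 * S = 0 then -1 / 4 * cos (r + 2 * s) else 0) +
      (if R - 2 * S = 0 then -1 / 4 * cos (r - 2 * s) else 0)) +
      ((if S + P + U = 0 then cos (s + p + t) else 0) +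
      (if -S + P + U = 0 then cos (-s + p + t) else 0) +
      (if S - P + U = 0 then cos (s - p + t) else 0) +
      (if S + P - U = 0 then cos (s + p - t) else 0) +
      (if 2 * P = 0 then cos (2 * p) else 0) +
      (if 2 * U = 0 then cos (2 * t) else 0)) = 0 := by
    have hs : ∑ j : Fin 11, (if (![0, R, 2 * S, R + 2 * S, R - 2 * S, S + P + U, -S + P + U,
        S - P + U, S + P - U, 2 * P, 2 * U] : Fin 11 → ℝ) j = 0 then
        (![3 / 2, 1 / 2, 1 / 2, -1 / 4, -1 / 4, 1, 1, 1, 1, 1, 1] : Fin 11 → ℝ) j *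
        cos ((![0, r, 2 * s, r + 2 * s, r - 2 * s, s + p + t, -s + p + t, s - p + t, s + p - t,
          2 * p, 2 * t] : Fin 11 → ℝ) j) else 0)
        = (if (0 : ℝ) = 0 then 3 / 2 * cos 0 else 0) + ((if R = 0 then 1 / 2 * cos r else 0) +
          ((if 2 * S = 0 then 1 / 2 * cos (2 * s) else 0) +
          ((if R + 2 * S = 0 then -1 / 4 * cos (r + 2 * s) else 0) +
          ((if R - 2 * S = 0 then -1 / 4 * cos (r - 2 * s) else 0) +
          ((if S + P + U = 0 then 1 * cos (s + p + t) else 0) +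
          ((if -S + P + U = 0 then 1 * cos (-s + p + t) else 0) +
          ((if S - P + U = 0 then 1 * cos (s - p + t) else 0) +
          ((if S + P - U = 0 then 1 * cos (s + p - t) else 0) +
          ((if 2 * P = 0 then 1 * cos (2 * p) else 0) +
          ((if 2 * U = 0 then 1 * cos (2 * t) else 0) + 0)))))))))) := by
      conv_lhs => simp only [Fin.sum_univ_succ, Fin.sum_univ_zero]
      rfl
    rw [hs, if_pos rfl, cos_zero, if_neg (show ¬ 2 * S = 0 from fun hh => hS (by linarith))]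
      at hmean
    simp only [one_mul] at hmean
    linarith
  have b1 : -(1 / 2) < (if R = 0 then 1 / 2 * cos r else 0) +
      (if R + 2 * S = 0 then -1 / 4 * cos (r + 2 * s) else 0) +
      (if R - 2 * S = 0 then -1 / 4 * cos (r - 2 * s) else 0) := by
    by_cases hR : R = 0
    · rw [if_pos hR, if_neg (fun hh => hS (by linarith)), if_neg (fun hh => hS (by linarith))]
      linarith
    · rw [if_neg hR]
      have c1 := cos_le_one (r + 2 * s)
      have c2 := cos_le_one (r - 2 * s)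
      by_cases h1 : R + 2 * S = 0
      · rw [if_pos h1, if_neg (fun hh => hR (by linarith))]
        linarith
      · rw [if_neg h1]
        split_ifs <;> linarith
  have six : ∀ (q : Prop) [Decidable q] (x : ℝ),
      (if q then cos x else 0) = 0 ∨ (q ∧ -1 ≤ (if q then cos x else 0)) := by
    intro q _ x
    by_cases hq : q
    · right
      rw [if_pos hq]
      exact ⟨hq, neg_one_le_cos x⟩
    · left
      rw [if_neg hq]
  have six1 := six (S + P + U = 0) (s + p + t)
  have six2 := six (-S + P + U = 0) (-s + p + t)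
  have six3 := six (S - P + U = 0) (s - p + t)
  have six4 := six (S + P - U = 0) (s + p - t)
  have six5 := six (2 * P = 0) (2 * p)
  have six6 := six (2 * U = 0) (2 * t)
  have hcase : (P = 0 ∧ (U = S ∨ U = -S ∨ U = 0)) ∨ (U = 0 ∧ (P = S ∨ P = -S)) := by
    generalize (if S + P + U = 0 then cos (s + p + t) else 0) = A1 at hm six1
    generalize (if -S + P + U = 0 then cos (-s + p + t) else 0) = A2 at hm six2
    generalize (if S - P + U = 0 then cos (s - p + t) else 0) = A3 at hm six3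
    generalize (if S + P - U = 0 then cos (s + p - t) else 0) = A4 at hm six4
    generalize (if 2 * P = 0 then cos (2 * p) else 0) = A5 at hm six5
    generalize (if 2 * U = 0 then cos (2 * t) else 0) = A6 at hm six6
    have hlt : A1 + A2 + A3 + A4 + A5 + A6 < -1 := by linarith
    clear hm b1 hmean hsum h
    rcases six1 with q1 | ⟨e1, q1⟩
    · rcases six2 with q2 | ⟨e2, q2⟩
      · rcases six3 with q3 | ⟨e3, q3⟩
        · rcases six4 with q4 | ⟨e4, q4⟩
          · rcases six5 with q5 | ⟨e5, q5⟩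
            · rcases six6 with q6 | ⟨e6, q6⟩ <;> exfalso <;> linarith
            · rcases six6 with q6 | ⟨e6, q6⟩
              · exfalso; linarith
              · exact Or.inl ⟨by linarith, Or.inr (Or.inr (by linarith))⟩
          · rcases six5 with q5 | ⟨e5, q5⟩
            · rcases six6 with q6 | ⟨e6, q6⟩
              · exfalso; linarith
              · exact Or.inr ⟨by linarith, Or.inr (by linarith)⟩
            · exact Or.inl ⟨by linarith, Or.inl (by linarith)⟩
        · rcases six4 with q4 | ⟨e4, q4⟩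
          · rcases six5 with q5 | ⟨e5, q5⟩
            · rcases six6 with q6 | ⟨e6, q6⟩
              · exfalso; linarith
              · exact Or.inr ⟨by linarith, Or.inl (by linarith)⟩
            · exact Or.inl ⟨by linarith, Or.inr (Or.inl (by linarith))⟩
          · exact absurd (by linarith) hS
      · rcases six3 with q3 | ⟨e3, q3⟩
        · rcases six4 with q4 | ⟨e4, q4⟩
          · rcases six5 with q5 | ⟨e5, q5⟩
            · rcases six6 with q6 | ⟨e6, q6⟩
              · exfalso; linarith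
              · exact Or.inr ⟨by linarith, Or.inl (by linarith)⟩
            · exact Or.inl ⟨by linarith, Or.inl (by linarith)⟩
          · exact Or.inl ⟨by linarith, Or.inl (by linarith)⟩
        · exact Or.inr ⟨by linarith, Or.inl (by linarith)⟩
    · rcases six2 with q2 | ⟨e2, q2⟩
      · rcases six3 with q3 | ⟨e3, q3⟩
        · rcases six4 with q4 | ⟨e4, q4⟩
          · rcases six5 with q5 | ⟨e5, q5⟩
            · rcases six6 with q6 | ⟨e6, q6⟩
              · exfalso; linarith
              · exact Or.inr ⟨by linarith, Or.inr (by linarith)⟩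
            · exact Or.inl ⟨by linarith, Or.inr (Or.inl (by linarith))⟩
          · exact Or.inr ⟨by linarith, Or.inr (by linarith)⟩
        · exact Or.inl ⟨by linarith, Or.inr (Or.inl (by linarith))⟩
      · exact absurd (by linarith) hS
  by_cases hR : R = 0
  · -- the case `R = 0`
    subst hR
    have h0 := h (-s / S)
    have e0 : s + S * (-s / S) = 0 := by field_simp; ring
    rw [e0, cos_zero] at h0
    have h0' : (cos (p + P * (-s / S)) + cos (t + U * (-s / S))) ^ 2 = 0 := by linarith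
    have h0'' : cos (p + P * (-s / S)) + cos (t + U * (-s / S)) = 0 :=
      pow_eq_zero_iff two_ne_zero |>.mp h0'
    have eS : S * (-s / S) = -s := by field_simp
    rcases hcase with ⟨hP, hU | hU | hU⟩ | ⟨hU, hP | hP⟩
    · -- `P = 0`, `U = S`
      rw [hP, hU, zero_mul, add_zero, eS, cos_add_cos] at h0''
      have a1 := half_pos (x := p + (t + -s)) (by linarith) (by linarith)
      have a2 := half_pos (x := p - (t + -s)) (by linarith) (by linarith)
      exact mul_ne_zero (mul_ne_zero two_ne_zero a1) a2 h0''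
    · -- `P = 0`, `U = -S`
      rw [hP, hU, zero_mul, add_zero, neg_mul, eS, neg_neg, cos_add_cos] at h0''
      have a1 := half_neg (x := p + (t + s)) (by linarith) (by linarith)
      have a2 := half_pos (x := p - (t + s)) (by linarith) (by linarith)
      exact mul_ne_zero (mul_ne_zero two_ne_zero a1) a2 h0''
    · -- `P = 0`, `U = 0`
      rw [hP, hU, zero_mul, add_zero, add_zero] at h0''
      have h1 := h ((π - s) / S)
      have e1 : s + S * ((π - s) / S) = π := by field_simp; ring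
      rw [e1, cos_pi, hP, hU, zero_mul, add_zero, add_zero, add_zero] at h1
      have h2 := h ((π / 2 - s) / S)
      have e2 : s + S * ((π / 2 - s) / S) = π / 2 := by field_simp; ring
      rw [e2, cos_pi_div_two, hP, hU, zero_mul, add_zero, add_zero, add_zero] at h2
      have h3 : (cos p - cos t) ^ 2 = 0 := by linarith
      have h4 : cos p - cos t = 0 := pow_eq_zero_iff two_ne_zero |>.mp h3
      have h5 : cos p = 0 := by linarith
      have h6 : cos t = 0 := by linarith
      rw [h5, h6] at h2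
      linarith
    · -- `U = 0`, `P = S`
      rw [hP, hU, zero_mul, add_zero, eS, cos_add_cos] at h0''
      have a1 := half_pos (x := p + -s + t) (by linarith) (by linarith)
      have a2 := half_pos (x := p + -s - t) (by linarith) (by linarith)
      exact mul_ne_zero (mul_ne_zero two_ne_zero a1) a2 h0''
    · -- `U = 0`, `P = -S`
      rw [hP, hU, zero_mul, add_zero, neg_mul, eS, neg_neg, cos_add_cos] at h0''
      have a1 := half_neg (x := p + s + t) (by linarith) (by linarith)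
      have a2 := half_pos (x := p + s - t) (by linarith) (by linarith)
      exact mul_ne_zero (mul_ne_zero two_ne_zero a1) a2 h0''
  · -- the case `R ≠ 0`
    obtain ⟨g1, g2, g3, g4, g5, g6⟩ := six_sq hcase
    rcases lt_or_gt_of_ne (mul_ne_zero hR hS) with hRS | hRS
    · have hRS' : 0 < R * (-S) := by linarith
      have hc := tp_single _ _ _ hsum 4 (by
        show R - 2 * S ≠ 0
        exact cmp_ne' hRS) (by
        intro j hj
        apply ne_of_lt
        fin_cases j
        · exact cmp_sq' hRS (x := 0) (by rw [zero_pow two_ne_zero]; positivity)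
        · exact cmp_R' hRS
        · exact cmp_sq' hRS (x := 2 * S) (le_of_eq (by ring))
        · exact cmp_pm' hRS
        · exact absurd rfl hj
        · exact cmp_sq' hRS g1
        · exact cmp_sq' hRS g2
        · exact cmp_sq' hRS g3
        · exact cmp_sq' hRS g4
        · exact cmp_sq' hRS g5
        · exact cmp_sq' hRS g6)
      have hc' : (-1 / 4 : ℝ) = 0 := hc
      norm_num at hc'
    · have hc := tp_single _ _ _ hsum 3 (by
        show R + 2 * S ≠ 0
        exact cmp_ne hRS) (by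
        intro j hj
        apply ne_of_lt
        fin_cases j
        · exact cmp_sq hRS (x := 0) (by rw [zero_pow two_ne_zero]; positivity)
        · exact cmp_R hRS
        · exact cmp_sq hRS (x := 2 * S) (le_of_eq (by ring))
        · exact absurd rfl hj
        · exact cmp_pm hRS
        · exact cmp_sq hRS g1
        · exact cmp_sq hRS g2
        · exact cmp_sq hRS g3
        · exact cmp_sq hRS g4
        · exact cmp_sq hRS g5
        · exact cmp_sq hRS g6)
      have hc' : (-1 / 4 : ℝ) = 0 := hc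
      norm_num at hc'

end Pool.Agent.helper37.SY
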