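import Pool.Agent.helper37.SY.Tpo

/-!
SY-03 (Qua).  Four cosines with sum identically zero.

PROOF.  Apply `tp_cos`, `tp_sin` (`ι = Fin 4`, `c = 1`, `φ = ![a, b, c, d]`, `f = ![A, B, C, D]`).
(1) A value `ω > 0` cannot be `|f j|` for exactly one `j`: the two identities would give
`cos (φ j) = 0` and `sin (φ j) = 0`.  Mean value (`ω = 0`): the sum of `cos (φ j)` over `f j = 0` is `0`.
(2) Number of nonzero slopes:
* four, with two classes of two equal `|f|`: in each class the sum of the two cosines is `0` (`tp_cos`):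
  one of the first three alternatives;
* four, all `|f|` equal: with signs `e_j = ±1` (`f j = e_j * A`) the unit complex numbers
  `z_j = exp (i e_j φ_j)` (real part `cos φ_j`, imaginary part `e_j sin φ_j`) have sum `0`
  (`tp_cos`, `tp_sin`).  Four unit vectors with sum zero consist of two pairs of opposite vectors:
  `z0 + z1 = -(z2 + z3)`, conjugate and multiply: if `z0 + z1 ≠ 0` then
  `z0 z1 = z2 z3` (because `conj z = 1/z`: `(z0+z1)/(z0 z1) = -(z2+z3)/(z2 z3)`), so `{z0, z1}` and
  `{-z2, -z3}` have the same sum and the same product and agree.  So one of the first three alternatives;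
* three: all three have the same `|f|` by (1), the fourth has slope zero and cosine zero: `Tri`
  (the first derivative at `τ = 0`, or `tp_sin`, gives the sine condition);
* two: they have the same `|f|` by (1), their cosines have sum zero, the other two are constant with sum
  zero;
* one is impossible, zero is excluded.
(For `Tri` note `A * sin a + B * sin b + C * sin c = A * (sin a ± sin b ± sin c)`.)
-/

namespace Pool.Agent.helper37.SY

open Real

/-- three cosines of the same frequency which cancel -/
def Tri (a A b B c C : ℝ) : Prop :=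
  A ≠ 0 ∧ (B = A ∨ B = -A) ∧ (C = A ∨ C = -A) ∧ cos a + cos b + cos c = 0 ∧
    A * sin a + B * sin b + C * sin c = 0

/-- four unit vectors with sum zero -/
private theorem qua_unit {z₁ z₂ z₃ z₄ w₁ w₂ w₃ w₄ : ℂ} (h₁ : z₁ * w₁ = 1) (h₂ : z₂ * w₂ = 1)
    (h₃ : z₃ * w₃ = 1) (h₄ : z₄ * w₄ = 1) (hz : z₁ + z₂ + z₃ + z₄ = 0)
    (hw : w₁ + w₂ + w₃ + w₄ = 0) :
    (z₁ + z₂ = 0 ∧ z₃ + z₄ = 0) ∨ (z₁ + z₃ = 0 ∧ z₂ + z₄ = 0) ∨ (z₁ + z₄ = 0 ∧ z₂ + z₃ = 0) := by
  have key : (z₁ + z₂) * ((z₁ + z₃) * (z₁ + z₄)) = 0 := by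
    linear_combination z₁ ^ 2 * hz + z₁ * z₂ * z₃ * z₄ * hw - z₂ * z₃ * z₄ * h₁ -
      z₁ * z₃ * z₄ * h₂ - z₁ * z₂ * z₄ * h₃ - z₁ * z₂ * z₃ * h₄
  rcases mul_eq_zero.1 key with h | h
  · exact Or.inl ⟨h, by linear_combination hz - h⟩
  · rcases mul_eq_zero.1 h with h | h
    · exact Or.inr (Or.inl ⟨h, by linear_combination hz - h⟩)
    · exact Or.inr (Or.inr ⟨h, by linear_combination hz - h⟩)

private theorem qua_four (a b c d A B C D : ℝ) (hA : A ≠ 0) (hB : |A| = |B|) (hC : |A| = |C|)
    (hD : |A| = |D|) (h1 : cos a + cos b + cos c + cos d = 0)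
    (h2 : A * sin a + B * sin b + C * sin c + D * sin d = 0) :
    (cos a + cos b = 0 ∧ cos c + cos d = 0) ∨ (cos a + cos c = 0 ∧ cos b + cos d = 0) ∨
      (cos a + cos d = 0 ∧ cos b + cos c = 0) := by
  have key : ∀ F φ : ℝ, |A| = |F| →
      ((⟨cos φ, F / A * sin φ⟩ : ℂ) * ⟨cos φ, -(F / A * sin φ)⟩ = 1) := by
    intro F φ hF
    have h3 : (F / A) ^ 2 = 1 := by
      rw [div_pow, ← sq_abs F, ← hF, sq_abs, div_self (pow_ne_zero 2 hA)]
    apply Complex.ext
    · rw [Complex.mul_re, Complex.one_re]
      linear_combination (sin φ) ^ 2 * h3 + sin_sq_add_cos_sq φ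
    · rw [Complex.mul_im, Complex.one_im]
      ring
  have h3 : A / A * sin a + B / A * sin b + C / A * sin c + D / A * sin d = 0 := by
    field_simp
    linear_combination h2
  have hz : (⟨cos a, A / A * sin a⟩ : ℂ) + ⟨cos b, B / A * sin b⟩ + ⟨cos c, C / A * sin c⟩ +
      ⟨cos d, D / A * sin d⟩ = 0 := by
    apply Complex.ext
    · rw [Complex.add_re, Complex.add_re, Complex.add_re, Complex.zero_re]
      exact h1
    · rw [Complex.add_im, Complex.add_im, Complex.add_im, Complex.zero_im]
      exact h3
  have hw : (⟨cos a, -(A / A * sin a)⟩ : ℂ) + ⟨cos b, -(B / A * sin b)⟩ +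
      ⟨cos c, -(C / A * sin c)⟩ + ⟨cos d, -(D / A * sin d)⟩ = 0 := by
    apply Complex.ext
    · rw [Complex.add_re, Complex.add_re, Complex.add_re, Complex.zero_re]
      exact h1
    · rw [Complex.add_im, Complex.add_im, Complex.add_im, Complex.zero_im]
      linear_combination -h3
  have hre : ∀ x y u v : ℝ, (⟨x, u⟩ : ℂ) + ⟨y, v⟩ = 0 → x + y = 0 := by
    intro x y u v h
    have := congrArg Complex.re h
    rwa [Complex.add_re, Complex.zero_re] at this
  rcases qua_unit (key A a rfl) (key B b hB) (key C c hC) (key D d hD) hz hw with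
    ⟨h, h'⟩ | ⟨h, h'⟩ | ⟨h, h'⟩
  · exact Or.inl ⟨hre _ _ _ _ h, hre _ _ _ _ h'⟩
  · exact Or.inr (Or.inl ⟨hre _ _ _ _ h, hre _ _ _ _ h'⟩)
  · exact Or.inr (Or.inr ⟨hre _ _ _ _ h, hre _ _ _ _ h'⟩)

/-- a frequency which occurs once is zero -/
private theorem qua_single {x X : ℝ} (h1 : cos x = 0) (h2 : X * sin x = 0) : X = 0 := by
  rcases mul_eq_zero.1 h2 with h | h
  · exact h
  · have := sin_sq_add_cos_sq x
    rw [h1, h] at this
    norm_num at this

private theorem qua_tri {a b c A B C : ℝ} (hA : A ≠ 0) (hB : |A| = |B|) (hC : |A| = |C|)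
    (h1 : cos a + cos b + cos c = 0) (h2 : A * sin a + B * sin b + C * sin c = 0) :
    Tri a A b B c C :=
  ⟨hA, abs_eq_abs.1 hB.symm, abs_eq_abs.1 hC.symm, h1, h2⟩

private theorem qua_if (A ω x : ℝ) (hω : 0 < ω) :
    (if A = ω then x else 0) + (if A = -ω then x else 0) = if |A| = ω then x else 0 := by
  by_cases h1 : A = ω
  · have h2 : A ≠ -ω := by rw [h1]; exact (neg_lt_self hω).ne'
    have h3 : |A| = ω := by rw [h1, abs_of_pos hω]
    rw [if_pos h1, if_neg h2, if_pos h3, add_zero]
  · by_cases h2 : A = -ω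
    · have h3 : |A| = ω := by rw [h2, abs_neg, abs_of_pos hω]
      rw [if_neg h1, if_pos h2, if_pos h3, zero_add]
    · have h3 : |A| ≠ ω := by
        intro h
        rcases abs_choice A with h4 | h4
        · exact h1 (by rw [← h4, h])
        · exact h2 (by linarith)
      rw [if_neg h1, if_neg h2, if_neg h3, add_zero]

private theorem qua_if' (A ω x : ℝ) (hω : 0 < ω) :
    ω * ((if A = ω then x else 0) - (if A = -ω then x else 0)) = if |A| = ω then A * x else 0 := by
  by_cases h1 : A = ω
  · have h2 : A ≠ -ω := by rw [h1]; exact (neg_lt_self hω).ne'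
    have h3 : |A| = ω := by rw [h1, abs_of_pos hω]
    rw [if_pos h1, if_neg h2, if_pos h3, sub_zero, h1]
  · by_cases h2 : A = -ω
    · have h3 : |A| = ω := by rw [h2, abs_neg, abs_of_pos hω]
      rw [if_neg h1, if_pos h2, if_pos h3, h2]
      ring
    · have h3 : |A| ≠ ω := by
        intro h
        rcases abs_choice A with h4 | h4
        · exact h1 (by rw [← h4, h])
        · exact h2 (by linarith)
      rw [if_neg h1, if_neg h2, if_neg h3]
      ring

private theorem qua_if0 (A x : ℝ) :
    (if A = 0 then x else 0) + (if A = -0 then x else 0) = 2 * if |A| = 0 then x else 0 := by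
  by_cases h1 : A = 0
  · simp only [h1, neg_zero, abs_zero, if_true]
    ring
  · have h2 : |A| ≠ 0 := abs_ne_zero.2 h1
    simp only [h1, neg_zero, h2, if_false]
    ring

theorem quad (a b c d A B C D : ℝ)
    (h : ∀ τ : ℝ, cos (a + A * τ) + cos (b + B * τ) + cos (c + C * τ) + cos (d + D * τ) = 0)
    (hne : ¬ (A = 0 ∧ B = 0 ∧ C = 0 ∧ D = 0)) :
    (cos a + cos b = 0 ∧ cos c + cos d = 0) ∨ (cos a + cos c = 0 ∧ cos b + cos d = 0) ∨
      (cos a + cos d = 0 ∧ cos b + cos c = 0) ∨ (A = 0 ∧ cos a = 0 ∧ Tri b B c C d D) ∨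
      (B = 0 ∧ cos b = 0 ∧ Tri a A c C d D) ∨ (C = 0 ∧ cos c = 0 ∧ Tri a A b B d D) ∨
      (D = 0 ∧ cos d = 0 ∧ Tri a A b B c C) := by
  have hh : ∀ τ : ℝ, ∑ j : Fin 4, (![1, 1, 1, 1] : Fin 4 → ℝ) j *
      Real.cos ((![a, b, c, d] : Fin 4 → ℝ) j + (![A, B, C, D] : Fin 4 → ℝ) j * τ) = 0 := by
    intro τ
    rw [Fin.sum_univ_four]
    simp only [Matrix.cons_val, one_mul]
    exact h τ
  have hc : ∀ ω : ℝ, 0 ≤ ω → (if |A| = ω then cos a else 0) + (if |B| = ω then cos b else 0) +
      (if |C| = ω then cos c else 0) + (if |D| = ω then cos d else 0) = 0 := by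
    intro ω hω
    have h1 := tp_cos _ _ _ hh ω
    rw [Fin.sum_univ_four] at h1
    simp only [Matrix.cons_val, one_mul] at h1
    rcases eq_or_lt_of_le hω with h0 | h0
    · subst h0
      rw [qua_if0, qua_if0, qua_if0, qua_if0] at h1
      linarith
    · rw [qua_if _ _ _ h0, qua_if _ _ _ h0, qua_if _ _ _ h0, qua_if _ _ _ h0] at h1
      exact h1
  have hs : ∀ ω : ℝ, 0 ≤ ω → (if |A| = ω then A * sin a else 0) +
      (if |B| = ω then B * sin b else 0) + (if |C| = ω then C * sin c else 0) +
      (if |D| = ω then D * sin d else 0) = 0 := by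
    intro ω hω
    rcases eq_or_lt_of_le hω with h0 | h0
    · subst h0
      have e : ∀ F x : ℝ, (if |F| = 0 then F * x else 0) = 0 := by
        intro F x
        split_ifs with h1
        · rw [abs_eq_zero.1 h1, zero_mul]
        · rfl
      rw [e, e, e, e]
      norm_num
    · have h1 := tp_sin _ _ _ hh ω
      rw [Fin.sum_univ_four] at h1
      simp only [Matrix.cons_val, one_mul] at h1
      have h2 := congrArg (fun t => ω * t) h1
      simp only [mul_add, mul_zero] at h2
      rw [qua_if' _ _ _ h0, qua_if' _ _ _ h0, qua_if' _ _ _ h0, qua_if' _ _ _ h0] at h2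
      exact h2
  have cA := hc |A| (abs_nonneg _)
  have cB := hc |B| (abs_nonneg _)
  have cC := hc |C| (abs_nonneg _)
  have cD := hc |D| (abs_nonneg _)
  have sA := hs |A| (abs_nonneg _)
  have sB := hs |B| (abs_nonneg _)
  have sC := hs |C| (abs_nonneg _)
  have sD := hs |D| (abs_nonneg _)
  clear hc hs hh h
  have zA : A = 0 ↔ |A| = 0 := abs_eq_zero.symm
  have zB : B = 0 ↔ |B| = 0 := abs_eq_zero.symm
  have zC : C = 0 ↔ |C| = 0 := abs_eq_zero.symm
  have zD : D = 0 ↔ |D| = 0 := abs_eq_zero.symm
  by_cases pq : |A| = |B|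
  · by_cases pr : |A| = |C|
    · by_cases ps : |A| = |D|
      · -- all equal
        have hA : A ≠ 0 := by
          intro h0
          rw [zA] at h0
          exact hne ⟨zA.2 h0, zB.2 (by rw [← pq, h0]), zC.2 (by rw [← pr, h0]),
            zD.2 (by rw [← ps, h0])⟩
        rw [if_pos rfl, if_pos pq.symm, if_pos pr.symm, if_pos ps.symm] at cA sA
        rcases qua_four a b c d A B C D hA pq pr ps cA sA with h | h | h
        · exact Or.inl h
        · exact Or.inr (Or.inl h)
        · exact Or.inr (Or.inr (Or.inl h))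
      · -- d single
        have qs : |B| ≠ |D| := by rw [← pq]; exact ps
        have rs : |C| ≠ |D| := by rw [← pr]; exact ps
        rw [if_neg ps, if_neg qs, if_neg rs, if_pos rfl, add_zero, add_zero, zero_add] at cD sD
        have hD := qua_single cD sD
        rw [if_pos rfl, if_pos pq.symm, if_pos pr.symm, if_neg (Ne.symm ps), add_zero] at cA sA
        have hA : A ≠ 0 := by
          intro h0
          exact ps (by rw [zA.1 h0, zD.1 hD])
        exact Or.inr (Or.inr (Or.inr (Or.inr (Or.inr (Or.inr
          ⟨hD, cD, qua_tri hA pq pr cA sA⟩)))))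
    · by_cases ps : |A| = |D|
      · -- c single
        have qr : |B| ≠ |C| := by rw [← pq]; exact pr
        have rs : |D| ≠ |C| := by rw [← ps]; exact pr
        rw [if_neg pr, if_neg qr, if_pos rfl, if_neg rs, add_zero, zero_add, zero_add] at cC sC
        have hC := qua_single cC sC
        rw [if_pos rfl, if_pos pq.symm, if_neg (Ne.symm pr), if_pos ps.symm, add_zero] at cA sA
        have hA : A ≠ 0 := by
          intro h0
          exact pr (by rw [zA.1 h0, zC.1 hC])
        exact Or.inr (Or.inr (Or.inr (Or.inr (Or.inr (Or.inl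
          ⟨hC, cC, qua_tri hA pq ps cA sA⟩)))))
      · by_cases rs : |C| = |D|
        · -- pairs
          have qr : |B| ≠ |C| := by rw [← pq]; exact pr
          rw [if_pos rfl, if_pos pq.symm, if_neg (Ne.symm pr), if_neg (Ne.symm ps), add_zero,
            add_zero] at cA
          rw [if_neg pr, if_neg qr, if_pos rfl, if_pos rs.symm, zero_add, zero_add] at cC
          exact Or.inl ⟨cA, cC⟩
        · exfalso
          have qr : |B| ≠ |C| := by rw [← pq]; exact pr
          have qs : |B| ≠ |D| := by rw [← pq]; exact ps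
          rw [if_neg pr, if_neg qr, if_pos rfl, if_neg (Ne.symm rs), add_zero, zero_add,
            zero_add] at cC sC
          rw [if_neg ps, if_neg qs, if_neg rs, if_pos rfl, add_zero, add_zero, zero_add] at cD sD
          exact rs (by rw [zC.1 (qua_single cC sC), zD.1 (qua_single cD sD)])
  · by_cases pr : |A| = |C|
    · by_cases ps : |A| = |D|
      · -- b single
        have qr : |C| ≠ |B| := by rw [← pr]; exact pq
        have qs : |D| ≠ |B| := by rw [← ps]; exact pq
        rw [if_neg pq, if_pos rfl, if_neg qr, if_neg qs, add_zero, add_zero, zero_add] at cB sB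
        have hB := qua_single cB sB
        rw [if_pos rfl, if_neg (Ne.symm pq), if_pos pr.symm, if_pos ps.symm, add_zero] at cA sA
        have hA : A ≠ 0 := by
          intro h0
          exact pq (by rw [zA.1 h0, zB.1 hB])
        exact Or.inr (Or.inr (Or.inr (Or.inr (Or.inl
          ⟨hB, cB, qua_tri hA pr ps cA sA⟩))))
      · by_cases qs : |B| = |D|
        · -- pairs
          have rq : |C| ≠ |B| := by rw [← pr]; exact pq
          rw [if_pos rfl, if_neg (Ne.symm pq), if_pos pr.symm, if_neg (Ne.symm ps), add_zero,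
            add_zero] at cA
          rw [if_neg pq, if_pos rfl, if_neg rq, if_pos qs.symm, zero_add, add_zero] at cB
          exact Or.inr (Or.inl ⟨cA, cB⟩)
        · exfalso
          have rq : |C| ≠ |B| := by rw [← pr]; exact pq
          have rs : |C| ≠ |D| := by rw [← pr]; exact ps
          rw [if_neg pq, if_pos rfl, if_neg rq, if_neg (Ne.symm qs), add_zero, add_zero,
            zero_add] at cB sB
          rw [if_neg ps, if_neg qs, if_neg rs, if_pos rfl, add_zero, add_zero, zero_add] at cD sD
          exact qs (by rw [zB.1 (qua_single cB sB), zD.1 (qua_single cD sD)])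
    · by_cases ps : |A| = |D|
      · by_cases qr : |B| = |C|
        · -- pairs
          have sq : |D| ≠ |B| := by rw [← ps]; exact pq
          rw [if_pos rfl, if_neg (Ne.symm pq), if_neg (Ne.symm pr), if_pos ps.symm, add_zero,
            add_zero] at cA
          rw [if_neg pq, if_pos rfl, if_pos qr.symm, if_neg sq, zero_add, add_zero] at cB
          exact Or.inr (Or.inr (Or.inl ⟨cA, cB⟩))
        · exfalso
          have sq : |D| ≠ |B| := by rw [← ps]; exact pq
          have sr : |D| ≠ |C| := by rw [← ps]; exact pr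
          rw [if_neg pq, if_pos rfl, if_neg (Ne.symm qr), if_neg sq, add_zero, add_zero,
            zero_add] at cB sB
          rw [if_neg pr, if_neg qr, if_pos rfl, if_neg sr, add_zero, zero_add, zero_add] at cC sC
          exact qr (by rw [zB.1 (qua_single cB sB), zC.1 (qua_single cC sC)])
      · -- a single
        rw [if_pos rfl, if_neg (Ne.symm pq), if_neg (Ne.symm pr), if_neg (Ne.symm ps), add_zero,
          add_zero, add_zero] at cA sA
        have hA := qua_single cA sA
        by_cases qr : |B| = |C|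
        · by_cases qs : |B| = |D|
          · rw [if_neg pq, if_pos rfl, if_pos qr.symm, if_pos qs.symm, zero_add] at cB sB
            have hB : B ≠ 0 := by
              intro h0
              exact pq (by rw [zA.1 hA, zB.1 h0])
            exact Or.inr (Or.inr (Or.inr (Or.inl ⟨hA, cA, qua_tri hB qr qs cB sB⟩)))
          · exfalso
            have rs : |C| ≠ |D| := by rw [← qr]; exact qs
            rw [if_neg ps, if_neg qs, if_neg rs, if_pos rfl, add_zero, add_zero,
              zero_add] at cD sD
            exact ps (by rw [zA.1 hA, zD.1 (qua_single cD sD)])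
        · by_cases qs : |B| = |D|
          · exfalso
            have sr : |D| ≠ |C| := by rw [← qs]; exact qr
            rw [if_neg pr, if_neg qr, if_pos rfl, if_neg sr, add_zero, zero_add,
              zero_add] at cC sC
            exact pr (by rw [zA.1 hA, zC.1 (qua_single cC sC)])
          · exfalso
            rw [if_neg pq, if_pos rfl, if_neg (Ne.symm qr), if_neg (Ne.symm qs), add_zero,
              add_zero, zero_add] at cB sB
            exact pq (by rw [zA.1 hA, zB.1 (qua_single cB sB)])

end Pool.Agent.helper37.SY
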