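import Pool.Agent.helper37.SY.Defs

/-!
SY-04 (Syd).  The data of a symmetric tetrahedron can be chosen symmetric.

author of the proof: helper56

PROOF.  Put `v i = iv (s i + s i ∘ ρ)` (an integer vector).  From `hang`, `l ∘ ρ = l`:
`ang l ∘ ρ = ang (l ∘ ρ) = ang l`, so `dotp (iv (s i ∘ ρ)) (ang l) = dotp (iv (s i)) (ang l)` by `hdot`, and
`dotp (v i) (ang l) = π * (2 * r i)`.  Since `l = (l + l ∘ ρ) / 2` and `x ↦ x ∘ ρ` is linear,
`l ∈ span (v i)`.  Choose a subfamily of `v` which is a basis of the span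
(`exists_linearIndependent'` or `exists_fun_fin_finrank_span_eq` or a maximal subset of `Finset.univ`),
numbered by `Fin k'`.
-/

namespace Pool.Agent.helper37.SY

open Real Pool.Agent.helper37.NP Pool.Agent.helper37.NL Pool.Agent.Helper93.Tet

theorem sym_data (ρ : Fin 6 → Fin 6) (hρ : ∀ i, ρ (ρ i) = i)
    (hdot : ∀ x y : V6, dotp (fun i => x (ρ i)) (fun i => y (ρ i)) = dotp x y) {l : V6}
    (hσ : ∀ i, l (ρ i) = l i) (hang : ∀ i, ang l (ρ i) = ang l i) {k : ℕ} (s : Fin k → Fin 6 → ℤ)
    (r : Fin k → ℚ) (hsp : l ∈ Submodule.span ℝ (Set.range fun i => iv (s i)))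
    (hr : ∀ i, dotp (iv (s i)) (ang l) = π * (r i : ℝ)) :
    ∃ (k' : ℕ) (s' : Fin k' → Fin 6 → ℤ) (r' : Fin k' → ℚ),
      LinearIndependent ℝ (fun i => iv (s' i)) ∧ (∀ i, iv (s' i) ∈ Sy ρ) ∧
      l ∈ Submodule.span ℝ (Set.range fun i => iv (s' i)) ∧
      ∀ i, dotp (iv (s' i)) (ang l) = π * (r' i : ℝ) := by
  -- the linear map x ↦ x + x ∘ ρ
  let L : V6 →ₗ[ℝ] V6 :=
    { toFun := fun x i => x i + x (ρ i)
      map_add' := fun x y => by
        funext i
        simp only [Pi.add_apply]
        ring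
      map_smul' := fun a x => by
        funext i
        simp only [Pi.smul_apply, smul_eq_mul, RingHom.id_apply]
        ring }
  let s2 : Fin k → Fin 6 → ℤ := fun i j => s i j + s i (ρ j)
  have hiv : ∀ i, iv (s2 i) = L (iv (s i)) := by
    intro i
    funext j
    change ((s i j + s i (ρ j) : ℤ) : ℝ) = (s i j : ℝ) + (s i (ρ j) : ℝ)
    push_cast
    ring
  have hLl : L l = (2 : ℝ) • l := by
    funext j
    change l j + l (ρ j) = (2 : ℝ) • l j
    rw [hσ j, smul_eq_mul]
    ring
  have hdots : ∀ i, dotp (iv (s2 i)) (ang l) = π * ((2 * r i : ℚ) : ℝ) := by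
    intro i
    have h1 : iv (s2 i) = iv (s i) + fun j => iv (s i) (ρ j) := by
      rw [hiv]
      rfl
    have h2 : dotp (fun j => iv (s i) (ρ j)) (ang l) = dotp (iv (s i)) (ang l) := by
      have h3 : (fun j => ang l (ρ j)) = ang l := by
        funext j
        exact hang j
      have h4 := hdot (iv (s i)) (ang l)
      rw [h3] at h4
      exact h4
    have h5 : dotp (iv (s i) + fun j => iv (s i) (ρ j)) (ang l) =
        dotp (iv (s i)) (ang l) + dotp (fun j => iv (s i) (ρ j)) (ang l) := by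
      simp only [dotp, Pi.add_apply]
      ring
    rw [h1, h5, h2, hr i]
    push_cast
    ring
  have hspan : l ∈ Submodule.span ℝ (Set.range fun i => iv (s2 i)) := by
    have h1 : L l ∈ (Submodule.span ℝ (Set.range fun i => iv (s i))).map L :=
      Submodule.mem_map_of_mem hsp
    rw [Submodule.map_span, ← Set.range_comp] at h1
    have h2 : (L ∘ fun i => iv (s i)) = fun i => iv (s2 i) := by
      funext i
      exact (hiv i).symm
    rw [h2, hLl] at h1
    have h3 := Submodule.smul_mem _ ((1 / 2 : ℝ)) h1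
    rw [smul_smul] at h3
    norm_num at h3
    exact h3
  obtain ⟨f, hf1, hf2, hf3⟩ := Submodule.exists_fun_fin_finrank_span_eq ℝ
    (Set.range fun i => iv (s2 i))
  choose g hg using hf1
  have hfg : f = fun i => iv (s2 (g i)) := by
    funext i
    exact (hg i).symm
  refine ⟨_, fun i => s2 (g i), fun i => 2 * r (g i), ?_, ?_, ?_, fun i => hdots (g i)⟩
  · rw [← hfg]
    exact hf3
  · intro i
    have h1 : ∀ j, iv (s2 (g i)) (ρ j) = iv (s2 (g i)) j := by
      intro j
      rw [hiv]
      change iv (s (g i)) (ρ j) + iv (s (g i)) (ρ (ρ j)) = iv (s (g i)) j + iv (s (g i)) (ρ j)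
      rw [hρ j]
      ring
    exact h1
  · rw [← hfg, hf2]
    exact hspan

end Pool.Agent.helper37.SY
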