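import Mathlib

/-!
SY-02 (Tpo).  Coefficients of trigonometric sums with real frequencies.

PROOF of `tp_freq`.  For real `a` let `χ a : Multiplicative ℝ →* ℂ`, `τ ↦ exp (i a τ)`.  The `χ a` are
pairwise different for different `a` (evaluate at a small `τ`, or differentiate at `0`), so they are
linearly independent over `ℂ` (`linearIndependent_monoidHom`).  The hypothesis says
`∑ j, (c j / 2) * (exp (i φ j) χ (f j) + exp (-i φ j) χ (-f j)) = 0`.  Collect the coefficient of `χ ω`: it
is half of the sum in the claim.  (Alternative: multiply by `exp (-i ω τ)`, integrate over `[0, N]`,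
divide by `N` and let `N → ∞`: the mean of `exp (i b τ)` tends to `0` for `b ≠ 0` and is `1` for `b = 0`.)
`tp_cos`, `tp_sin` are the real and the imaginary part.
-/

namespace Pool.Agent.helper37.SY

/-- the characters of the additive group of the reals -/
private noncomputable def TpoChi (a : ℝ) : Multiplicative ℝ →* ℂ where
  toFun τ := Complex.exp (((a * τ.toAdd : ℝ) : ℂ) * Complex.I)
  map_one' := by simp
  map_mul' x y := by
    rw [toAdd_mul, ← Complex.exp_add]
    congr 1
    push_cast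
    ring

private theorem TpoChi_apply (a τ : ℝ) :
    TpoChi a (Multiplicative.ofAdd τ) = Complex.exp (((a * τ : ℝ) : ℂ) * Complex.I) := rfl

private theorem TpoChi_inj : Function.Injective TpoChi := by
  intro a b hab
  by_contra hne
  have hne' : a - b ≠ 0 := sub_ne_zero.2 hne
  have h1 := DFunLike.congr_fun hab (Multiplicative.ofAdd (Real.pi / (a - b)))
  rw [TpoChi_apply, TpoChi_apply] at h1
  have h2 : Complex.exp (((a * (Real.pi / (a - b)) : ℝ) : ℂ) * Complex.I -
      ((b * (Real.pi / (a - b)) : ℝ) : ℂ) * Complex.I) = 1 := by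
    rw [Complex.exp_sub, h1, div_self (Complex.exp_ne_zero _)]
  have h3 : ((a * (Real.pi / (a - b)) : ℝ) : ℂ) * Complex.I -
      ((b * (Real.pi / (a - b)) : ℝ) : ℂ) * Complex.I = (Real.pi : ℂ) * Complex.I := by
    rw [← sub_mul, ← Complex.ofReal_sub, ← sub_mul, mul_div_cancel₀ _ hne']
  rw [h3, Complex.exp_pi_mul_I] at h2
  norm_num at h2

private theorem TpoChi_li : LinearIndependent ℂ (fun a : ℝ => (TpoChi a : Multiplicative ℝ → ℂ)) :=
  (linearIndependent_monoidHom (Multiplicative ℝ) ℂ).comp TpoChi TpoChi_inj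

theorem tp_freq {ι : Type*} [Fintype ι] (c φ f : ι → ℝ)
    (h : ∀ τ : ℝ, ∑ j, c j * Real.cos (φ j + f j * τ) = 0) (ω : ℝ) :
    ∑ j, ((if f j = ω then (c j : ℂ) * Complex.exp ((φ j : ℂ) * Complex.I) else 0)
      + (if f j = -ω then (c j : ℂ) * Complex.exp (-((φ j : ℂ) * Complex.I)) else 0)) = 0 := by
  classical
  set g : ℝ →₀ ℂ := ∑ j, (Finsupp.single (f j) ((c j : ℂ) * Complex.exp ((φ j : ℂ) * Complex.I)) +
    Finsupp.single (-f j) ((c j : ℂ) * Complex.exp (-((φ j : ℂ) * Complex.I)))) with hg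
  have h0 : Finsupp.linearCombination ℂ (fun a : ℝ => (TpoChi a : Multiplicative ℝ → ℂ)) g = 0 := by
    funext τ
    rw [hg, map_sum, Finset.sum_apply]
    have h1 : ∀ j, (Finsupp.linearCombination ℂ (fun a : ℝ => (TpoChi a : Multiplicative ℝ → ℂ))
        (Finsupp.single (f j) ((c j : ℂ) * Complex.exp ((φ j : ℂ) * Complex.I)) +
        Finsupp.single (-f j) ((c j : ℂ) * Complex.exp (-((φ j : ℂ) * Complex.I))))) τ =
        2 * ((c j * Real.cos (φ j + f j * τ.toAdd) : ℝ) : ℂ) := by
      intro j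
      rw [map_add, Finsupp.linearCombination_single, Finsupp.linearCombination_single,
        Pi.add_apply, Pi.smul_apply, Pi.smul_apply, smul_eq_mul, smul_eq_mul]
      have e1 : TpoChi (f j) τ = Complex.exp (((f j * τ.toAdd : ℝ) : ℂ) * Complex.I) := rfl
      have e2 : TpoChi (-f j) τ = Complex.exp (((-f j * τ.toAdd : ℝ) : ℂ) * Complex.I) := rfl
      rw [e1, e2, mul_assoc, mul_assoc, ← Complex.exp_add, ← Complex.exp_add]
      push_cast
      rw [Complex.cos]
      have e3 : (φ j : ℂ) * Complex.I + (f j : ℂ) * (τ.toAdd : ℂ) * Complex.I =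
          ((φ j : ℂ) + (f j : ℂ) * (τ.toAdd : ℂ)) * Complex.I := by ring
      have e4 : -((φ j : ℂ) * Complex.I) + -(f j : ℂ) * (τ.toAdd : ℂ) * Complex.I =
          -((φ j : ℂ) + (f j : ℂ) * (τ.toAdd : ℂ)) * Complex.I := by ring
      rw [e3, e4]
      ring
    rw [Finset.sum_congr rfl fun j _ => h1 j, ← Finset.mul_sum, ← Complex.ofReal_sum,
      h τ.toAdd]
    simp
  have h1 : g = 0 := linearIndependent_iff.1 TpoChi_li g h0
  have h2 : g ω = 0 := by rw [h1]; rfl
  rw [hg, Finsupp.finset_sum_apply] at h2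
  refine Eq.trans (Finset.sum_congr rfl fun j _ => ?_) h2
  rw [Finsupp.add_apply, Finsupp.single_apply, Finsupp.single_apply]
  congr 1
  by_cases h3 : f j = -ω
  · rw [if_pos h3, if_pos (by rw [h3, neg_neg])]
  · rw [if_neg h3, if_neg (fun h4 => h3 (by rw [← h4, neg_neg]))]

theorem tp_cos {ι : Type*} [Fintype ι] (c φ f : ι → ℝ)
    (h : ∀ τ : ℝ, ∑ j, c j * Real.cos (φ j + f j * τ) = 0) (ω : ℝ) :
    ∑ j, ((if f j = ω then c j * Real.cos (φ j) else 0)
      + (if f j = -ω then c j * Real.cos (φ j) else 0)) = 0 := by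
  have h1 := congrArg Complex.re (tp_freq c φ f h ω)
  rw [Complex.re_sum, Complex.zero_re] at h1
  refine Eq.trans (Finset.sum_congr rfl fun j _ => ?_) h1
  rw [Complex.add_re]
  have e1 : ((c j : ℂ) * Complex.exp ((φ j : ℂ) * Complex.I)).re = c j * Real.cos (φ j) := by
    rw [Complex.re_ofReal_mul, Complex.exp_ofReal_mul_I_re]
  have e2 : ((c j : ℂ) * Complex.exp (-((φ j : ℂ) * Complex.I))).re = c j * Real.cos (φ j) := by
    rw [Complex.re_ofReal_mul, ← neg_mul, ← Complex.ofReal_neg, Complex.exp_ofReal_mul_I_re,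
      Real.cos_neg]
  congr 1
  · split_ifs
    · exact e1.symm
    · rfl
  · split_ifs
    · exact e2.symm
    · rfl

theorem tp_sin {ι : Type*} [Fintype ι] (c φ f : ι → ℝ)
    (h : ∀ τ : ℝ, ∑ j, c j * Real.cos (φ j + f j * τ) = 0) (ω : ℝ) :
    ∑ j, ((if f j = ω then c j * Real.sin (φ j) else 0)
      - (if f j = -ω then c j * Real.sin (φ j) else 0)) = 0 := by
  have h1 := congrArg Complex.im (tp_freq c φ f h ω)
  rw [Complex.im_sum, Complex.zero_im] at h1
  refine Eq.trans (Finset.sum_congr rfl fun j _ => ?_) h1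
  rw [Complex.add_im, sub_eq_add_neg]
  have e1 : ((c j : ℂ) * Complex.exp ((φ j : ℂ) * Complex.I)).im = c j * Real.sin (φ j) := by
    rw [Complex.im_ofReal_mul, Complex.exp_ofReal_mul_I_im]
  have e2 : ((c j : ℂ) * Complex.exp (-((φ j : ℂ) * Complex.I))).im = -(c j * Real.sin (φ j)) := by
    rw [Complex.im_ofReal_mul, ← neg_mul, ← Complex.ofReal_neg, Complex.exp_ofReal_mul_I_im,
      Real.sin_neg, mul_neg]
  congr 1
  · split_ifs
    · exact e1.symm
    · rfl
  · split_ifs
    · exact e2.symm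
    · rw [neg_zero]; rfl

end Pool.Agent.helper37.SY
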